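import Pool.Agent.PKS.Targets
import Pool.Agent.PKD.RedLem

set_option autoImplicit false

/-!
# PKS, BSE: the residues of a point of the base, several levels
-/

namespace PKS

open MvPolynomial RD PKD

namespace BSE_

variable {Ω k : Type} [Field Ω] [Field k] {v : AbsoluteValue Ω ℝ} {r : Ω → k}

lemma sz_mono {d : ℕ} {x : Fin d → Ω} {V V' : Finset (Fin d)} {M M' : ℝ} (h : IsSz v x V M)
    (h' : IsSz v x V' M') (hV : V ⊆ V') : M ≤ M' := by
  rcases h.2.2 with h1 | ⟨m, hm, h1⟩
  · rw [h1]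
    exact h'.1
  · rw [← h1]
    exact h'.2.1 m (hV hm)

lemma sz_unique {d : ℕ} {x : Fin d → Ω} {V : Finset (Fin d)} {M M' : ℝ} (h : IsSz v x V M)
    (h' : IsSz v x V M') : M = M' :=
  le_antisymm (sz_mono h h' (Finset.Subset.refl _)) (sz_mono h' h (Finset.Subset.refl _))

lemma sz_exists {d : ℕ} (v : AbsoluteValue Ω ℝ) (x : Fin d → Ω) (V : Finset (Fin d)) :
    ∃ M, IsSz v x V M := by
  by_cases h : ∃ m ∈ V, 1 < v (x m)
  · obtain ⟨m1, hm1, h1⟩ := h
    obtain ⟨m0, hm0, hmax⟩ := V.exists_max_image (fun m => v (x m)) ⟨m1, hm1⟩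
    exact ⟨v (x m0), h1.le.trans (hmax m1 hm1), hmax, Or.inr ⟨m0, hm0, rfl⟩⟩
  · push Not at h
    exact ⟨1, le_rfl, h, Or.inl rfl⟩

lemma vars_rdP (hr : Red v r) {d : ℕ} (q : MvPolynomial (Fin d) Ω) {m : Fin d}
    (hm : m ∈ (rdP r q).vars) : m ∈ q.vars := by
  rw [mem_vars_iff_mem_support] at hm ⊢
  obtain ⟨t, ht, hmt⟩ := hm
  refine ⟨t, ?_, hmt⟩
  rw [mem_support_iff, rdP_coeff hr] at ht
  rw [mem_support_iff]
  intro h0
  rw [h0, hr.zero] at ht
  exact ht rfl

lemma eval_congr' {R : Type} [CommRing R] {d : ℕ} (q : MvPolynomial (Fin d) R) (x y : Fin d → R)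
    (h : ∀ m ∈ q.vars, x m = y m) : eval x q = eval y q :=
  eval₂Hom_congr' rfl (fun i hi _ => h i hi) rfl

lemma eval_mask {d : ℕ} (Y : Finset (Fin d)) (q : MvPolynomial (Fin d) k) (x' z : Fin d → k)
    (h1 : ∀ m ∈ Y, z m = x' m) (h2 : ∀ m, m ∉ Y → z m = 0) :
    eval x' (mask Y q) = eval z q := by
  unfold mask
  rw [aeval_def, ← coe_eval₂Hom, ← RingHom.comp_apply]
  have h : (eval x').comp (eval₂Hom (algebraMap k (MvPolynomial (Fin d) k))
      (fun m => open Classical in if m ∈ Y then (X m : MvPolynomial (Fin d) k) else 0)) = eval z := by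
    refine ringHom_ext (fun c => ?_) (fun m => ?_)
    · simp
    · rw [RingHom.comp_apply, eval₂Hom_X', eval_X]
      by_cases hm : m ∈ Y
      · rw [if_pos hm, eval_X, h1 m hm]
      · rw [if_neg hm, map_zero, h2 m hm]
  rw [h]

end BSE_

open BSE_ in
theorem p_BSE (hSIZ : T_SIZ) : T_BSE := by
  intro Ω k _ _ v r hr ϖ hϖ1 d n W ρ b hb x s hbase hϖ
  classical
  choose Mx hMx using sz_exists v x
  have hM1 : ∀ V, 1 ≤ Mx V := fun V => (hMx V).1
  have hMle : ∀ V, ∀ m ∈ V, v (x m) ≤ Mx V := fun V => (hMx V).2.1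
  have hϖM : ∀ V, v (ϖ (Mx V)) = Mx V := by
    intro V
    rcases (hMx V).2.2 with h | ⟨m, _, h⟩
    · rw [h, hϖ1, v.map_one]
    · by_cases h1 : Mx V = 1
      · rw [h1, hϖ1, v.map_one]
      · rw [← h]
        apply hϖ
        rw [h]
        exact lt_of_le_of_ne (hM1 V) (Ne.symm h1)
  have hϖ0 : ∀ V, ϖ (Mx V) ≠ 0 := by
    intro V h
    have h1 := hϖM V
    rw [h, v.map_zero] at h1
    have := hM1 V
    linarith
  have hMpos : ∀ V, 0 < Mx V := fun V => zero_lt_one.trans_le (hM1 V)
  have hsW : ∀ j, v (s j) ≤ Mx (W j) := fun j =>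
    (hSIZ Ω v hr.na d n W ρ b hb x s hbase (W j) (Mx (W j)) (hMx (W j))).1 j
      (Finset.Subset.refl _)
  -- the type
  set T : Typ d := fun V => if Mx V = 1 then none else
    some (V.filter (fun m => v (x m) = Mx V)) with hT
  have hTnone : ∀ V, Mx V = 1 → T V = none := fun V h => by rw [hT]; simp only [if_pos h]
  have hTsome : ∀ V, Mx V ≠ 1 → T V = some (V.filter (fun m => v (x m) = Mx V)) := fun V h => by
    rw [hT]; simp only [if_neg h]
  set x' : Fin d → k := fun m => if v (x m) ≤ 1 then r (x m) else r (x m / ϖ (v (x m))) with hx'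
  set s' : Fin n → k := fun j => r (s j / ϖ (Mx (W j))) with hs'
  -- residues of the coordinates
  have F2 : ∀ V, ∀ m ∈ V, v (x m / ϖ (Mx V)) ≤ 1 ∧
      r (x m / ϖ (Mx V)) = if (Mx V = 1 ∨ v (x m) = Mx V) then x' m else 0 := by
    intro V m hm
    have hle : v (x m / ϖ (Mx V)) ≤ 1 := by
      rw [map_div₀, hϖM, div_le_one (hMpos V)]
      exact hMle V m hm
    refine ⟨hle, ?_⟩
    by_cases h1 : Mx V = 1
    · rw [if_pos (Or.inl h1), h1, hϖ1, div_one, hx']
      simp only
      rw [if_pos (by rw [← h1]; exact hMle V m hm)]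
    · by_cases h2 : v (x m) = Mx V
      · rw [if_pos (Or.inr h2), hx']
        simp only
        rw [if_neg, h2]
        rw [h2]
        intro h3
        exact h1 (le_antisymm h3 (hM1 V))
      · rw [if_neg (by tauto), hr.ker _ hle, map_div₀, hϖM, div_lt_one (hMpos V)]
        exact lt_of_le_of_ne (hMle V m hm) h2
  have F3 : ∀ V j, W j ⊆ V → v (s j / ϖ (Mx V)) ≤ 1 ∧
      r (s j / ϖ (Mx V)) = if (Mx V = 1 ∨ Mx (W j) = Mx V) then s' j else 0 := by
    intro V j hj
    have hWV : Mx (W j) ≤ Mx V := sz_mono (hMx _) (hMx _) hj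
    have hle : v (s j / ϖ (Mx V)) ≤ 1 := by
      rw [map_div₀, hϖM, div_le_one (hMpos V)]
      exact (hsW j).trans hWV
    refine ⟨hle, ?_⟩
    by_cases h2 : Mx (W j) = Mx V
    · rw [if_pos (Or.inr h2), hs']
      simp only
      rw [h2]
    · by_cases h1 : Mx V = 1
      · exfalso
        apply h2
        rw [h1] at hWV ⊢
        exact le_antisymm hWV (hM1 _)
      · rw [if_neg (by tauto), hr.ker _ hle, map_div₀, hϖM, div_lt_one (hMpos V)]
        exact (hsW j).trans_lt (lt_of_le_of_ne hWV h2)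
  have F4 : ∀ V j, W j ⊆ V → Mx V ≠ 1 →
      (Mx (W j) = Mx V ↔ ¬ Disjoint (W j) (V.filter (fun m => v (x m) = Mx V))) := by
    intro V j hj h1
    constructor
    · intro h2 hd
      rcases (hMx (W j)).2.2 with h3 | ⟨m, hm, h3⟩
      · exact h1 (h2.symm.trans h3)
      · exact Finset.disjoint_left.mp hd hm
          (Finset.mem_filter.mpr ⟨hj hm, h3.trans h2⟩)
    · intro hd
      rw [Finset.not_disjoint_iff] at hd
      obtain ⟨m, hm, hm2⟩ := hd
      apply le_antisymm (sz_mono (hMx _) (hMx _) hj)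
      rw [← (Finset.mem_filter.mp hm2).2]
      exact hMle _ m hm
  set z : Fin d ⊕ Fin n → Ω := Sum.elim x s with hz
  set z' : Fin d ⊕ Fin n → k := Sum.elim x' s' with hz'
  have F5 : ∀ V t, Al W V t → v (z t / ϖ (Mx V)) ≤ 1 ∧ r (z t / ϖ (Mx V)) =
      if (Mx V = 1 ∨ Sum.elim (fun m => m ∈ V.filter (fun m => v (x m) = Mx V))
        (fun j => ¬ Disjoint (W j) (V.filter (fun m => v (x m) = Mx V))) t) then z' t else 0 := by
    rintro V (m | j) hAl
    · have hm : m ∈ V := hAl
      obtain ⟨h1, h2⟩ := F2 V m hm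
      refine ⟨h1, ?_⟩
      show r (x m / ϖ (Mx V)) = _
      rw [h2]
      simp only [Sum.elim_inl, Finset.mem_filter, hm, true_and, hz']
    · have hj : W j ⊆ V := hAl
      obtain ⟨h1, h2⟩ := F3 V j hj
      refine ⟨h1, ?_⟩
      show r (s j / ϖ (Mx V)) = _
      rw [h2]
      simp only [Sum.elim_inr, hz']
      by_cases h3 : Mx V = 1
      · rw [if_pos (Or.inl h3), if_pos (Or.inl h3)]
      · simp only [h3, false_or]
        by_cases h4 : Mx (W j) = Mx V
        · rw [if_pos h4, if_pos ((F4 V j hj h3).mp h4)]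
        · rw [if_neg h4, if_neg (fun h5 => h4 ((F4 V j hj h3).mpr h5))]
  -- polynomials in the coordinates `x m`, `m ∈ V`
  have F6 : ∀ V (q : MvPolynomial (Fin d) Ω) (e : ℕ), q.vars ⊆ V → q.totalDegree ≤ e →
      (∀ t, v (q.coeff t) ≤ 1) → v ((ϖ (Mx V) ^ e)⁻¹ * eval x q) ≤ 1 ∧
      r ((ϖ (Mx V) ^ e)⁻¹ * eval x q) = eval x' (match T V with
        | none => rdP r q
        | some Y => mask Y (rdT r e q)) := by
    intro V q e hV hdeg hco
    have hxV : eval x q = eval (fun m => if m ∈ V then x m else 0) q :=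
      eval_congr' q _ _ (fun m hm => by rw [if_pos (hV hm)])
    by_cases h1 : Mx V = 1
    · rw [hTnone V h1, h1, hϖ1, one_pow, inv_one, one_mul, hxV]
      have hle : ∀ m, v (if m ∈ V then x m else 0) ≤ 1 := by
        intro m
        split_ifs with hm
        · rw [← h1]
          exact hMle V m hm
        · rw [v.map_zero]
          exact zero_le_one
      obtain ⟨h2, h3⟩ := rdP_eval hr q hco (fun m => if m ∈ V then x m else 0) hle
      refine ⟨h2, ?_⟩
      rw [h3]
      refine eval_congr' _ _ _ (fun m hm => ?_)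
      have hmV : m ∈ V := hV (vars_rdP hr q hm)
      have h4 := (F2 V m hmV).2
      rw [if_pos (Or.inl h1), h1, hϖ1, div_one] at h4
      simp only [if_pos hmV]
      exact h4
    · rw [hTsome V h1, hxV]
      have hlt : 1 < v (ϖ (Mx V)) := by
        rw [hϖM]
        exact lt_of_le_of_ne (hM1 V) (Ne.symm h1)
      have hle : ∀ m, v ((if m ∈ V then x m else 0) / ϖ (Mx V)) ≤ 1 := by
        intro m
        split_ifs with hm
        · exact (F2 V m hm).1
        · rw [zero_div, v.map_zero]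
          exact zero_le_one
      obtain ⟨h2, h3⟩ := rdT_eval hr q hco e hdeg (ϖ (Mx V)) hlt
        (fun m => (if m ∈ V then x m else 0) / ϖ (Mx V)) hle
      have he : (fun m => ϖ (Mx V) * ((if m ∈ V then x m else 0) / ϖ (Mx V))) =
          fun m => if m ∈ V then x m else 0 := by
        funext m
        rw [mul_div_cancel₀ _ (hϖ0 V)]
      rw [he] at h2 h3
      refine ⟨h2, ?_⟩
      rw [h3]
      symm
      apply eval_mask
      · intro m hm
        have hm' := Finset.mem_filter.mp hm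
        simp only [if_pos hm'.1]
        rw [(F2 V m hm'.1).2, if_pos (Or.inr hm'.2)]
      · intro m hm
        by_cases hmV : m ∈ V
        · simp only [if_pos hmV]
          rw [(F2 V m hmV).2, if_neg]
          rintro (h4 | h4)
          · exact h1 h4
          · exact hm (Finset.mem_filter.mpr ⟨hmV, h4⟩)
        · simp only [if_neg hmV]
          rw [zero_div, hr.zero]
  refine ⟨T, x', s', ?_, ?_, ?_, ?_⟩
  · intro V Y hY
    by_cases h1 : Mx V = 1
    · rw [hTnone V h1] at hY
      exact absurd hY (by simp)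
    · rw [hTsome V h1] at hY
      have hY' : V.filter (fun m => v (x m) = Mx V) = Y := Option.some.inj hY
      rw [← hY']
      refine ⟨?_, Finset.filter_subset _ _⟩
      rcases (hMx V).2.2 with h | ⟨m, hm, h⟩
      · exact absurd h h1
      · exact ⟨m, Finset.mem_filter.mpr ⟨hm, h⟩⟩
  · intro j
    have h1 := hbase j
    set P : Ω := ϖ (Mx (W j)) with hP
    have hP0 : P ≠ 0 := hϖ0 (W j)
    have hcoef : ∀ l, l < ρ j → v ((P ^ (ρ j - l))⁻¹ * eval x (b j l)) ≤ 1 ∧
        r ((P ^ (ρ j - l))⁻¹ * eval x (b j l)) = eval x' (bt r ρ b W T j l) := by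
      intro l hl
      obtain ⟨h2, h3, h4⟩ := hb j l hl
      have := F6 (W j) (b j l) (ρ j - l) h3 h2 h4
      unfold bt
      exact this
    have hs1 : v (s j / P) ≤ 1 := (F3 (W j) j (Finset.Subset.refl _)).1
    have h2 : (s j / P) ^ ρ j + ∑ l ∈ Finset.range (ρ j),
        ((P ^ (ρ j - l))⁻¹ * eval x (b j l)) * (s j / P) ^ l = 0 := by
      have h3 : P ^ ρ j * ((s j / P) ^ ρ j + ∑ l ∈ Finset.range (ρ j),
          ((P ^ (ρ j - l))⁻¹ * eval x (b j l)) * (s j / P) ^ l) = 0 := by
        rw [← h1, mul_add, Finset.mul_sum, div_pow, mul_div_cancel₀ _ (pow_ne_zero _ hP0)]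
        congr 1
        refine Finset.sum_congr rfl fun l hl => ?_
        rw [Finset.mem_range] at hl
        have h4 : P ^ ρ j = P ^ (ρ j - l) * P ^ l := by
          rw [← pow_add, Nat.sub_add_cancel hl.le]
        rw [h4, div_pow]
        field_simp
      exact (mul_eq_zero.1 h3).resolve_left (pow_ne_zero _ hP0)
    have h5 : ∀ l ∈ Finset.range (ρ j),
        v (((P ^ (ρ j - l))⁻¹ * eval x (b j l)) * (s j / P) ^ l) ≤ 1 := by
      intro l hl
      rw [v.map_mul, v.map_pow]
      exact mul_le_one₀ (hcoef l (Finset.mem_range.1 hl)).1 (by positivity)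
        (pow_le_one₀ (v.nonneg _) hs1)
    have h6 := congrArg r h2
    rw [hr.zero, hr.add _ _ (by rw [v.map_pow]; exact pow_le_one₀ (v.nonneg _) hs1)
      (na_sum hr.na _ _ _ zero_le_one h5), hr.pow hs1, hr.sum _ _ h5] at h6
    rw [← h6]
    congr 1
    refine Finset.sum_congr rfl fun l hl => ?_
    have hl' := Finset.mem_range.1 hl
    rw [hr.mul _ _ (hcoef l hl').1 (by rw [v.map_pow]; exact pow_le_one₀ (v.nonneg _) hs1),
      (hcoef l hl').2, hr.pow hs1]
  · intro V Y m hY hm
    by_cases h1 : Mx V = 1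
    · rw [hTnone V h1] at hY
      exact absurd hY (by simp)
    · rw [hTsome V h1] at hY
      have hY' : V.filter (fun m => v (x m) = Mx V) = Y := Option.some.inj hY
      rw [← hY'] at hm
      have hm' := Finset.mem_filter.mp hm
      have h2 := F2 V m hm'.1
      rw [if_pos (Or.inr hm'.2)] at h2
      rw [← h2.2]
      intro h0
      have h3 := (hr.ker _ h2.1).1 h0
      rw [map_div₀, hϖM, hm'.2, div_self (hMpos V).ne'] at h3
      exact lt_irrefl _ h3
  · intro V M hM D c hc hAl
    have hMe : M = Mx V := sz_unique hM (hMx V)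
    rw [hMe]
    set P : Ω := ϖ (Mx V) with hP
    have hP0 : P ≠ 0 := hϖ0 V
    have hvP : v P = Mx V := hϖM V
    have hP1 : 1 ≤ v P := by rw [hvP]; exact hM1 V
    have hinv : ∀ e : ℕ, v ((P ^ e)⁻¹) ≤ 1 := by
      intro e
      rw [map_inv₀, v.map_pow]
      exact inv_le_one_of_one_le₀ (one_le_pow₀ hP1)
    have key : ∀ α : MonS d n D, v ((c α * ∏ j, z j ^ (α.1 j : ℕ)) / P ^ D) ≤ 1 ∧
        r ((c α * ∏ j, z j ^ (α.1 j : ℕ)) / P ^ D) = r (c α) * eval z' (ut k W T V α) := by
      intro α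
      by_cases hcα : c α = 0
      · rw [hcα]
        simp only [zero_mul, zero_div, v.map_zero, hr.zero]
        exact ⟨zero_le_one, trivial⟩
      have hAlα : ∀ t, (α.1 t : ℕ) ≠ 0 → Al W V t := fun t ht => hAl α t hcα ht
      have hpow : ∀ t, v ((z t / P) ^ (α.1 t : ℕ)) ≤ 1 := by
        intro t
        by_cases ht : (α.1 t : ℕ) = 0
        · rw [ht, pow_zero, v.map_one]
        · rw [v.map_pow]
          exact pow_le_one₀ (v.nonneg _) (F5 V t (hAlα t ht)).1
      have hprod : v (∏ t, (z t / P) ^ (α.1 t : ℕ)) ≤ 1 := na_prod_le _ _ fun t _ => hpow t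
      have he : (c α * ∏ j, z j ^ (α.1 j : ℕ)) / P ^ D =
          c α * ((P ^ (D - ∑ j, (α.1 j : ℕ)))⁻¹ * ∏ t, (z t / P) ^ (α.1 t : ℕ)) := by
        have h1 : ∏ t, (z t / P) ^ (α.1 t : ℕ) =
            (∏ j, z j ^ (α.1 j : ℕ)) / P ^ (∑ j, (α.1 j : ℕ)) := by
          simp only [div_pow, Finset.prod_div_distrib, Finset.prod_pow_eq_pow_sum]
        have h2 : P ^ D = P ^ (D - ∑ j, (α.1 j : ℕ)) * P ^ (∑ j, (α.1 j : ℕ)) := by
          rw [← pow_add, Nat.sub_add_cancel α.2]
        rw [h1, h2]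
        field_simp
      have hin : v ((P ^ (D - ∑ j, (α.1 j : ℕ)))⁻¹ * ∏ t, (z t / P) ^ (α.1 t : ℕ)) ≤ 1 := by
        rw [v.map_mul]
        exact mul_le_one₀ (hinv _) (v.nonneg _) hprod
      rw [he]
      refine ⟨by rw [v.map_mul]; exact mul_le_one₀ (hc α) (v.nonneg _) hin, ?_⟩
      rw [hr.mul _ _ (hc α) hin]
      congr 1
      rw [hr.mul _ _ (hinv _) hprod, hr.prod _ _ fun t _ => hpow t]
      have hum : eval z' (um k α) = ∏ t, z' t ^ (α.1 t : ℕ) := by
        rw [um, map_prod]
        exact Finset.prod_congr rfl fun t _ => by rw [map_pow, eval_X]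
      by_cases h1 : Mx V = 1
      · have hut : ut k W T V α = um k α := by
          unfold ut
          rw [hTnone V h1]
        rw [hut, hum]
        have hPone : P = 1 := by rw [hP, h1, hϖ1]
        rw [hPone, one_pow, inv_one, hr.one, one_mul]
        refine Finset.prod_congr rfl fun t _ => ?_
        by_cases ht : (α.1 t : ℕ) = 0
        · rw [ht, pow_zero, pow_zero, hr.one]
        · have h2 := F5 V t (hAlα t ht)
          rw [← hP, hPone, if_pos (Or.inl h1)] at h2
          rw [hr.pow h2.1, h2.2]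
      · have hut : ut k W T V α = if ∑ j, (α.1 j : ℕ) = D ∧
            ∀ t, (α.1 t : ℕ) ≠ 0 → Sum.elim (fun m => m ∈ V.filter (fun m => v (x m) = Mx V))
              (fun j => ¬ Disjoint (W j) (V.filter (fun m => v (x m) = Mx V))) t
            then um k α else 0 := by
          unfold ut
          rw [hTsome V h1]
        rw [hut]
        have hPlt : 1 < v P := by
          rw [hvP]
          exact lt_of_le_of_ne (hM1 V) (Ne.symm h1)
        by_cases hD : ∑ j, (α.1 j : ℕ) = D
        · by_cases htop : ∀ t, (α.1 t : ℕ) ≠ 0 →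
              Sum.elim (fun m => m ∈ V.filter (fun m => v (x m) = Mx V))
              (fun j => ¬ Disjoint (W j) (V.filter (fun m => v (x m) = Mx V))) t
          · rw [if_pos ⟨hD, htop⟩, hum, hD, Nat.sub_self, pow_zero, inv_one, hr.one, one_mul]
            refine Finset.prod_congr rfl fun t _ => ?_
            by_cases ht : (α.1 t : ℕ) = 0
            · rw [ht, pow_zero, pow_zero, hr.one]
            · have h2 := F5 V t (hAlα t ht)
              rw [if_pos (Or.inr (htop t ht))] at h2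
              rw [hr.pow h2.1, h2.2]
          · rw [if_neg (fun h => htop h.2), map_zero]
            push Not at htop
            obtain ⟨t, ht, htt⟩ := htop
            have h2 := F5 V t (hAlα t ht)
            have h3 : ¬ (Mx V = 1 ∨ Sum.elim (fun m => m ∈ V.filter (fun m => v (x m) = Mx V))
                (fun j => ¬ Disjoint (W j) (V.filter (fun m => v (x m) = Mx V))) t) := by
              rintro (h | h)
              · exact h1 h
              · exact htt h
            rw [if_neg h3] at h2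
            have h4 : ∏ t, r ((z t / P) ^ (α.1 t : ℕ)) = 0 := by
              apply Finset.prod_eq_zero (Finset.mem_univ t)
              rw [hr.pow h2.1, h2.2, zero_pow ht]
            rw [h4, mul_zero]
        · rw [if_neg (fun h => hD h.1), map_zero]
          have h3 : r ((P ^ (D - ∑ j, (α.1 j : ℕ)))⁻¹) = 0 := by
            rw [hr.ker _ (hinv _), map_inv₀, v.map_pow]
            have h4 : ∑ j, (α.1 j : ℕ) ≤ D := α.2
            exact inv_lt_one_of_one_lt₀ (one_lt_pow₀ hPlt (by omega))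
          rw [h3, zero_mul]
    have hsum : (∑ α, c α * ∏ j, z j ^ (α.1 j : ℕ)) / P ^ D =
        ∑ α, (c α * ∏ j, z j ^ (α.1 j : ℕ)) / P ^ D := by
      rw [Finset.sum_div]
    rw [hsum]
    refine ⟨na_sum hr.na _ _ _ zero_le_one fun α _ => (key α).1, ?_⟩
    rw [hr.sum _ _ fun α _ => (key α).1]
    exact Finset.sum_congr rfl fun α _ => (key α).2

end PKS
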