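import Pool.Agent.PKS.Targets
import Pool.Agent.PKD.RedLem

/-! Everything at one place: from a point of the base over `Ω` to the residue field. -/

set_option autoImplicit false
set_option maxHeartbeats 4000000

namespace PKS

open MvPolynomial RD PKD

namespace PLS_

theorem exists_sz {Ω : Type} [Field Ω] (v : AbsoluteValue Ω ℝ) {d : ℕ} (x : Fin d → Ω)
    (V : Finset (Fin d)) : ∃ M, IsSz v x V M := by
  by_cases h : ∃ m ∈ V, 1 < v (x m)
  · obtain ⟨m, hm, hm1⟩ := h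
    obtain ⟨m0, hm0, hmax⟩ := Finset.exists_max_image V (fun m => v (x m)) ⟨m, hm⟩
    exact ⟨v (x m0), le_trans hm1.le (hmax m hm), hmax, Or.inr ⟨m0, hm0, rfl⟩⟩
  · push Not at h
    exact ⟨1, le_rfl, h, Or.inl rfl⟩

end PLS_

open PLS_

theorem place (hBSE : T_BSE) (hPLT : T_PLT) (hSCL : T_SCL) (hSIZ : T_SIZ) {Ω k : Type} [Field Ω]
    [CharZero Ω] [IsAlgClosed Ω] [DecidableEq Ω] [Field k] {p : ℕ} {v : AbsoluteValue Ω ℝ}
    {r : Ω → k} (hr : Red v r) (hp : p.Prime) (hp5 : 5 ≤ p) (hvp : v (p : Ω) < 1) {sp : Ω}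
    (hsp : sp ^ 2 = (p : Ω)) {d n w D g : ℕ} (hwD : w ≤ D) (hD : 1 ≤ D)
    (V : Fin g → Finset (Fin d)) (W : Fin n → Finset (Fin d)) (ρ : Fin n → ℕ)
    (b : Fin n → ℕ → MvPolynomial (Fin d) Ω) (A B : MvPolynomial (Fin d ⊕ Fin n) Ω)
    (hb : ∀ j l, l < ρ j → (b j l).totalDegree ≤ ρ j - l ∧ (b j l).vars ⊆ W j ∧
      ∀ t, v ((b j l).coeff t) ≤ 1)
    (hA : A.totalDegree ≤ 2 * w ∧ (∀ i, ∀ t ∈ A.vars, Al W (V i) t) ∧ ∀ t, v (A.coeff t) ≤ 1)
    (hB : B.totalDegree ≤ 3 * w ∧ (∀ i, ∀ t ∈ B.vars, Al W (V i) t) ∧ ∀ t, v (B.coeff t) ≤ 1)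
    (β : Ω) (c : Fin g × MonS d n D → Ω) (hβ0 : β ≠ 0) (hβ : v β ≤ v (p : Ω))
    (hc : ∀ u, v (β * c u) ≤ 1)
    (hcs : ∀ i α t, c (i, α) ≠ 0 → (α.1 t : ℕ) ≠ 0 → Al W (V i) t)
    (x : Fin d → Ω) (s : Fin n → Ω) (hon : OnBase ρ b x s)
    (P : Fin g → (curve 0 (eval (Sum.elim x s) A) (eval (Sum.elim x s) B)).Point)
    (hP : ∀ i, ∃ y h, P i = WeierstrassCurve.Affine.Point.some (fval D c x s i) y h) :
    ∃ (R : ℝ) (S : Finset (Fin g)) (π : Fin g → Ω) (T : Typ d) (x' : Fin d → k) (s' : Fin n → k)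
      (h : Fin g → k),
      Cx p v R (eval (Sum.elim x s) A) (eval (Sum.elim x s) B) ∧ (∀ i, π i ≠ 0) ∧
      (∀ i j (e : ℤ), v (π i) = v (π j) * v sp ^ e → π i = π j * sp ^ e) ∧
      (∀ i, i ∉ S → InE v R (P i) ∧ R ^ 2 * v (zz (P i)) ^ 4 < v (p : Ω) ∧
        v (zz (P i)) = v (π i) ∧ h i = r (zz (P i) / π i)) ∧
      Tok T ∧ OnBase ρ (bt r ρ b W T) x' s' ∧ (∀ V Y m, T V = some Y → m ∈ Y → x' m ≠ 0) ∧
      (∀ i ∈ S, ∑ α : MonS d n D, r (β * c (i, α)) *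
        eval (Sum.elim x' s') (ut k W T (V i) α) = 0) ∧
      (∀ i, i ∉ S → h i ^ 2 * ∑ α : MonS d n D, r (β * c (i, α)) *
        eval (Sum.elim x' s') (ut k W T (V i) α) = 1) := by
  classical
  have hvp0 : 0 < v (p : Ω) := v.pos (Nat.cast_ne_zero.2 hp.ne_zero)
  have hsp0 : sp ≠ 0 := by
    rintro rfl
    rw [zero_pow two_ne_zero] at hsp
    exact (Nat.cast_ne_zero.2 hp.ne_zero) hsp.symm
  have hvsp0 : 0 < v sp := v.pos hsp0
  have hvsp2 : v sp ^ 2 = v (p : Ω) := by rw [← v.map_pow, hsp]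
  have hvsp1 : v sp < 1 := by
    by_contra hcon
    push Not at hcon
    have : 1 ≤ v sp ^ 2 := one_le_pow₀ hcon
    rw [hvsp2] at this
    linarith
  have hvβ : 0 < v β := v.pos hβ0
  -- the square root of β
  obtain ⟨ρ0, hρ0⟩ := IsAlgClosed.exists_pow_nat_eq β (n := 2) (by norm_num)
  have hρ00 : ρ0 ≠ 0 := by
    rintro rfl
    rw [zero_pow two_ne_zero] at hρ0
    exact hβ0 hρ0.symm
  have hvρ0 : 0 < v ρ0 := v.pos hρ00
  have hvρ2 : v ρ0 ^ 2 = v β := by rw [← v.map_pow, hρ0]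
  obtain ⟨sc, hsc0, hsc1, hsc2⟩ := hSCL Ω v sp ρ0 hsp0 hvsp1 hρ00
  -- the scales
  set pi : ℝ → Ω := fun M => sc (v ρ0 / Real.sqrt (M ^ D)) with hpi
  -- for a size M of an element
  have hval : ∀ M : ℝ, 1 ≤ M → (M = 1 ∨ ∃ m, v (x m) = M) → ∃ y : Ω, y ≠ 0 ∧
      v y = v ρ0 / Real.sqrt (M ^ D) := by
    rintro M hM (h1 | ⟨m, hm⟩)
    · refine ⟨ρ0, hρ00, ?_⟩
      rw [h1, one_pow, Real.sqrt_one, div_one]
    · obtain ⟨η, hη⟩ := IsAlgClosed.exists_pow_nat_eq (x m ^ D) (n := 2) (by norm_num)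
      have hxm : 0 < v (x m) := by rw [hm]; linarith
      have hη2 : v η ^ 2 = M ^ D := by rw [← v.map_pow, hη, v.map_pow, hm]
      have hη0 : η ≠ 0 := by
        rintro rfl
        rw [v.map_zero, zero_pow two_ne_zero] at hη2
        have : 0 < M ^ D := by positivity
        linarith
      refine ⟨ρ0 / η, div_ne_zero hρ00 hη0, ?_⟩
      rw [map_div₀]
      congr 1
      rw [← hη2, Real.sqrt_sq (v.nonneg _)]
  have hpiv : ∀ M : ℝ, 1 ≤ M → (M = 1 ∨ ∃ m, v (x m) = M) →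
      v (pi M) = v ρ0 / Real.sqrt (M ^ D) := by
    intro M hM h1
    obtain ⟨y, hy0, hy⟩ := hval M hM h1
    show v (sc (v ρ0 / Real.sqrt (M ^ D))) = _
    rw [← hy]
    exact hsc1 y hy0
  have hpi0 : ∀ M : ℝ, 1 ≤ M → (M = 1 ∨ ∃ m, v (x m) = M) → pi M ≠ 0 := by
    intro M hM h1 h0
    have h2 := hpiv M hM h1
    rw [h0, v.map_zero] at h2
    have : 0 < v ρ0 / Real.sqrt (M ^ D) := div_pos hvρ0 (Real.sqrt_pos.2 (by positivity))
    linarith
  have hpi1 : pi 1 = ρ0 := by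
    show sc (v ρ0 / Real.sqrt (1 ^ D)) = ρ0
    rw [one_pow, Real.sqrt_one, div_one, hsc0]
  -- the elements of size M
  have hex : ∀ M : ℝ, ∃ y : Ω, y ^ D = β / pi M ^ 2 := fun M =>
    IsAlgClosed.exists_pow_nat_eq _ (by omega)
  choose ϖ0 hϖ0 using hex
  set ϖ : ℝ → Ω := fun M => if M = 1 then 1 else ϖ0 M with hϖ
  have hϖ1 : ϖ 1 = 1 := by simp [hϖ]
  have hϖD : ∀ M : ℝ, 1 ≤ M → (M = 1 ∨ ∃ m, v (x m) = M) → pi M ^ 2 * ϖ M ^ D = β := by
    intro M hM h1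
    by_cases hM1 : M = 1
    · rw [hM1, hϖ1, one_pow, mul_one, hpi1, hρ0]
    · have h2 := hpi0 M hM h1
      show pi M ^ 2 * (if M = 1 then 1 else ϖ0 M) ^ D = β
      rw [if_neg hM1, hϖ0, mul_div_cancel₀]
      exact pow_ne_zero _ h2
  have hϖv : ∀ M : ℝ, 1 ≤ M → (M = 1 ∨ ∃ m, v (x m) = M) → v (ϖ M) = M := by
    intro M hM h1
    have h2 := congrArg v (hϖD M hM h1)
    rw [v.map_mul, v.map_pow, v.map_pow, hpiv M hM h1, div_pow, hvρ2,
      Real.sq_sqrt (by positivity)] at h2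
    have h3 : v (ϖ M) ^ D = M ^ D := by
      have h4 : (M : ℝ) ^ D ≠ 0 := by positivity
      field_simp at h2
      have := hvβ.ne'
      nlinarith [h2]
    exact (pow_left_inj₀ (v.nonneg _) (by linarith) (by omega)).1 h3
  -- sizes
  choose M hM using fun i => exists_sz v x (V i)
  have hMm : ∀ i, M i = 1 ∨ ∃ m, v (x m) = M i := by
    intro i
    rcases (hM i).2.2 with h | ⟨m, -, h⟩
    · exact Or.inl h
    · exact Or.inr ⟨m, h⟩
  obtain ⟨T, x', s', hTok, hon', hx', hfun⟩ := hBSE Ω k v r hr ϖ hϖ1 d n W ρ b hb x s hon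
    (fun m hm => hϖv _ hm.le (Or.inr ⟨m, rfl⟩))
  have hG := fun i => hfun (V i) (M i) (hM i) D (fun α => β * c (i, α)) (fun α => hc _)
    (fun α t h1 h2 => hcs i α t (fun h => h1 (by rw [h, mul_zero])) h2)
  have hGe : ∀ i, (∑ α : MonS d n D, β * c (i, α) * ∏ j, Sum.elim x s j ^ (α.1 j : ℕ)) =
      β * fval D c x s i := by
    intro i
    unfold fval
    rw [Finset.mul_sum]
    exact Finset.sum_congr rfl fun α _ => by ring
  -- the curve
  set V0 : Finset (Fin d) := Finset.univ.filter fun m => ∀ i, m ∈ V i with hV0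
  obtain ⟨M0, hM0⟩ := exists_sz v x V0
  have hV0V : ∀ i, V0 ⊆ V i := by
    intro i m hm
    rw [hV0, Finset.mem_filter] at hm
    exact hm.2 i
  have hM0M : ∀ i, M0 ≤ M i := by
    intro i
    rcases hM0.2.2 with h | ⟨m, hm, h⟩
    · rw [h]; exact (hM i).1
    · rw [← h]; exact (hM i).2.1 m (hV0V i hm)
  have hAl : ∀ t, (∀ i, Al W (V i) t) → Al W V0 t := by
    rintro (m | j) ht
    · show m ∈ V0
      rw [hV0, Finset.mem_filter]
      exact ⟨Finset.mem_univ _, fun i => ht i⟩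
    · intro m hm
      rw [hV0, Finset.mem_filter]
      exact ⟨Finset.mem_univ _, fun i => (ht i) hm⟩
  obtain ⟨-, hsz⟩ := hSIZ Ω v hr.na d n W ρ b hb x s hon V0 M0 hM0
  have hA4 : v (eval (Sum.elim x s) A) ≤ M0 ^ (2 * w) :=
    hsz A (2 * w) hA.1 (fun t ht => hAl t fun i => hA.2.1 i t ht) hA.2.2
  have hB6 : v (eval (Sum.elim x s) B) ≤ M0 ^ (3 * w) :=
    hsz B (3 * w) hB.1 (fun t ht => hAl t fun i => hB.2.1 i t ht) hB.2.2
  have hcx : Cx p v (M0 ^ w) (eval (Sum.elim x s) A) (eval (Sum.elim x s) B) := by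
    refine ⟨hr.na, hp, hp5, hvp, one_le_pow₀ hM0.1, ?_, ?_⟩
    · rw [← pow_mul, mul_comm w 2]; exact hA4
    · rw [← pow_mul, mul_comm w 3]; exact hB6
  set S : Finset (Fin g) := Finset.univ.filter fun i =>
    v (β * fval D c x s i / ϖ (M i) ^ D) < 1 with hS
  have hG1 : ∀ i, v (β * fval D c x s i / ϖ (M i) ^ D) ≤ 1 := by
    intro i
    have := (hG i).1
    rwa [hGe] at this
  have hG2 : ∀ i, r (β * fval D c x s i / ϖ (M i) ^ D) =
      ∑ α : MonS d n D, r (β * c (i, α)) * eval (Sum.elim x' s') (ut k W T (V i) α) := by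
    intro i
    have := (hG i).2
    rwa [hGe] at this
  have key : ∀ i, i ∉ S → InE v (M0 ^ w) (P i) ∧ (M0 ^ w) ^ 2 * v (zz (P i)) ^ 4 < v (p : Ω) ∧
      v (zz (P i)) = v (pi (M i)) ∧
      r (zz (P i) / pi (M i)) ^ 2 * r (β * fval D c x s i / ϖ (M i) ^ D) = 1 := by
    intro i hi
    have hi1 : v (β * fval D c x s i / ϖ (M i) ^ D) = 1 := by
      rw [hS, Finset.mem_filter] at hi
      push Not at hi
      exact le_antisymm (hG1 i) (hi (Finset.mem_univ i))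
    have hϖi := hϖv (M i) (hM i).1 (hMm i)
    refine hPLT Ω k p v r hr hp hp5 hvp w D hwD β (ϖ (M i)) (pi (M i)) (fval D c x s i) _ _
      (M0 ^ w) hβ0 hβ ?_ ?_ (hϖD (M i) (hM i).1 (hMm i)) hcx ?_ hi1 (P i) (hP i)
    · intro h0
      rw [h0, v.map_zero] at hϖi
      have := (hM i).1
      linarith
    · rw [hϖi]; exact (hM i).1
    · rw [hϖi]; exact pow_le_pow_left₀ (by linarith [hM0.1]) (hM0M i) w
  refine ⟨M0 ^ w, S, fun i => pi (M i), T, x', s', fun i => r (zz (P i) / pi (M i)), hcx,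
    fun i => hpi0 (M i) (hM i).1 (hMm i), ?_, ?_, hTok, hon', hx', ?_, ?_⟩
  · intro i j e he
    obtain ⟨y, hy0, hy⟩ := hval (M j) (hM j).1 (hMm j)
    have h1 := hsc2 y hy0 e
    show sc (v ρ0 / Real.sqrt (M i ^ D)) = sc (v ρ0 / Real.sqrt (M j ^ D)) * sp ^ e
    rw [← hy, ← h1]
    congr 1
    have h2 := hpiv (M i) (hM i).1 (hMm i)
    have h3 := hpiv (M j) (hM j).1 (hMm j)
    rw [← h2, hy, ← h3]
    exact he
  · intro i hi
    obtain ⟨h1, h2, h3, -⟩ := key i hi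
    exact ⟨h1, h2, h3, rfl⟩
  · intro i hi
    rw [← hG2 i]
    rw [hS, Finset.mem_filter] at hi
    exact (hr.ker _ (hG1 i)).2 hi.2
  · intro i hi
    rw [← hG2 i]
    exact (key i hi).2.2.2

end PKS
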