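import Pool.Agent.PKS.STP
import Pool.Agent.PKD.CORA
import Pool.Agent.PKD.COR2
import Pool.Agent.PKE.CR2

/-! The arithmetic core. -/

set_option autoImplicit false
set_option maxHeartbeats 4000000

namespace PKS

open MvPolynomial RD PKD

/-- the coefficients: `F0` plus the coefficients `c` on the set `I` -/
noncomputable def cfS {Ω : Type} [Field Ω] {d n g D : ℕ} (I : Finset (Fin g × MonS d n D))
    (F0 : Fin g × MonS d n D → Ω) (c : {u // u ∈ I} → Ω) : Fin g × MonS d n D → Ω :=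
  fun u => F0 u + if h : u ∈ I then c ⟨u, h⟩ else 0

/-- the curve and the fixed parts of the abscissas are allowed: degrees, supports, and
coefficients integral over `ℤ[1/Δ]` -/
def Adm {Ω : Type} [Field Ω] {d n g D : ℕ} (Δ : ℕ) (V : Fin g → Finset (Fin d))
    (W : Fin n → Finset (Fin d)) (A B : MvPolynomial (Fin d ⊕ Fin n) Ω)
    (F0 : Fin g × MonS d n D → Ω) : Prop :=
  (∀ u, F0 u ≠ 0 → ∀ t, (u.2.1 t : ℕ) ≠ 0 → Al W (V u.1) t) ∧
  (A.totalDegree ≤ 2 * D ∧ ∀ i, ∀ t ∈ A.vars, Al W (V i) t) ∧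
  (B.totalDegree ≤ 3 * D ∧ ∀ i, ∀ t ∈ B.vars, Al W (V i) t) ∧
  (∀ t, PKE.SI Δ (A.coeff t) ∧ PKE.SI Δ (B.coeff t)) ∧ ∀ u, PKE.SI Δ (F0 u)

/-- the arithmetic core, uniformly in the curve and the fixed parts of the abscissas -/
def T_CRS : Prop := ∀ (K Ω : Type) [Field K] [NumberField K] [Field Ω] [CharZero Ω]
  [IsAlgClosed Ω] [DecidableEq Ω] [Algebra K Ω] [Algebra.IsAlgebraic K Ω]
  (g d n D : ℕ), 1 ≤ D → 2 ^ (g + 2) ^ 2 < Module.finrank ℚ K →
  ∀ (om : Module.Basis (Fin (Module.finrank ℚ K)) ℚ K)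
    (V : Fin g → Finset (Fin d)) (W : Fin n → Finset (Fin d)) (ρ : Fin n → ℕ)
    (b : Fin n → ℕ → MvPolynomial (Fin d) Ω)
    (I : Finset (Fin g × MonS d n D)),
    (∀ i, (i, al0 D none) ∈ I ∧ ∀ m ∈ V i, (i, al0 D (some m)) ∈ I) →
    (∀ u ∈ I, ∀ t, (u.2.1 t : ℕ) ≠ 0 → Al W (V u.1) t) →
    (∀ j l, l < ρ j → (b j l).totalDegree ≤ ρ j - l ∧ (b j l).vars ⊆ W j) →
    ∀ Δ : ℕ, 0 < Δ →
  ∃ C p0 : ℕ, ∀ p : ℕ, p0 ≤ p → p.Prime →
    ∃ Bp : Finset ({u // u ∈ I} → Fin (Module.finrank ℚ K) → ZMod p),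
      Bp.card * p ≤ C * p ^ (Module.finrank ℚ K * Fintype.card {u // u ∈ I}) ∧
      ∀ (β : ℕ) (a : {u // u ∈ I} → Fin (Module.finrank ℚ K) → ℤ), 0 < β → p ∣ β →
        ∀ (A B : MvPolynomial (Fin d ⊕ Fin n) Ω) (F0 : Fin g × MonS d n D → Ω),
        Adm Δ V W A B F0 →
        Bad D ρ b A B (cfS I F0 fun u => algebraMap K Ω (∑ l, (a u l : ℚ) • om l) / (β : Ω)) →
        (fun u l => (a u l : ZMod p)) ∈ Bp

namespace CRS_

/-- the pivot monomial is in `I` -/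
theorem pv_mem {d n g D : ℕ} (V : Fin g → Finset (Fin d)) (I : Finset (Fin g × MonS d n D))
    (hI : ∀ i, (i, al0 D none) ∈ I ∧ ∀ m ∈ V i, (i, al0 D (some m)) ∈ I) (T : Typ d) (hT : Tok T)
    (i : Fin g) : (i, pv D T (V i)) ∈ I := by
  unfold pv
  cases hTV : T (V i) with
  | none => exact (hI i).1
  | some Y =>
    have h1 := hT (V i) Y hTV
    simp only
    split_ifs with h2
    · exact (hI i).2 _ (h1.2 h2.choose_spec)
    · exact (hI i).1

/-- the pivot monomial does not vanish -/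
theorem pv_ne {k : Type} [Field k] {d n D : ℕ} (hD : 1 ≤ D) (W : Fin n → Finset (Fin d))
    (T : Typ d) (hT : Tok T) (V : Finset (Fin d)) (x : Fin d → k) (s : Fin n → k)
    (hx : ∀ V Y m, T V = some Y → m ∈ Y → x m ≠ 0) :
    eval (Sum.elim x s) (ut k W T V (pv D T V)) ≠ 0 := by
  classical
  unfold ut pv
  cases hTV : T V with
  | none =>
    simp only
    unfold um al0
    simp
  | some Y =>
    have h1 := hT V Y hTV
    simp only
    rw [dif_pos h1.1]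
    have hm := h1.1.choose_spec
    set m := h1.1.choose with hmdef
    have hx0 := hx V Y m hTV hm
    rw [if_pos]
    · unfold um
      rw [map_prod, Finset.prod_eq_single (Sum.inl m)]
      · rw [map_pow, eval_X]
        exact pow_ne_zero _ hx0
      · intro t _ ht
        simp only [al0, if_neg ht]
        simp
      · intro h'
        exact absurd (Finset.mem_univ _) h'
    · constructor
      · rw [Finset.sum_eq_single (Sum.inl m)]
        · simp [al0]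
        · intro t _ ht
          simp [al0, ht]
        · intro h'
          exact absurd (Finset.mem_univ _) h'
      · intro t ht
        by_cases ht' : t = Sum.inl m
        · rw [ht']
          exact hm
        · exfalso
          apply ht
          simp [al0, ht']

/-- the eliminants -/
theorem elimS (hELI : T_ELI2) (hDEG : T_DEG) (d n D g : ℕ) (hD : 1 ≤ D) (ρ : Fin n → ℕ)
    (W : Fin n → Finset (Fin d)) (V : Fin g → Finset (Fin d)) (I : Finset (Fin g × MonS d n D))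
    (hI : ∀ i, (i, al0 D none) ∈ I ∧ ∀ m ∈ V i, (i, al0 D (some m)) ∈ I) :
    ∃ M : ℕ, ∀ (Ω k : Type) [Field Ω] [Field k] (r : Ω → k)
    (b : Fin n → ℕ → MvPolynomial (Fin d) Ω),
    (∀ j l, l < ρ j → (b j l).totalDegree ≤ ρ j - l) →
    ∀ (S J : Finset (Fin g)) (τ : Fin g → Fin g → k),
    ∃ Ψ : MvPolynomial {u // u ∈ I} k, Ψ ≠ 0 ∧ Ψ.totalDegree ≤ M ∧
      (Disjoint S J → d + 1 ≤ S.card + J.card → ∀ (T : Typ d), Tok T →
        ∀ (c : {u // u ∈ I} → k) (x : Fin d → k) (s : Fin n → k) (h : Fin g → k),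
        OnBase ρ (bt r ρ b W T) x s → (∀ V Y m, T V = some Y → m ∈ Y → x m ≠ 0) →
        (∀ i ∈ S, ∑ u : {u // u ∈ I}, (if u.1.1 = i then
          c u * eval (Sum.elim x s) (ut k W T (V u.1.1) u.1.2) else 0) = 0) →
        (∀ i, i ∉ S → h i ^ 2 * ∑ u : {u // u ∈ I}, (if u.1.1 = i then
          c u * eval (Sum.elim x s) (ut k W T (V u.1.1) u.1.2) else 0) = 1) →
        (∀ j ∈ J, h j = ∑ i ∈ (S ∪ J)ᶜ, τ j i * h i) → eval c Ψ = 0) := by
  classical
  have hL : ∀ T : Typ d, ∃ L : ℕ, ∀ hT : Tok T, ∀ (k : Type) [Field k]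
    (b : Fin n → ℕ → MvPolynomial (Fin d) k)
    (u : {u // u ∈ I} → MvPolynomial (Fin d ⊕ Fin n) k) (S J : Finset (Fin g))
    (τ : Fin g → Fin g → k),
    (∀ j l, l < ρ j → (b j l).totalDegree ≤ ρ j - l) → (∀ α, (u α).totalDegree ≤ D) →
    Disjoint S J → d + 1 ≤ S.card + J.card →
    ∃ Φ : MvPolynomial {u // u ∈ I} k, Φ ≠ 0 ∧ Φ.totalDegree ≤ L ∧
      ∀ c p s h, Sys ρ b (fun u : {u // u ∈ I} => u.1.1) u
        (fun i => ⟨(i, pv D T (V i)), pv_mem V I hI T hT i⟩) S J τ c p s h → eval c Φ = 0 := by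
    intro T
    by_cases hT : Tok T
    · obtain ⟨L, hL⟩ := hELI d n D g ρ {u // u ∈ I} (fun u => u.1.1)
        (fun i => ⟨(i, pv D T (V i)), pv_mem V I hI T hT i⟩) (fun i => rfl)
      exact ⟨L, fun _ => hL⟩
    · exact ⟨0, fun h => absurd h hT⟩
  choose L hL using hL
  refine ⟨∑ T, L T, fun Ω k _ _ r b hb S J τ => ?_⟩
  by_cases hcond : Disjoint S J ∧ d + 1 ≤ S.card + J.card
  · obtain ⟨h1, h2⟩ := hcond
    have hex : ∀ T : Typ d, ∃ Φ : MvPolynomial {u // u ∈ I} k, Φ ≠ 0 ∧ Φ.totalDegree ≤ L T ∧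
        ∀ hT : Tok T, ∀ c p s h, Sys ρ (bt r ρ b W T) (fun u : {u // u ∈ I} => u.1.1)
          (fun u : {u // u ∈ I} => ut k W T (V u.1.1) u.1.2)
          (fun i => ⟨(i, pv D T (V i)), pv_mem V I hI T hT i⟩) S J τ c p s h → eval c Φ = 0 := by
      intro T
      by_cases hT : Tok T
      · obtain ⟨hd1, hd2⟩ := hDEG Ω k r d n D W ρ b T hb
        obtain ⟨Φ, hΦ⟩ := hL T hT k (bt r ρ b W T)
          (fun u : {u // u ∈ I} => ut k W T (V u.1.1) u.1.2) S J τ hd1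
          (fun u => hd2 (V u.1.1) u.1.2) h1 h2
        exact ⟨Φ, hΦ.1, hΦ.2.1, fun _ => hΦ.2.2⟩
      · exact ⟨1, one_ne_zero, by simp, fun h => absurd h hT⟩
    choose Φ hΦ0 hΦd hΦ using hex
    refine ⟨∏ T, Φ T, Finset.prod_ne_zero_iff.2 fun T _ => hΦ0 T, ?_, ?_⟩
    · refine (totalDegree_finsetProd _ _).trans ?_
      exact Finset.sum_le_sum fun T _ => hΦd T
    · intro _ _ T hT c x s h hbase hx hS hW hJ
      rw [map_prod]
      refine Finset.prod_eq_zero (Finset.mem_univ T) (hΦ T hT c x s h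
        ⟨hbase, fun i => pv_ne hD W T hT (V i) x s hx, hS, hW, hJ⟩)
  · exact ⟨1, one_ne_zero, by simp, fun h1 h2 => absurd ⟨h1, h2⟩ hcond⟩

theorem core (hREL : T_REL2) (hWPV : T_WPV) (hUNQ : T_UNQ) (hVAL : T_VAL) (hRS : T_RS2)
    (hBSE : T_BSE) (hPLT : T_PLT) (hSCL : T_SCL) (hSIZ : T_SIZ) (hELI : T_ELI2) (hDEG : T_DEG)
    (hCNT : PKD.T_CNT) (hEXP : PKD.T_EXP) (hALM : PKD.T_ALM) (K Ω : Type) [Field K]
    [NumberField K] [Field Ω] [CharZero Ω] [IsAlgClosed Ω] [DecidableEq Ω] [Algebra K Ω]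
    [Algebra.IsAlgebraic K Ω] (g d n D N : ℕ) (hD : 1 ≤ D)
    (hK : 2 ^ (g + 2) ^ 2 < N)
    (om : Module.Basis (Fin N) ℚ K) (σ : Fin N → Ω →+* Ω)
    (hσ : (Matrix.of fun (j l : Fin N) => σ j (algebraMap K Ω (om l))).det ≠ 0)
    (V : Fin g → Finset (Fin d)) (W : Fin n → Finset (Fin d)) (ρ : Fin n → ℕ)
    (b : Fin n → ℕ → MvPolynomial (Fin d) Ω)
    (I : Finset (Fin g × MonS d n D))
    (hI : ∀ i, (i, al0 D none) ∈ I ∧ ∀ m ∈ V i, (i, al0 D (some m)) ∈ I)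
    (hIs : ∀ u ∈ I, ∀ t, (u.2.1 t : ℕ) ≠ 0 → Al W (V u.1) t)
    (hb : ∀ j l, l < ρ j → (b j l).totalDegree ≤ ρ j - l ∧ (b j l).vars ⊆ W j)
    (Δ : ℕ) (hΔ : 0 < Δ) :
    ∃ C p0 : ℕ, ∀ p : ℕ, p0 ≤ p → p.Prime →
    ∃ Bp : Finset ({u // u ∈ I} → Fin N → ZMod p),
      Bp.card * p ≤ C * p ^ (N * Fintype.card {u // u ∈ I}) ∧
      ∀ (β : ℕ) (a : {u // u ∈ I} → Fin N → ℤ), 0 < β → p ∣ β →
        ∀ (A B : MvPolynomial (Fin d ⊕ Fin n) Ω) (F0 : Fin g × MonS d n D → Ω),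
        Adm Δ V W A B F0 →
        Bad D ρ b A B (cfS I F0 fun u => algebraMap K Ω (∑ l, (a u l : ℚ) • om l) / (β : Ω)) →
        (fun u l => (a u l : ZMod p)) ∈ Bp := by
  classical
  have halg : Algebra.IsAlgebraic ℚ Ω := Algebra.IsAlgebraic.trans ℚ K Ω
  obtain ⟨M, hM⟩ := elimS hELI hDEG d n D g hD ρ W V I hI
  set Mt : Matrix (Fin N) (Fin N) Ω := Matrix.of fun j l => σ j (algebraMap K Ω (om l)) with hMt
  have hdet : Mt.det ≠ 0 := hσ
  -- the finite set of numbers which have to be integral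
  let F : Finset Ω :=
    (Finset.univ.image fun x : Fin N × Fin N => Mt x.1 x.2) ∪ {Mt.det⁻¹} ∪
    (Finset.univ.biUnion fun i : Fin N => Finset.univ.biUnion fun j : Fin n =>
      (Finset.range (ρ j)).biUnion fun l => (b j l).support.image fun t => σ i ((b j l).coeff t))
  obtain ⟨p1, hp1⟩ := PKD.COR_.alm_finset hALM Ω F
  refine ⟨2 ^ N * (2 ^ g * (2 ^ g * 2 ^ g)) * M ^ (2 * g ^ 2 + 1),
    p1 + Δ + 1 + (2 * g ^ 2 + 1) * M + 5, fun p hp hpp => ?_⟩
  obtain ⟨v, kk, _, hchar, r, hr, hvp⟩ := hEXP Ω p hpp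
  haveI : Fact p.Prime := ⟨hpp⟩
  have hF := hp1 p (by omega) hpp v hr.na hvp
  have hMi : ∀ i j, v (Mt i j) ≤ 1 := fun i j => hF _ (by
    simp only [F, Finset.mem_union, Finset.mem_image]
    exact Or.inl (Or.inl ⟨(i, j), Finset.mem_univ _, rfl⟩))
  have hdi : v (Mt.det⁻¹) ≤ 1 := hF _ (by
    simp only [F, Finset.mem_union, Finset.mem_singleton]
    exact Or.inl (Or.inr trivial))
  have hbi : ∀ i j l, l < ρ j → ∀ t, v (σ i ((b j l).coeff t)) ≤ 1 := by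
    intro i j l hl t
    by_cases ht : t ∈ (b j l).support
    · refine hF _ ?_
      simp only [F, Finset.mem_union]
      refine Or.inr ?_
      simp only [Finset.mem_biUnion, Finset.mem_image, Finset.mem_univ, true_and, Finset.mem_range]
      exact ⟨i, j, l, hl, t, ht, rfl⟩
    · rw [notMem_support_iff.1 ht, map_zero, v.map_zero]
      exact zero_le_one
  -- the reduced matrix
  set Θ : Matrix (Fin N) (Fin N) kk := Matrix.of fun i j => r (Mt i j) with hΘ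
  have hΘdet : Θ.det ≠ 0 := by
    obtain ⟨h1, h2⟩ := PKD.COR_.red_det hr Mt hMi
    rw [← h2]
    intro h0
    rw [hr.ker _ h1] at h0
    rw [map_inv₀] at hdi
    have hpos : 0 < v Mt.det := v.pos hdet
    have := (inv_le_one₀ hpos).1 hdi
    linarith
  -- the eliminants
  have hΨex : ∀ (j : Fin N) (S J : Finset (Fin g)) (τ : Fin g → Fin g → kk),
      ∃ Ψ : MvPolynomial {u // u ∈ I} kk, Ψ ≠ 0 ∧ Ψ.totalDegree ≤ M ∧
      (Disjoint S J → d + 1 ≤ S.card + J.card → ∀ (T : Typ d), Tok T →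
        ∀ (c : {u // u ∈ I} → kk) (x : Fin d → kk) (s : Fin n → kk) (h : Fin g → kk),
        OnBase ρ (bt (fun x => r (σ j x)) ρ b W T) x s →
        (∀ V Y m, T V = some Y → m ∈ Y → x m ≠ 0) →
        (∀ i ∈ S, ∑ u : {u // u ∈ I}, (if u.1.1 = i then
          c u * eval (Sum.elim x s) (ut kk W T (V u.1.1) u.1.2) else 0) = 0) →
        (∀ i, i ∉ S → h i ^ 2 * ∑ u : {u // u ∈ I}, (if u.1.1 = i then
          c u * eval (Sum.elim x s) (ut kk W T (V u.1.1) u.1.2) else 0) = 1) →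
        (∀ j ∈ J, h j = ∑ i ∈ (S ∪ J)ᶜ, τ j i * h i) → eval c Ψ = 0) := fun j S J τ =>
    hM Ω kk (fun x => r (σ j x)) b (fun j l hl => (hb j l hl).1) S J τ
  choose Ψ hΨ0 hΨd hΨ using hΨex
  obtain ⟨Bp, hBc, hBp⟩ := PKD.COR_.union hCNT p Θ hΘdet M (by omega)
    (fun j S J _ τ => Ψ j S J τ) (fun j S J _ τ => ⟨hΨ0 j S J τ, hΨd j S J τ⟩)
  refine ⟨Bp, hBc, fun β a hβpos hβ A B F0 hadm hbad => ?_⟩
  obtain ⟨hFs, hA, hB, hABs, hFSI⟩ := hadm
  have hSIv : ∀ i x, PKE.SI Δ x → v (σ i x) ≤ 1 := fun i x hx =>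
    PKE.CR2_.na_SI hr.na hpp hvp hΔ (by omega) _ (PKE.CR2_.SI_map hx (σ i))
  have hABi : ∀ i t, v (σ i (A.coeff t)) ≤ 1 ∧ v (σ i (B.coeff t)) ≤ 1 := fun i t =>
    ⟨hSIv i _ (hABs t).1, hSIv i _ (hABs t).2⟩
  have hF0 : ∀ i u, v (σ i (F0 u)) ≤ 1 := fun i u => hSIv i _ (hFSI u)
  have hβ0 : (β : Ω) ≠ 0 := Nat.cast_ne_zero.2 hβpos.ne'
  have hvβ : v (β : Ω) ≤ v (p : Ω) := by
    obtain ⟨q, rfl⟩ := hβ
    push_cast
    rw [v.map_mul]
    calc v (p : Ω) * v (q : Ω) ≤ v (p : Ω) * 1 :=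
          mul_le_mul_of_nonneg_left (na_nat hr.na _) (v.nonneg _)
      _ = v (p : Ω) := mul_one _
  set c : {u // u ∈ I} → Ω :=
    fun u => algebraMap K Ω (∑ l, (a u l : ℚ) • om l) / (β : Ω) with hc
  have hβc : ∀ i u, σ i ((β : Ω) * c u) = ∑ l, ((a u l : ℤ) : Ω) * Mt i l := by
    intro i u
    have h1 : (β : Ω) * c u = algebraMap K Ω (∑ l, (a u l : ℚ) • om l) := by
      rw [hc]
      field_simp
    rw [h1, map_sum, map_sum]
    refine Finset.sum_congr rfl fun l _ => ?_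
    have h2 : ((a u l : ℚ) • om l : K) = ((a u l : ℤ) : K) * om l := by
      rw [Algebra.smul_def]
      simp
    rw [h2, map_mul, map_mul, map_intCast, map_intCast]
    rfl
  have hci : ∀ i u, v (σ i ((β : Ω) * c u)) ≤ 1 := by
    intro i u
    rw [hβc]
    refine na_sum hr.na _ _ _ zero_le_one fun l _ => ?_
    rw [v.map_mul]
    exact mul_le_one₀ (na_int hr.na _) (v.nonneg _) (hMi _ _)
  have hcr : ∀ i u, r (σ i ((β : Ω) * c u)) =
      ∑ l, Θ i l * ZMod.castHom (dvd_refl p) kk ((a u l : ZMod p)) := by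
    intro i u
    rw [hβc, hr.sum _ _ fun l _ => by
      rw [v.map_mul]
      exact mul_le_one₀ (na_int hr.na _) (v.nonneg _) (hMi _ _)]
    refine Finset.sum_congr rfl fun l _ => ?_
    rw [hr.mul _ _ (na_int hr.na _) (hMi _ _), hr.int, mul_comm]
    congr 1
    simp
  -- the fixed part
  have hβF : ∀ i u, v (σ i ((β : Ω) * F0 u)) < 1 := by
    intro i u
    rw [map_mul, v.map_mul, map_natCast]
    calc v (β : Ω) * v (σ i (F0 u)) ≤ v (p : Ω) * 1 :=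
          mul_le_mul hvβ (hF0 i u) (v.nonneg _) (v.nonneg _)
      _ < 1 := by rw [mul_one]; exact hvp
  have hFr : ∀ i u, r (σ i ((β : Ω) * F0 u)) = 0 := fun i u => (hr.ker _ (hβF i u).le).2 (hβF i u)
  have hcf : ∀ i u, v (σ i ((β : Ω) * cfS I F0 c u)) ≤ 1 ∧
      r (σ i ((β : Ω) * cfS I F0 c u)) =
        if h : u ∈ I then r (σ i ((β : Ω) * c ⟨u, h⟩)) else 0 := by
    intro i u
    unfold cfS
    rw [mul_add, map_add]
    by_cases h : u ∈ I
    · rw [dif_pos h, dif_pos h]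
      refine ⟨(hr.na _ _).trans (max_le (hβF i u).le (hci i _)), ?_⟩
      rw [hr.add _ _ (hβF i u).le (hci i _), hFr, zero_add]
    · rw [dif_neg h, dif_neg h, mul_zero, map_zero, add_zero]
      exact ⟨(hβF i u).le, hFr i u⟩
  have hcs : ∀ i α t, cfS I F0 c (i, α) ≠ 0 → (α.1 t : ℕ) ≠ 0 → Al W (V i) t := by
    intro i α t h1 h2
    by_cases h3 : (i, α) ∈ I
    · exact hIs (i, α) h3 t h2
    · refine hFs (i, α) ?_ t h2
      intro h4
      apply h1
      unfold cfS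
      rw [dif_neg h3, h4, add_zero]
  -- a square root of `p`
  obtain ⟨sp, hsp⟩ := IsAlgClosed.exists_pow_nat_eq (p : Ω) (n := 2) (by norm_num)
  obtain ⟨dat, hdat, hst⟩ := stp hREL hWPV hUNQ hVAL hRS hBSE hPLT hSCL hSIZ hr hpp (by omega)
    hvp hsp (le_refl D) hD σ V W ρ b A B hb hbi hA hB hABi (β : Ω) (cfS I F0 c) hβ0
    (fun i => by rw [map_natCast]; exact hvβ) (fun i u => (hcf i u).1) hcs hbad
  choose t htd htc T x' s' h hTok hbase hx' hS hW hJ using hst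
  -- the sums over `I`
  have hsum : ∀ j i, ∑ α : MonS d n D, r (σ j ((β : Ω) * cfS I F0 c (i, α))) *
      eval (Sum.elim (x' j) (s' j)) (ut kk W (T j) (V i) α) =
      ∑ u : {u // u ∈ I}, (if u.1.1 = i then r (σ j ((β : Ω) * c u)) *
        eval (Sum.elim (x' j) (s' j)) (ut kk W (T j) (V u.1.1) u.1.2) else 0) := by
    intro j i
    have e1 : ∑ u : {u // u ∈ I}, (if u.1.1 = i then r (σ j ((β : Ω) * c u)) *
        eval (Sum.elim (x' j) (s' j)) (ut kk W (T j) (V u.1.1) u.1.2) else 0) =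
        ∑ u : Fin g × MonS d n D, (if u.1 = i then r (σ j ((β : Ω) * cfS I F0 c u)) *
          eval (Sum.elim (x' j) (s' j)) (ut kk W (T j) (V u.1) u.2) else 0) := by
      rw [PKD.COR_.sum_restrict I _ (fun u hu => by
        rw [(hcf j u).2, dif_neg hu, zero_mul, ite_self])]
      refine Finset.sum_congr rfl fun u _ => ?_
      rw [(hcf j u.1).2, dif_pos u.2]
    rw [e1, Fintype.sum_prod_type, Finset.sum_eq_single i]
    · refine Finset.sum_congr rfl fun α _ => ?_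
      rw [if_pos rfl]
    · intro i' _ hne
      refine Finset.sum_eq_zero fun α _ => ?_
      rw [if_neg hne]
    · intro h'
      exact absurd (Finset.mem_univ _) h'
  -- pigeonhole
  have hcardT : (Finset.univ : Finset (Ty g)).card * (2 * g ^ 2) <
      (Finset.univ : Finset (Fin N)).card := by
    rw [Finset.card_univ, Finset.card_univ, Fintype.card_fin]
    refine lt_of_le_of_lt ?_ hK
    simp only [Fintype.card_prod, Fintype.card_bool, Fintype.card_finset, Fintype.card_fin]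
    have h1 : g ^ 2 ≤ 2 ^ (2 * g) := by
      have : g < 2 ^ g := Nat.lt_two_pow_self
      calc g ^ 2 ≤ (2 ^ g) ^ 2 := Nat.pow_le_pow_left this.le 2
        _ = 2 ^ (2 * g) := by rw [← pow_mul, mul_comm]
    calc 2 * (2 * (2 ^ g * (2 ^ g * 2 ^ (g * g)))) * (2 * g ^ 2)
        ≤ 2 * (2 * (2 ^ g * (2 ^ g * 2 ^ (g * g)))) * (2 * 2 ^ (2 * g)) := by gcongr
      _ = 2 ^ (g * g + 4 * g + 3) := by ring
      _ ≤ 2 ^ (g + 2) ^ 2 := by
        apply Nat.pow_le_pow_right (by norm_num)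
        nlinarith
  obtain ⟨t0, _, hkey⟩ := Finset.exists_lt_card_fiber_of_mul_lt_card_of_maps_to
    (f := t) (s := Finset.univ) (t := Finset.univ) (fun j _ => Finset.mem_univ _) hcardT
  obtain ⟨G, hG, hGc⟩ := Finset.exists_subset_card_eq (Nat.succ_le_of_lt hkey)
  refine hBp _ G t0.2.2.1 t0.2.2.2.1 ∅ (dat t0) hGc (hdat t0) fun j hj => ?_
  have hjt : t j = t0 := (Finset.mem_filter.1 (hG hj)).2
  have h1 := hΨ j (t j).2.2.1 (t j).2.2.2.1 (dat (t j)) (htd j) (htc j) (T j) (hTok j)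
    (fun u => r (σ j ((β : Ω) * c u))) (x' j) (s' j) (h j) (hbase j) (hx' j)
    (fun i hi => by rw [← hsum j i]; exact hS j i hi)
    (fun i hi => by rw [← hsum j i]; exact hW j i hi) (hJ j)
  rw [hjt] at h1
  rw [← h1]
  congr 1
  congr 1
  funext u
  exact (hcr j u).symm

end CRS_

theorem p_CRS (hREL : T_REL2) (hWPV : T_WPV) (hUNQ : T_UNQ) (hVAL : T_VAL) (hRS : T_RS2)
    (hBSE : T_BSE) (hPLT : T_PLT) (hSCL : T_SCL) (hSIZ : T_SIZ) (hELI : T_ELI2) (hDEG : T_DEG)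
    (hCNT : PKD.T_CNT) (hEXP : PKD.T_EXP) (hALM : PKD.T_ALM) (hEMB : PKD.T_EMB) : T_CRS := by
  intro K Ω _ _ _ _ _ _ _ _ g d n D hD hK om V W ρ b I hI hIs hb Δ hΔ
  obtain ⟨σ, hσ⟩ := hEMB K Ω
  exact CRS_.core hREL hWPV hUNQ hVAL hRS hBSE hPLT hSCL hSIZ hELI hDEG hCNT hEXP hALM K Ω g d n D
    _ hD hK om σ (hσ om) V W ρ b I hI hIs hb Δ hΔ

end PKS
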