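import Mathlib
import Pool.Agent.RD.Defs
import Pool.Agent.PKD.Defs

/-!
Definitions for project PKS (MP_28d749_ag): Pink's conclusion for 100 per cent of the products and
fibre products of multisections (sparse supports).

Every index `i` has a set `V i` of coordinates of the base; every integral coordinate `s_j` has a
set `W j` (its equation only uses the `p_m`, `m ∈ W j`).
-/

set_option autoImplicit false

namespace PKS

open MvPolynomial RD PKD

/-- `t` is one of the coordinates which a function with support `V` may use -/
def Al {d n : ℕ} (W : Fin n → Finset (Fin d)) (V : Finset (Fin d)) (t : Fin d ⊕ Fin n) : Prop :=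
  Sum.elim (fun m => m ∈ V) (fun j => W j ⊆ V) t

/-- The multisection with coefficients `c` is bad: over some point `(p, s)` of the base the points
`P_i` with abscissas `f_i(p, s)` satisfy `d + 1` independent relations over the endomorphism ring
of the fibre, modulo torsion. (`PKD.fval`: the value of `f_i`.) -/
abbrev Bad {Ω : Type} [Field Ω] [DecidableEq Ω] {d n g : ℕ} (D : ℕ) (ρ : Fin n → ℕ)
    (b : Fin n → ℕ → MvPolynomial (Fin d) Ω) (A B : MvPolynomial (Fin d ⊕ Fin n) Ω)
    (c : Fin g × MonS d n D → Ω) : Prop := BadAt D ρ b A B c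

/-- `M` is the maximum of `1` and of the sizes of the coordinates in `V` -/
def IsSz {Ω : Type} [Field Ω] (v : AbsoluteValue Ω ℝ) {d : ℕ} (x : Fin d → Ω)
    (V : Finset (Fin d)) (M : ℝ) : Prop :=
  1 ≤ M ∧ (∀ m ∈ V, v (x m) ≤ M) ∧ (M = 1 ∨ ∃ m ∈ V, v (x m) = M)

/-- The type of a point: to every set `V` of coordinates it gives `none` if all of them are
integral, and otherwise the set of the `m ∈ V` of maximal size. -/
abbrev Typ (d : ℕ) : Type := Finset (Fin d) → Option (Finset (Fin d))

/-- the types of points have this property -/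
def Tok {d : ℕ} (T : Typ d) : Prop := ∀ V Y, T V = some Y → Y.Nonempty ∧ Y ⊆ V

/-- put the variables outside `Y` equal to zero -/
noncomputable def mask {k : Type} [Field k] {d : ℕ} (Y : Finset (Fin d))
    (q : MvPolynomial (Fin d) k) : MvPolynomial (Fin d) k :=
  open Classical in aeval (fun m => if m ∈ Y then (X m : MvPolynomial (Fin d) k) else 0) q

/-- the equations of the base over the residue field -/
noncomputable def bt {Ω k : Type} [Field Ω] [Field k] {d n : ℕ} (r : Ω → k) (ρ : Fin n → ℕ)
    (b : Fin n → ℕ → MvPolynomial (Fin d) Ω) (W : Fin n → Finset (Fin d)) (T : Typ d) (j : Fin n)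
    (l : ℕ) : MvPolynomial (Fin d) k :=
  match T (W j) with
  | none => rdP r (b j l)
  | some Y => mask Y (rdT r (ρ j - l) (b j l))

/-- the monomials over the residue field, for a function with support `V` -/
noncomputable def ut {d n D : ℕ} (k : Type) [Field k] (W : Fin n → Finset (Fin d)) (T : Typ d)
    (V : Finset (Fin d)) (α : MonS d n D) : MvPolynomial (Fin d ⊕ Fin n) k :=
  open Classical in
  match T V with
  | none => um k α
  | some Y => if ∑ j, (α.1 j : ℕ) = D ∧
      ∀ t, (α.1 t : ℕ) ≠ 0 → Sum.elim (fun m => m ∈ Y) (fun j => ¬ Disjoint (W j) Y) t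
    then um k α else 0

/-- the exponent of the pivot monomial: `1`, or `p_m ^ D` for some `m` in the set of maximal size -/
noncomputable def pv {d n : ℕ} (D : ℕ) (T : Typ d) (V : Finset (Fin d)) : MonS d n D :=
  open Classical in
  match T V with
  | none => al0 D none
  | some Y => if h : Y.Nonempty then al0 D (some h.choose) else al0 D none

/-- the system over the residue field; `C` is the set of the coefficients, the coefficient `α`
belongs to the function number `q α` -/
def Sys {k : Type} [Field k] {d n g : ℕ} {C : Type} [Fintype C] (ρ : Fin n → ℕ)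
    (b : Fin n → ℕ → MvPolynomial (Fin d) k) (q : C → Fin g)
    (u : C → MvPolynomial (Fin d ⊕ Fin n) k) (α0 : Fin g → C)
    (S J : Finset (Fin g)) (τ : Fin g → Fin g → k) (c : C → k)
    (p : Fin d → k) (s : Fin n → k) (h : Fin g → k) : Prop :=
  OnBase ρ b p s ∧ (∀ i, eval (Sum.elim p s) (u (α0 i)) ≠ 0) ∧
  (∀ i ∈ S, ∑ α, (if q α = i then c α * eval (Sum.elim p s) (u α) else 0) = 0) ∧
  (∀ i, i ∉ S → h i ^ 2 * ∑ α, (if q α = i then c α * eval (Sum.elim p s) (u α) else 0) = 1) ∧
  (∀ j ∈ J, h j = ∑ i ∈ (S ∪ J)ᶜ, τ j i * h i)

/-- the discrete data at one embedding: the class of the embedding (does it fix the multiplier?),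
its sign on the square root of `p`, the set `S` of the critical indices, the pivots `J` and the
set `Z` of the pairs of comparable entries -/
abbrev Ty (g : ℕ) : Type :=
  Bool × Bool × Finset (Fin g) × Finset (Fin g) × Finset (Fin g × Fin g)

end PKS
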