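import Mathlib
import Pool.Agent.PKS.Defs
import Pool.Agent.PKD.Targets

/-!
Targets of project PKS. Each job proves one of them in its own file `Pool/Agent/PKS/<NAME>.lean` as
`theorem p_<NAME> (hypotheses...) : T_<NAME>`. Proofs: `Pool/Agent/PKS/Blueprint.lean.txt`.
-/

set_option autoImplicit false

namespace PKS

open MvPolynomial RD PKD WeierstrassCurve.Affine

/-! ### Block 1: relations and points of different sizes -/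

/-- LEM2 (adapt PKD.T_LEM, `Pool/Agent/PKD/LEM.lean`): a relation over ℤ[ω], several scales -/
def T_LEM2 : Prop := ∀ (K : Type) [Field K] [CharZero K] [DecidableEq K] (p : ℕ)
  (v : AbsoluteValue K ℝ) (R : ℝ) (a4 a6 : K), Cx p v R a4 a6 →
  ∀ (ω : (curve 0 a4 a6).Point →+ (curve 0 a4 a6).Point) (a : K) (B C : ℝ), R ≤ B → 0 ≤ C →
    (∀ P : (curve 0 a4 a6).Point, P ≠ 0 → InE v B P →
        InE v R (ω P) ∧ v (zz (ω P) - a * zz P) ≤ C * v (zz P) ^ 3) →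
  ∀ (g : ℕ) (P : Fin g → (curve 0 a4 a6).Point) (S : Finset (Fin g)) (M N : Fin g → ℤ)
    (Θ : ℝ), 0 < Θ →
    (∀ i ∈ S, InE v R (P i) ∧ R ^ 2 * v (zz (P i)) ^ 4 < v (p : K)) →
    (∀ i ∈ S, v ((M i : K) + (N i : K) * a) * v (zz (P i)) ≤ Θ) →
    IsOfFinAddOrder (∑ i ∈ S, (M i • P i + N i • ω (P i))) →
    v (∑ i ∈ S, ((M i : K) + (N i : K) * a) * zz (P i)) < Θ

/-- REL2 (from T_LEM2 as PKD.T_REL from PKD.T_LEM, `Pool/Agent/PKD/REL.lean`) -/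
def T_REL2 : Prop := ∀ (K : Type) [Field K] [CharZero K] [DecidableEq K] (a4 a6 : K) (g e : ℕ)
  (P : Fin g → (curve 0 a4 a6).Point),
  (IntRel (curve 0 a4 a6) e P ∨ CMRel (curve 0 a4 a6) e P) →
  ∃ (a : K) (t n : ℤ), a ^ 2 = t * a - n ∧
  ∃ U : Submodule (IntermediateField.adjoin ℚ {a}) (Fin g → IntermediateField.adjoin ℚ {a}),
    Module.finrank (IntermediateField.adjoin ℚ {a}) U = e ∧
    ∀ (p : ℕ) (v : AbsoluteValue K ℝ) (R : ℝ), Cx p v R a4 a6 →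
    ∀ (D : Finset (Fin g)),
      (∀ i, i ∉ D → InE v R (P i) ∧ R ^ 2 * v (zz (P i)) ^ 4 < v (p : K)) →
      ∀ τ ∈ U, (∀ i ∈ D, τ i = 0) → ∀ Θ : ℝ, 0 < Θ →
        (∀ i, i ∉ D → v (τ i : K) * v (zz (P i)) ≤ Θ) →
        v (∑ i ∈ Dᶜ, (τ i : K) * zz (P i)) < Θ

/-! ### Block 2: linear algebra and residues -/

/-- WPV: weighted pivots (adapt `Pool/Agent/RD/PIV.lean`) -/
def T_WPV : Prop := ∀ (F : Type) [Field F] (v : F → ℝ), v 0 = 0 → (∀ x, x ≠ 0 → 0 < v x) →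
    (∀ x y, v (x * y) = v x * v y) → (∀ x y, v (x + y) ≤ max (v x) (v y)) →
  ∀ (g : ℕ) (w : Fin g → ℝ), (∀ i, 0 < w i) → ∀ (U : Submodule F (Fin g → F)),
    ∃ (J : Finset (Fin g)) (τ : Fin g → Fin g → F), J.card = Module.finrank F U ∧
      ∀ j ∈ J, τ j ∈ U ∧ τ j j = 1 ∧ (∀ j' ∈ J, j' ≠ j → τ j j' = 0) ∧
        ∀ i, v (τ j i) * w i ≤ w j

/-- UNQ: the echelon basis is determined by the pivots -/
def T_UNQ : Prop := ∀ (F : Type) [Field F] (g : ℕ) (U : Submodule F (Fin g → F))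
  (J : Finset (Fin g)), J.card = Module.finrank F U → ∀ (τ τ' : Fin g → Fin g → F),
    (∀ j ∈ J, τ j ∈ U ∧ τ j j = 1 ∧ ∀ j' ∈ J, j' ≠ j → τ j j' = 0) →
    (∀ j ∈ J, τ' j ∈ U ∧ τ' j j = 1 ∧ ∀ j' ∈ J, j' ≠ j → τ' j j' = 0) →
    ∀ j ∈ J, τ j = τ' j

/-- VAL: the values of the elements of a quadratic field are powers of `√p` -/
def T_VAL : Prop := ∀ (Ω : Type) [Field Ω] [CharZero Ω] (p : ℕ) (v : AbsoluteValue Ω ℝ),
  IsNonarchimedean v → p.Prime → v (p : Ω) < 1 → ∀ (a sp : Ω) (t n : ℤ), a ^ 2 = t * a - n →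
    sp ^ 2 = (p : Ω) → ∀ τ ∈ IntermediateField.adjoin ℚ {a}, τ ≠ 0 →
    ∃ e : ℤ, v τ = v sp ^ e

/-- RS2 (from PKD.T_RES, RD.T_QFD): residues of elements of a quadratic field times a power
of `√p` -/
def T_RS2 : Prop := ∀ (Ω k : Type) [Field Ω] [CharZero Ω] [Field k] (p : ℕ)
  (v : AbsoluteValue Ω ℝ) (r : Ω → k), Red v r → p.Prime → 3 ≤ p → v (p : Ω) < 1 →
  ∀ (a sp : Ω) (t n : ℤ), a ^ 2 = t * a - n → sp ^ 2 = (p : Ω) →
  ∀ τ ∈ IntermediateField.adjoin ℚ {a}, ∀ e : ℤ, v (τ * sp ^ e) ≤ 1 →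
    r (τ * sp ^ e) ^ (p ^ 2) = r (τ * sp ^ e)

/-- SCL: a choice of elements of every possible size, compatible with multiplication by `√p` -/
def T_SCL : Prop := ∀ (Ω : Type) [Field Ω] (v : AbsoluteValue Ω ℝ) (sp y0 : Ω), sp ≠ 0 →
  v sp < 1 → y0 ≠ 0 → ∃ sc : ℝ → Ω, sc (v y0) = y0 ∧
    (∀ y : Ω, y ≠ 0 → v (sc (v y)) = v y) ∧
    (∀ y : Ω, y ≠ 0 → ∀ e : ℤ, sc (v y * v sp ^ e) = sc (v y) * sp ^ e)

/-! ### Block 3: one place -/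

/-- SIZ: sizes of the integral coordinates and of polynomials with support `V` -/
def T_SIZ : Prop := ∀ (Ω : Type) [Field Ω] (v : AbsoluteValue Ω ℝ), IsNonarchimedean v →
  ∀ (d n : ℕ) (W : Fin n → Finset (Fin d)) (ρ : Fin n → ℕ)
    (b : Fin n → ℕ → MvPolynomial (Fin d) Ω),
    (∀ j l, l < ρ j → (b j l).totalDegree ≤ ρ j - l ∧ (b j l).vars ⊆ W j ∧
      ∀ t, v ((b j l).coeff t) ≤ 1) →
  ∀ (x : Fin d → Ω) (s : Fin n → Ω), OnBase ρ b x s →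
  ∀ (V : Finset (Fin d)) (M : ℝ), IsSz v x V M →
    (∀ j, W j ⊆ V → v (s j) ≤ M) ∧
    ∀ (q : MvPolynomial (Fin d ⊕ Fin n) Ω) (e : ℕ), q.totalDegree ≤ e →
      (∀ t ∈ q.vars, Al W V t) → (∀ t, v (q.coeff t) ≤ 1) →
      v (eval (Sum.elim x s) q) ≤ M ^ e

/-- PLT: the abscissas and the parameters of the points (adapt `local_fact` in
`Pool/Agent/PKD/PLCI.lean`): one point -/
def T_PLT : Prop := ∀ (Ω k : Type) [Field Ω] [CharZero Ω] [DecidableEq Ω] [Field k] (p : ℕ)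
  (v : AbsoluteValue Ω ℝ) (r : Ω → k), Red v r → p.Prime → 5 ≤ p → v (p : Ω) < 1 →
  ∀ (w D : ℕ), w ≤ D → ∀ (β ϖ π f a4 a6 : Ω) (R : ℝ), β ≠ 0 → v β ≤ v (p : Ω) →
    ϖ ≠ 0 → 1 ≤ v ϖ → π ^ 2 * ϖ ^ D = β → Cx p v R a4 a6 → R ≤ v ϖ ^ w →
    v (β * f / ϖ ^ D) = 1 → ∀ P : (curve 0 a4 a6).Point,
    (∃ y h, P = WeierstrassCurve.Affine.Point.some f y h) →
    InE v R P ∧ R ^ 2 * v (zz P) ^ 4 < v (p : Ω) ∧ v (zz P) = v π ∧
      r (zz P / π) ^ 2 * r (β * f / ϖ ^ D) = 1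

/-- BSE: the residues of a point of the base (several levels). `ϖ` chooses an element of every size
`≥ 1`; the residue of a coordinate of size `M > 1` is that of `x / ϖ M`. -/
def T_BSE : Prop := ∀ (Ω k : Type) [Field Ω] [Field k] (v : AbsoluteValue Ω ℝ) (r : Ω → k),
  Red v r → ∀ (ϖ : ℝ → Ω), ϖ 1 = 1 →
  ∀ (d n : ℕ) (W : Fin n → Finset (Fin d)) (ρ : Fin n → ℕ)
    (b : Fin n → ℕ → MvPolynomial (Fin d) Ω),
    (∀ j l, l < ρ j → (b j l).totalDegree ≤ ρ j - l ∧ (b j l).vars ⊆ W j ∧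
      ∀ t, v ((b j l).coeff t) ≤ 1) →
  ∀ (x : Fin d → Ω) (s : Fin n → Ω), OnBase ρ b x s →
    (∀ m, 1 < v (x m) → v (ϖ (v (x m))) = v (x m)) →
  ∃ (T : Typ d) (x' : Fin d → k) (s' : Fin n → k), Tok T ∧ OnBase ρ (bt r ρ b W T) x' s' ∧
    (∀ V Y m, T V = some Y → m ∈ Y → x' m ≠ 0) ∧
    ∀ (V : Finset (Fin d)) (M : ℝ), IsSz v x V M → ∀ (D : ℕ) (c : MonS d n D → Ω),
      (∀ α, v (c α) ≤ 1) → (∀ α t, c α ≠ 0 → (α.1 t : ℕ) ≠ 0 → Al W V t) →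
      v ((∑ α, c α * ∏ j, Sum.elim x s j ^ (α.1 j : ℕ)) / ϖ M ^ D) ≤ 1 ∧
      r ((∑ α, c α * ∏ j, Sum.elim x s j ^ (α.1 j : ℕ)) / ϖ M ^ D) =
        ∑ α, r (c α) * eval (Sum.elim x' s') (ut k W T V α)

/-! ### Block 4: elimination -/

/-- ELI2 (from PKD.T_NFB; adapt `Pool/Agent/PKD/ELI.lean`): elimination -/
def T_ELI2 : Prop := ∀ (d n D g : ℕ) (ρ : Fin n → ℕ) (C : Type) [Fintype C] [DecidableEq C]
  (q : C → Fin g) (α0 : Fin g → C), (∀ i, q (α0 i) = i) →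
  ∃ L : ℕ, ∀ (k : Type) [Field k] (b : Fin n → ℕ → MvPolynomial (Fin d) k)
    (u : C → MvPolynomial (Fin d ⊕ Fin n) k) (S J : Finset (Fin g)) (τ : Fin g → Fin g → k),
    (∀ j l, l < ρ j → (b j l).totalDegree ≤ ρ j - l) → (∀ α, (u α).totalDegree ≤ D) →
    Disjoint S J → d + 1 ≤ S.card + J.card →
    ∃ Φ : MvPolynomial C k, Φ ≠ 0 ∧ Φ.totalDegree ≤ L ∧
      ∀ c p s h, Sys ρ b q u α0 S J τ c p s h → eval c Φ = 0

/-- the degrees of the reduced polynomials -/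
def T_DEG : Prop := ∀ (Ω k : Type) [Field Ω] [Field k] (r : Ω → k) (d n D : ℕ)
  (W : Fin n → Finset (Fin d)) (ρ : Fin n → ℕ) (b : Fin n → ℕ → MvPolynomial (Fin d) Ω)
  (T : Typ d), (∀ j l, l < ρ j → (b j l).totalDegree ≤ ρ j - l) →
    (∀ j l, l < ρ j → (bt r ρ b W T j l).totalDegree ≤ ρ j - l) ∧
    ∀ (V : Finset (Fin d)) (α : MonS d n D), (ut k W T V α).totalDegree ≤ D

end PKS
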