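import Mathlib
import Pool.Agent.PKS.Targets

/-!
PKS-DEG: degrees of the reduced polynomials.
-/

set_option autoImplicit false

namespace PKS

open MvPolynomial RD PKD

namespace DEG_

/-- substituting polynomials of degree at most one does not increase the degree -/
theorem deg_aeval {k σ τ : Type} [Field k] (ψ : σ → MvPolynomial τ k)
    (hψ : ∀ i, (ψ i).totalDegree ≤ 1) (q : MvPolynomial σ k) :
    (aeval ψ q).totalDegree ≤ q.totalDegree := by
  classical
  rw [aeval_def, eval₂_eq]
  refine totalDegree_finsetSum_le (fun m hm => ?_)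
  refine (totalDegree_mul _ _).trans ?_
  have h1 : (algebraMap k (MvPolynomial τ k) (coeff m q)).totalDegree = 0 := by
    rw [algebraMap_eq]; exact totalDegree_C _
  rw [h1, zero_add]
  refine (totalDegree_finsetProd _ _).trans ?_
  have h2 : ∀ i ∈ m.support, (ψ i ^ m i).totalDegree ≤ m i := fun i _ => by
    refine (totalDegree_pow _ _).trans ?_
    have := Nat.mul_le_mul_left (m i) (hψ i)
    simpa using this
  exact (Finset.sum_le_sum h2).trans (le_totalDegree hm)

theorem rdP_deg {Ω k σ : Type} [Field Ω] [Field k] (r : Ω → k) (q : MvPolynomial σ Ω) :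
    (rdP r q).totalDegree ≤ q.totalDegree := by
  classical
  unfold rdP
  refine (totalDegree_finsetSum _ _).trans (Finset.sup_le fun t ht => ?_)
  refine (totalDegree_monomial_le _ _).trans ?_
  exact le_totalDegree ht

theorem rdT_deg {Ω k σ : Type} [Field Ω] [Field k] (r : Ω → k) (e : ℕ) (q : MvPolynomial σ Ω) :
    (rdT r e q).totalDegree ≤ e := by
  classical
  unfold rdT
  refine (totalDegree_finsetSum _ _).trans (Finset.sup_le fun t ht => ?_)
  refine (totalDegree_monomial_le _ _).trans ?_
  exact (Finset.mem_filter.1 ht).2.le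

theorem mask_deg {k : Type} [Field k] {d : ℕ} (Y : Finset (Fin d))
    (q : MvPolynomial (Fin d) k) : (mask Y q).totalDegree ≤ q.totalDegree := by
  classical
  unfold mask
  refine deg_aeval _ (fun i => ?_) q
  split_ifs
  · exact (totalDegree_X (R := k) i).le
  · simp

theorem um_deg (k : Type) [Field k] {d n D : ℕ} (α : MonS d n D) :
    (um k α).totalDegree ≤ D := by
  unfold um
  refine (totalDegree_finsetProd _ _).trans ?_
  refine le_trans (Finset.sum_le_sum fun j _ => ?_) α.2
  refine (totalDegree_pow _ _).trans ?_
  rw [totalDegree_X, mul_one]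

end DEG_

theorem p_DEG : T_DEG := by
  intro Ω k _ _ r d n D W ρ b T hb
  refine ⟨fun j l hl => ?_, fun V α => ?_⟩
  · unfold bt
    split
    · exact (DEG_.rdP_deg r _).trans (hb j l hl)
    · exact (DEG_.mask_deg _ _).trans (DEG_.rdT_deg r _ _)
  · unfold ut
    split
    · exact DEG_.um_deg k α
    · split_ifs
      · exact DEG_.um_deg k α
      · simp

end PKS
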