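import Pool.Agent.PKS.Targets
import Pool.Agent.PKD.ELI

/-!
ELI2: elimination, several pivots; the degree does not depend on the field.
-/

set_option autoImplicit false
set_option linter.unusedSectionVars false
set_option maxHeartbeats 4000000

namespace PKS

open MvPolynomial RD PKD

namespace ELI2_

open PKD.ELI_ (PF num)

/-- the system with a set `W` of noncritical indices -/
def Sy {k : Type} [Field k] {d n g : ℕ} {C : Type} [Fintype C] (ρ : Fin n → ℕ)
    (b : Fin n → ℕ → MvPolynomial (Fin d) k) (q : C → Fin g)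
    (u : C → MvPolynomial (Fin d ⊕ Fin n) k) (α0 : Fin g → C)
    (S J W : Finset (Fin g)) (τ : Fin g → Fin g → k) (c : C → k)
    (p : Fin d → k) (s : Fin n → k) (h : Fin g → k) : Prop :=
  OnBase ρ b p s ∧ (∀ i, eval (Sum.elim p s) (u (α0 i)) ≠ 0) ∧
  (∀ i ∈ S, ∑ α, (if q α = i then c α * eval (Sum.elim p s) (u α) else 0) = 0) ∧
  (∀ i ∈ W, h i ^ 2 * ∑ α, (if q α = i then c α * eval (Sum.elim p s) (u α) else 0) = 1) ∧
  (∀ j ∈ J, h j = ∑ i ∈ W \ J, τ j i * h i)

section main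

variable {k : Type} [Field k] {d n g : ℕ} {C : Type} [Fintype C] [DecidableEq C]

/-- the points of the system -/
abbrev Pt (ρ : Fin n → ℕ) (b : Fin n → ℕ → MvPolynomial (Fin d) k) (q : C → Fin g)
    (u : C → MvPolynomial (Fin d ⊕ Fin n) k) (α0 : Fin g → C) (S J W : Finset (Fin g))
    (τ : Fin g → Fin g → k) : Type :=
  {y : (C → k) × (Fin d → k) × (Fin n → k) × (Fin g → k) //
    Sy ρ b q u α0 S J W τ y.1 y.2.1 y.2.2.1 y.2.2.2}

/-- the coefficients which are not free -/
def bd (α0 : Fin g → C) (S W : Finset (Fin g)) : Finset C := (S ∪ W).image α0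

/-- the free generators -/
abbrev Fr (d : ℕ) (α0 : Fin g → C) (S J W : Finset (Fin g)) : Type :=
  Fin d ⊕ (↥((bd α0 S W)ᶜ) ⊕ ↥(W \ J))

theorem inj {q : C → Fin g} {α0 : Fin g → C} (hq : ∀ i, q (α0 i) = i) :
    Function.Injective α0 := fun i j h => by rw [← hq i, ← hq j, h]

theorem card_Fr (α0 : Fin g → C) (hα : Function.Injective α0) (S J W : Finset (Fin g))
    (hSW : Disjoint S W) (hJW : J ⊆ W) (hcard : S.card + J.card = d + 1) :
    Fintype.card (Fr d α0 S J W) = Fintype.card C - 1 := by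
  have h1 : (bd α0 S W).card = S.card + W.card := by
    unfold bd
    rw [Finset.card_image_of_injective _ hα, Finset.card_union_of_disjoint hSW]
  have h2 : (bd α0 S W).card ≤ Fintype.card C := Finset.card_le_univ _
  have h3 : J.card ≤ W.card := Finset.card_le_card hJW
  have h4 : (W \ J).card = W.card - J.card := Finset.card_sdiff_of_subset hJW
  rw [Fintype.card_sum, Fintype.card_sum, Fintype.card_fin, Fintype.card_coe, Fintype.card_coe,
    Finset.card_compl, h1, h4]
  omega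

variable {ρ : Fin n → ℕ} {b : Fin n → ℕ → MvPolynomial (Fin d) k} {q : C → Fin g}
    {u : C → MvPolynomial (Fin d ⊕ Fin n) k} {α0 : Fin g → C} {S J W : Finset (Fin g)}
    {τ : Fin g → Fin g → k}

/-- the values of the free generators -/
def xx (y : Pt ρ b q u α0 S J W τ) : Fr d α0 S J W → k :=
  Sum.elim y.1.2.1 (Sum.elim (fun q => y.1.1 q.1) (fun i => y.1.2.2.2 i.1))

/-- the integral coordinates -/
def ss (y : Pt ρ b q u α0 S J W τ) : Fin n → k := y.1.2.2.1

/-- polynomial functions on the points of the system -/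
abbrev PG (ρ : Fin n → ℕ) (b : Fin n → ℕ → MvPolynomial (Fin d) k) (q : C → Fin g)
    (u : C → MvPolynomial (Fin d ⊕ Fin n) k) (α0 : Fin g → C) (S J W : Finset (Fin g))
    (τ : Fin g → Fin g → k) (M : ℕ) (f : Pt ρ b q u α0 S J W τ → k) : Prop :=
  PF xx ss M f

theorem pf_base (D : ℕ) (f : MvPolynomial (Fin d ⊕ Fin n) k) (hf : f.totalDegree ≤ D) :
    PG ρ b q u α0 S J W τ D (fun y => eval (Sum.elim y.1.2.1 y.1.2.2.1) f) := by
  refine ⟨rename (Sum.map Sum.inl id) f, (totalDegree_rename_le _ _).trans hf, fun y => ?_⟩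
  rw [eval_rename]
  have h1 : Sum.elim (xx y) (ss y) ∘ Sum.map Sum.inl id = Sum.elim y.1.2.1 y.1.2.2.1 := by
    funext t
    rcases t with t | t <;> rfl
  rw [h1]

theorem pf_free (a : C) (ha : a ∉ bd α0 S W) :
    PG ρ b q u α0 S J W τ 1 (fun y => y.1.1 a) := by
  refine ⟨X (Sum.inl (Sum.inr (Sum.inl ⟨a, Finset.mem_compl.2 ha⟩))), ?_, fun y => ?_⟩
  · rw [totalDegree_X]
  · rw [eval_X]
    rfl

theorem pf_h0 (i : Fin g) (hi : i ∈ W \ J) :
    PG ρ b q u α0 S J W τ 1 (fun y => y.1.2.2.2 i) := by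
  refine ⟨X (Sum.inl (Sum.inr (Sum.inr ⟨i, hi⟩))), ?_, fun y => ?_⟩
  · rw [totalDegree_X]
  · rw [eval_X]
    rfl

theorem pf_h (i : Fin g) (hi : i ∈ W) :
    PG ρ b q u α0 S J W τ 1 (fun y => y.1.2.2.2 i) := by
  by_cases hJ : i ∈ J
  · have h1 : PG ρ b q u α0 S J W τ 1 (fun y => ∑ i' ∈ W \ J, τ i i' * y.1.2.2.2 i') := by
      refine PF.sum _ fun i' hi' => ?_
      have := (PF.const (x := xx (ρ := ρ) (b := b) (q := q) (u := u) (α0 := α0) (S := S) (J := J)
        (W := W) (τ := τ)) (s := ss) (τ i i')).mul (pf_h0 i' hi')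
      rwa [zero_add] at this
    exact PF.congr h1 fun y => y.2.2.2.2.2 i hJ
  · exact pf_h0 i (Finset.mem_sdiff.2 ⟨hi, hJ⟩)

/-- the denominator, first factor -/
noncomputable def EE (T : Finset (Fin g)) (y : Pt ρ b q u α0 S J W τ) : k :=
  ∏ i ∈ T, eval (Sum.elim y.1.2.1 y.1.2.2.1) (u (α0 i))

/-- the denominator, second factor -/
noncomputable def HH (T : Finset (Fin g)) (y : Pt ρ b q u α0 S J W τ) : k :=
  ∏ i ∈ T, y.1.2.2.2 i ^ 2

/-- the denominator -/
noncomputable def PP (y : Pt ρ b q u α0 S J W τ) : k := EE (S ∪ W) y * HH W y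

theorem PP_ne (y : Pt ρ b q u α0 S J W τ) : PP y ≠ 0 := by
  refine mul_ne_zero (Finset.prod_ne_zero_iff.2 fun i _ => y.2.2.1 i)
    (Finset.prod_ne_zero_iff.2 fun i hi => ?_)
  intro h
  have h1 := y.2.2.2.2.1 i hi
  rw [h, zero_mul] at h1
  exact zero_ne_one h1

theorem pf_EE (D : ℕ) (hu : ∀ α, (u α).totalDegree ≤ D) (T : Finset (Fin g)) :
    PG ρ b q u α0 S J W τ (D * g) (EE T) := by
  have h1 := PF.prod (x := xx (ρ := ρ) (b := b) (q := q) (u := u) (α0 := α0) (S := S) (J := J)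
    (W := W) (τ := τ)) (s := ss) T (M := fun _ => D)
    (f := fun i y => eval (Sum.elim y.1.2.1 y.1.2.2.1) (u (α0 i)))
    (fun i _ => pf_base D (u (α0 i)) (hu _))
  refine PF.mono ?_ h1
  rw [Finset.sum_const, smul_eq_mul, mul_comm]
  have : T.card ≤ g := by simpa using Finset.card_le_univ T
  exact Nat.mul_le_mul_left _ this

theorem pf_HH (T : Finset (Fin g)) (hT : T ⊆ W) :
    PG ρ b q u α0 S J W τ (2 * g) (HH T) := by
  have h1 := PF.prod (x := xx (ρ := ρ) (b := b) (q := q) (u := u) (α0 := α0) (S := S) (J := J)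
    (W := W) (τ := τ)) (s := ss) T (M := fun _ => 2 * 1) (f := fun i y => y.1.2.2.2 i ^ 2)
    (fun i hi => PF.pow (pf_h i (hT hi)) 2)
  refine PF.mono ?_ h1
  rw [Finset.sum_const, smul_eq_mul]
  have : T.card ≤ g := by simpa using Finset.card_le_univ T
  omega

theorem pf_PP (D : ℕ) (hu : ∀ α, (u α).totalDegree ≤ D) :
    PG ρ b q u α0 S J W τ (D * g + 2 * g) PP :=
  PF.mul (pf_EE D hu (S ∪ W)) (pf_HH W (Finset.Subset.refl _))

/-- a pivot is bound only as the pivot of its own function -/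
theorem notin_bd (hq : ∀ i, q (α0 i) = i) (a : C) (ha : a ≠ α0 (q a)) : a ∉ bd α0 S W := by
  unfold bd
  intro h
  obtain ⟨i, _, hi⟩ := Finset.mem_image.1 h
  apply ha
  rw [← hi, hq i]

theorem pf_rest (D : ℕ) (hu : ∀ α, (u α).totalDegree ≤ D) (hq : ∀ i, q (α0 i) = i) (i : Fin g) :
    PG ρ b q u α0 S J W τ (1 + D) (fun y => ∑ α ∈ Finset.univ.erase (α0 i),
        (if q α = i then y.1.1 α * eval (Sum.elim y.1.2.1 y.1.2.2.1) (u α) else 0)) := by
  refine PF.sum _ fun α hα => ?_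
  by_cases h : q α = i
  · simp only [if_pos h]
    refine PF.mul (pf_free α (notin_bd hq α ?_)) (pf_base D (u α) (hu α))
    rw [h]
    exact Finset.ne_of_mem_erase hα
  · simp only [if_neg h]
    exact PF.mono (Nat.zero_le _) (PF.const (0 : k))

theorem split_sum (q : C → Fin g) (c e : C → k) (i : Fin g) (α0 : Fin g → C)
    (hq : ∀ i, q (α0 i) = i) :
    ∑ α, (if q α = i then c α * e α else 0) = c (α0 i) * e (α0 i) +
      ∑ α ∈ Finset.univ.erase (α0 i), (if q α = i then c α * e α else 0) := by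
  rw [← Finset.add_sum_erase _ _ (Finset.mem_univ (α0 i)), if_pos (hq i)]

theorem pf_coef (D : ℕ) (hu : ∀ α, (u α).totalDegree ≤ D) (hq : ∀ i, q (α0 i) = i) (a : C) :
    PG ρ b q u α0 S J W τ (D * g + 2 * g + D + 3) (fun y => PP y * y.1.1 a) := by
  by_cases ha : a ∈ bd α0 S W
  · unfold bd at ha
    obtain ⟨i, hi, rfl⟩ := Finset.mem_image.1 ha
    have hE := pf_EE (ρ := ρ) (b := b) (q := q) (u := u) (α0 := α0) (S := S) (J := J) (W := W)
      (τ := τ) D hu ((S ∪ W).erase i)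
    rcases Finset.mem_union.1 hi with hS | hW
    · have h1 := PF.mul (PF.mul hE (PF.neg (pf_rest (ρ := ρ) (b := b) (q := q) (u := u)
        (α0 := α0) (S := S) (J := J) (W := W) (τ := τ) D hu hq i)))
        (pf_HH W (Finset.Subset.refl _))
      refine PF.congr (PF.mono (by omega) h1) fun y => ?_
      have h2 := y.2.2.2.1 i hS
      rw [split_sum q y.1.1 _ i α0 hq] at h2
      unfold PP EE
      rw [← Finset.mul_prod_erase (S ∪ W) _ hi]
      linear_combination ((∏ i ∈ (S ∪ W).erase i, eval (Sum.elim y.1.2.1 y.1.2.2.1) (u (α0 i))) *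
        HH W y) * h2
    · have h1 := PF.mul (PF.pow (pf_h (ρ := ρ) (b := b) (q := q) (u := u) (α0 := α0) (S := S)
        (J := J) (W := W) (τ := τ) i hW) 2) (pf_rest D hu hq i)
      have h2 := PF.add (PF.mono (Nat.zero_le (2 * 1 + (1 + D))) (PF.const (x := xx (ρ := ρ)
        (b := b) (q := q) (u := u) (α0 := α0) (S := S) (J := J) (W := W) (τ := τ)) (s := ss)
        (1 : k))) (PF.neg h1)
      have h3 := PF.mul (PF.mul hE h2) (pf_HH (W.erase i) (Finset.erase_subset _ _))
      refine PF.congr (PF.mono (by omega) h3) fun y => ?_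
      have h4 := y.2.2.2.2.1 i hW
      rw [split_sum q y.1.1 _ i α0 hq] at h4
      unfold PP EE HH
      rw [← Finset.mul_prod_erase (S ∪ W) _ hi, ← Finset.mul_prod_erase W _ hW]
      linear_combination ((∏ i ∈ (S ∪ W).erase i, eval (Sum.elim y.1.2.1 y.1.2.2.1) (u (α0 i))) *
        ∏ i ∈ W.erase i, y.1.2.2.2 i ^ 2) * h4
  · have h1 := PF.mul (pf_PP (ρ := ρ) (b := b) (q := q) (u := u) (α0 := α0) (S := S) (J := J)
      (W := W) (τ := τ) D hu) (pf_free a ha)
    exact PF.mono (by omega) h1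

end main

/-- the elimination for the system `Sy` -/
theorem core (h1 : T_NFB) (d n D g : ℕ) (ρ : Fin n → ℕ) (C : Type) [Fintype C] [DecidableEq C]
    (q : C → Fin g) (α0 : Fin g → C) (hq : ∀ i, q (α0 i) = i) :
    ∃ L : ℕ, ∀ (k : Type) [Field k] (b : Fin n → ℕ → MvPolynomial (Fin d) k)
    (u : C → MvPolynomial (Fin d ⊕ Fin n) k) (S J W : Finset (Fin g)) (τ : Fin g → Fin g → k),
    (∀ j l, l < ρ j → (b j l).totalDegree ≤ ρ j - l) → (∀ α, (u α).totalDegree ≤ D) →
    Disjoint S W → J ⊆ W → S.card + J.card = d + 1 →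
    ∃ Φ : MvPolynomial C k, Φ ≠ 0 ∧ Φ.totalDegree ≤ L ∧
      ∀ c p s h, Sy ρ b q u α0 S J W τ c p s h → eval c Φ = 0 := by
  classical
  set N := Fintype.card C with hN
  set δ := D * g + 2 * g + D + 3 with hδ
  set R0 := ∏ j, ρ j with hR0
  set L' := R0 * (δ * N + 1) ^ (N - 1) with hL'
  refine ⟨N * L', ?_⟩
  intro k _ b u S J W τ hb hu hSW hJW hcard
  have hNpos : 1 ≤ N := by
    have hg : Nonempty (Fin g) := by
      by_contra hne
      rw [not_nonempty_iff] at hne
      have e1 : S.card = 0 := by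
        rw [Finset.card_eq_zero]
        exact Finset.eq_empty_of_isEmpty S
      have e2 : J.card = 0 := by
        rw [Finset.card_eq_zero]
        exact Finset.eq_empty_of_isEmpty J
      omega
    have : Nonempty C := ⟨α0 hg.some⟩
    exact Fintype.card_pos
  -- the space of functions
  obtain ⟨V, hV1, hV2, hV3⟩ := h1 k (Pt ρ b q u α0 S J W τ) (Fr d α0 S J W) n ρ xx ss
    (fun j l => rename Sum.inl (b j l))
    (fun j l hl => (totalDegree_rename_le _ _).trans (hb j l hl))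
    (by
      intro y j
      have h2 := y.2.1 j
      rw [← h2]
      congr 1
      refine Finset.sum_congr rfl fun l _ => ?_
      rw [eval_rename]
      rfl)
    (δ * (N * L'))
  rw [card_Fr α0 (inj hq) S J W hSW hJW hcard] at hV2
  -- the functions
  let v : (C → Fin (L' + 1)) → V := fun γ =>
    ⟨fun y => PP y ^ (N * L') * ∏ a, y.1.1 a ^ (γ a : ℕ), by
      have hγ : ∑ a, (γ a : ℕ) ≤ N * L' := by
        have : ∑ a, (γ a : ℕ) ≤ ∑ _a : C, L' :=
          Finset.sum_le_sum fun a _ => Nat.lt_succ_iff.1 (γ a).2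
        rwa [Finset.sum_const, smul_eq_mul, Finset.card_univ] at this
      have e1 := PF.prod (x := xx (ρ := ρ) (b := b) (q := q) (u := u) (α0 := α0) (S := S)
        (J := J) (W := W) (τ := τ)) (s := ss) (Finset.univ : Finset C)
        (M := fun a => (γ a : ℕ) * δ) (f := fun a y => (PP y * y.1.1 a) ^ (γ a : ℕ))
        (fun a _ => PF.pow (pf_coef D hu hq a) _)
      have e2 := PF.mul (PF.pow (PF.mono (show D * g + 2 * g ≤ δ by omega) (pf_PP (ρ := ρ)
        (b := b) (q := q) (u := u) (α0 := α0) (S := S) (J := J) (W := W)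
        (τ := τ) D hu)) (N * L' - ∑ a, (γ a : ℕ))) e1
      have e3 : (N * L' - ∑ a, (γ a : ℕ)) * δ + ∑ a, (γ a : ℕ) * δ ≤ δ * (N * L') := by
        rw [← Finset.sum_mul, ← add_mul, Nat.sub_add_cancel hγ, mul_comm]
      obtain ⟨f, hf1, hf2⟩ := (PF.mono e3 e2)
      have e4 := hV3 f hf1
      have e5 : (fun y : Pt ρ b q u α0 S J W τ => PP y ^ (N * L') *
          ∏ a, y.1.1 a ^ (γ a : ℕ)) = fun y => eval (Sum.elim (xx y) (ss y)) f := by
        funext y
        rw [← hf2 y]
        simp only [mul_pow]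
        rw [Finset.prod_mul_distrib, Finset.prod_pow_eq_pow_sum, ← mul_assoc (PP y ^ _),
          ← pow_add, Nat.sub_add_cancel hγ]
      rw [e5]
      exact e4⟩
  have hdep : ¬ LinearIndependent k v := by
    intro hli
    have e1 := hli.fintype_card_le_finrank
    rw [Fintype.card_fun, Fintype.card_fin] at e1
    have e2 := e1.trans hV2
    exact absurd (num R0 δ N hNpos) (not_lt.2 e2)
  rw [Fintype.not_linearIndependent_iff] at hdep
  obtain ⟨a, ha, γ0, hγ0⟩ := hdep
  let toF : (C → Fin (L' + 1)) → (C →₀ ℕ) := fun γ =>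
    Finsupp.equivFunOnFinite.symm (fun q => (γ q : ℕ))
  have htoF : Function.Injective toF := by
    intro γ γ' h
    have h2 := Finsupp.equivFunOnFinite.symm.injective h
    funext q
    exact Fin.ext (congrFun h2 q)
  refine ⟨∑ γ, monomial (toF γ) (a γ), ?_, ?_, ?_⟩
  · intro h
    have h2 := congrArg (coeff (toF γ0)) h
    rw [coeff_sum, coeff_zero, Finset.sum_eq_single γ0] at h2
    · rw [coeff_monomial, if_pos rfl] at h2
      exact hγ0 h2
    · intro γ _ hne
      rw [coeff_monomial, if_neg]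
      intro h3
      exact hne (htoF h3)
    · intro h3
      exact absurd (Finset.mem_univ _) h3
  · refine totalDegree_finsetSum_le fun γ _ => ?_
    refine (totalDegree_monomial_le _ _).trans ?_
    rw [Finsupp.sum_fintype _ _ (fun _ => rfl)]
    have : ∑ a, (γ a : ℕ) ≤ ∑ _a : C, L' :=
      Finset.sum_le_sum fun a _ => Nat.lt_succ_iff.1 (γ a).2
    rwa [Finset.sum_const, smul_eq_mul, Finset.card_univ] at this
  · intro c p s h hs
    let y : Pt ρ b q u α0 S J W τ := ⟨(c, p, s, h), hs⟩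
    have h2 := congrArg (fun f : V => (f : Pt ρ b q u α0 S J W τ → k) y) ha
    have h3 : ∑ γ, a γ * (PP y ^ (N * L') * ∏ a, c a ^ (γ a : ℕ)) = 0 := by
      have h4 : (fun f : V => (f : Pt ρ b q u α0 S J W τ → k) y) (∑ γ, a γ • v γ) =
          ∑ γ, a γ * (PP y ^ (N * L') * ∏ a, c a ^ (γ a : ℕ)) := by
        show ((∑ γ, a γ • v γ : V) : Pt ρ b q u α0 S J W τ → k) y = _
        rw [Submodule.coe_sum, Finset.sum_apply]
        rfl
      rw [← h4]
      exact h2
    have h5 : PP y ^ (N * L') * ∑ γ, a γ * ∏ a, c a ^ (γ a : ℕ) = 0 := by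
      rw [Finset.mul_sum, ← h3]
      refine Finset.sum_congr rfl fun γ _ => ?_
      ring
    have h6 := (mul_eq_zero.1 h5).resolve_left (pow_ne_zero _ (PP_ne y))
    rw [map_sum, ← h6]
    refine Finset.sum_congr rfl fun γ _ => ?_
    rw [eval_monomial, Finsupp.prod_fintype _ _ (fun _ => pow_zero _)]
    rfl

end ELI2_

open ELI2_ in
/-- ELI2 -/
theorem p_ELI2 (h1 : T_NFB) : T_ELI2 := by
  intro d n D g ρ C _ _ q α0 hq
  classical
  obtain ⟨L, hL⟩ := core h1 d n D g ρ C q α0 hq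
  refine ⟨L, ?_⟩
  intro k _ b u S J τ hb hu hSJ hcard
  by_cases hS : d + 1 ≤ S.card
  · obtain ⟨S', hS', hc⟩ := Finset.exists_subset_card_eq hS
    obtain ⟨Φ, hΦ0, hΦd, hΦ⟩ := hL k b u S' ∅ ∅ τ hb hu (by simp) (by simp) (by simpa using hc)
    refine ⟨Φ, hΦ0, hΦd, fun c p s h hs => hΦ c p s h ?_⟩
    obtain ⟨a1, a2, a3, a4, a5⟩ := hs
    exact ⟨a1, a2, fun i hi => a3 i (hS' hi), by simp, by simp⟩
  · push Not at hS
    obtain ⟨J', hJ', hc⟩ := Finset.exists_subset_card_eq (show d + 1 - S.card ≤ J.card by omega)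
    obtain ⟨Φ, hΦ0, hΦd, hΦ⟩ := hL k b u S J' Sᶜ (fun j i => if i ∈ J then 0 else τ j i) hb hu
      disjoint_compl_right
      (fun i hi => Finset.mem_compl.2 fun hiS =>
        Finset.disjoint_left.1 hSJ hiS (hJ' hi)) (by omega)
    refine ⟨Φ, hΦ0, hΦd, fun c p s h hs => hΦ c p s h ?_⟩
    obtain ⟨a1, a2, a3, a4, a5⟩ := hs
    refine ⟨a1, a2, a3, fun i hi => a4 i (Finset.mem_compl.1 hi), fun j hj => ?_⟩
    rw [a5 j (hJ' hj)]
    have hsub : (S ∪ J)ᶜ ⊆ Sᶜ \ J' := by
      intro i hi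
      rw [Finset.mem_compl, Finset.mem_union, not_or] at hi
      exact Finset.mem_sdiff.2 ⟨Finset.mem_compl.2 hi.1, fun h => hi.2 (hJ' h)⟩
    rw [← Finset.sum_subset hsub]
    · refine Finset.sum_congr rfl fun i hi => ?_
      rw [Finset.mem_compl, Finset.mem_union, not_or] at hi
      simp only [if_neg hi.2]
    · intro i hi hi2
      rw [Finset.mem_sdiff, Finset.mem_compl] at hi
      rw [Finset.mem_compl, Finset.mem_union, not_or, not_and_or, not_not, not_not] at hi2
      rcases hi2 with h3 | h3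
      · exact absurd h3 hi.1
      · simp only [if_pos h3, zero_mul]

end PKS
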