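import Pool.Agent.PKS.CRE2
import Pool.Agent.PKD.BRG
import Pool.Agent.PKE.FIN

/-! The final assembly. -/

set_option autoImplicit false
set_option maxHeartbeats 4000000

namespace PKS

open MvPolynomial RD PKD

/-- the theorem, with polynomials `F` -/
def T_FIN : Prop := ∀ (K : Type) [Field K] [NumberField K] [DecidableEq (AlgebraicClosure K)]
    (g d n D : ℕ), 1 ≤ D → 2 ^ (g + 2) ^ 2 < Module.finrank ℚ K →
    ∀ (om : Module.Basis (Fin (Module.finrank ℚ K)) ℚ K)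
    (V : Fin g → Finset (Fin d)) (W : Fin n → Finset (Fin d)) (ρ : Fin n → ℕ)
    (b : Fin n → ℕ → MvPolynomial (Fin d) (AlgebraicClosure K))
    (I : Finset (Fin g × MonS d n D)),
    (∀ i, (i, al0 D none) ∈ I ∧ ∀ m ∈ V i, (i, al0 D (some m)) ∈ I) →
    (∀ u ∈ I, ∀ t, (u.2.1 t : ℕ) ≠ 0 → Al W (V u.1) t) →
    (∀ j l, l < ρ j → (b j l).totalDegree ≤ ρ j - l ∧ (b j l).vars ⊆ W j) →
    ∀ Δ : ℕ, 0 < Δ → ∀ ε : ℝ, 0 < ε → ∃ C : ℝ, ∀ H : ℕ, 1 ≤ H →
      (Nat.card {x : ℕ × ({u // u ∈ I} → Fin (Module.finrank ℚ K) → ℤ) //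
        1 ≤ x.1 ∧ x.1 ≤ H ∧ (∀ u l, |x.2 u l| ≤ (H : ℤ)) ∧
        ∃ (A B : MvPolynomial (Fin d ⊕ Fin n) (AlgebraicClosure K))
          (F : Fin g → MvPolynomial (Fin d ⊕ Fin n) (AlgebraicClosure K)),
          A.totalDegree ≤ 2 * D ∧ B.totalDegree ≤ 3 * D ∧ (∀ i, (F i).totalDegree ≤ D) ∧
          (∀ i t, t ∈ A.vars ∪ B.vars ∪ (F i).vars → Al W (V i) t) ∧
          (∀ t, (∃ j : ℕ, IsIntegral ℤ ((Δ : AlgebraicClosure K) ^ j * A.coeff t)) ∧
            (∃ j : ℕ, IsIntegral ℤ ((Δ : AlgebraicClosure K) ^ j * B.coeff t)) ∧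
            (∀ i, ∃ j : ℕ, IsIntegral ℤ ((Δ : AlgebraicClosure K) ^ j * (F i).coeff t))) ∧
          ∃ (p : Fin d → AlgebraicClosure K) (s : Fin n → AlgebraicClosure K),
            (∀ j, s j ^ ρ j + ∑ l ∈ Finset.range (ρ j), eval p (b j l) * s j ^ l = 0) ∧
            ∃ P : Fin g → (curve 0 (eval (Sum.elim p s) A) (eval (Sum.elim p s) B)).Point,
              (∀ i, ∃ y h, P i = WeierstrassCurve.Affine.Point.some
                (eval (Sum.elim p s) (F i) + ∑ u : {u // u ∈ I}, if u.1.1 = i then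
                  algebraMap K (AlgebraicClosure K) (∑ l, (x.2 u l : ℚ) • om l) /
                    (x.1 : AlgebraicClosure K) *
                  ∏ j, Sum.elim p s j ^ (u.1.2.1 j : ℕ) else 0) y h) ∧
              (IntRel _ (d + 1) P ∨ CMRel _ (d + 1) P)} : ℝ) ≤
        C * (H : ℝ) ^ (((Module.finrank ℚ K * I.card : ℕ) : ℝ) + ε)

theorem fval_cfS {Ω : Type} [Field Ω] {d n g D : ℕ} (I : Finset (Fin g × MonS d n D))
    (F : Fin g → MvPolynomial (Fin d ⊕ Fin n) Ω) (hF : ∀ i, (F i).totalDegree ≤ D)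
    (c : {u // u ∈ I} → Ω) (p : Fin d → Ω) (s : Fin n → Ω) (i : Fin g) :
    fval D (cfS I (fun u => (F u.1).coeff (fsM u.2)) c) p s i =
      eval (Sum.elim p s) (F i) + ∑ u : {u // u ∈ I}, if u.1.1 = i then
        c u * ∏ j, Sum.elim p s j ^ (u.1.2.1 j : ℕ) else 0 := by
  classical
  rw [eval_mon (F i) (hF i)]
  unfold fval cfS
  simp only [add_mul, Finset.sum_add_distrib]
  congr 1
  have e1 : ∑ u : {u // u ∈ I}, (if u.1.1 = i then
        c u * ∏ j, Sum.elim p s j ^ (u.1.2.1 j : ℕ) else 0) =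
      ∑ u : Fin g × MonS d n D, (if u.1 = i then
        (if h : u ∈ I then c ⟨u, h⟩ else 0) * ∏ j, Sum.elim p s j ^ (u.2.1 j : ℕ) else 0) := by
    rw [PKD.COR_.sum_restrict I _ (fun u hu => by rw [dif_neg hu, zero_mul, ite_self])]
    refine Finset.sum_congr rfl fun u _ => ?_
    rw [dif_pos u.2]
  rw [e1, Fintype.sum_prod_type, Finset.sum_eq_single i]
  · refine Finset.sum_congr rfl fun α _ => ?_
    rw [if_pos rfl]
  · intro i' _ hne
    refine Finset.sum_eq_zero fun α _ => ?_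
    rw [if_neg hne]
  · intro h'
    exact absurd (Finset.mem_univ _) h'

theorem bad_iff {Ω : Type} [Field Ω] [DecidableEq Ω] {d n g D : ℕ}
    (ρ : Fin n → ℕ) (b : Fin n → ℕ → MvPolynomial (Fin d) Ω)
    (A B : MvPolynomial (Fin d ⊕ Fin n) Ω) (I : Finset (Fin g × MonS d n D))
    (F : Fin g → MvPolynomial (Fin d ⊕ Fin n) Ω) (hF : ∀ i, (F i).totalDegree ≤ D)
    (c : {u // u ∈ I} → Ω) :
    Bad D ρ b A B (cfS I (fun u => (F u.1).coeff (fsM u.2)) c) ↔
      ∃ (p : Fin d → Ω) (s : Fin n → Ω),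
          (∀ j, s j ^ ρ j + ∑ l ∈ Finset.range (ρ j), eval p (b j l) * s j ^ l = 0) ∧
          ∃ P : Fin g → (curve 0 (eval (Sum.elim p s) A) (eval (Sum.elim p s) B)).Point,
            (∀ i, ∃ y h, P i = WeierstrassCurve.Affine.Point.some
              (eval (Sum.elim p s) (F i) + ∑ u : {u // u ∈ I}, if u.1.1 = i then
                c u * ∏ j, Sum.elim p s j ^ (u.1.2.1 j : ℕ) else 0) y h) ∧
            (IntRel _ (d + 1) P ∨ CMRel _ (d + 1) P) := by
  unfold Bad BadAt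
  constructor
  · rintro ⟨p, s, h1, P, h2, h3⟩
    exact ⟨p, s, h1, P, fun i => (some_congr (fval_cfS I F hF c p s i) (P i)).1 (h2 i), h3⟩
  · rintro ⟨p, s, h1, P, h2, h3⟩
    exact ⟨p, s, h1, P, fun i => (some_congr (fval_cfS I F hF c p s i) (P i)).2 (h2 i), h3⟩

theorem p_FIN (hCRS : T_CRS) (hSV3 : PKE.T_SV3) : T_FIN := by
  classical
  intro K _ _ _ g d n D hD hK om V W ρ b I hI hIs hb Δ hΔ ε hε
  obtain ⟨C, p0, hC⟩ := hCRS K (AlgebraicClosure K) g d n D hD hK om V W ρ b I hI hIs hb Δ hΔ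
  -- the property
  let BadU : ℕ → ({u // u ∈ I} → Fin (Module.finrank ℚ K) → ℤ) → Prop :=
    fun β a => ∃ (A B : MvPolynomial (Fin d ⊕ Fin n) (AlgebraicClosure K))
          (F : Fin g → MvPolynomial (Fin d ⊕ Fin n) (AlgebraicClosure K)),
          A.totalDegree ≤ 2 * D ∧ B.totalDegree ≤ 3 * D ∧ (∀ i, (F i).totalDegree ≤ D) ∧
          (∀ i t, t ∈ A.vars ∪ B.vars ∪ (F i).vars → Al W (V i) t) ∧
          (∀ t, PKE.SI Δ (A.coeff t) ∧ PKE.SI Δ (B.coeff t) ∧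
            (∀ i, PKE.SI Δ ((F i).coeff t))) ∧
          Bad D ρ b A B (cfS I (fun u => (F u.1).coeff (fsM u.2))
            fun u => algebraMap K (AlgebraicClosure K) (∑ l, (a u l : ℚ) • om l) /
              (β : AlgebraicClosure K))
  have hex : ∀ p : ℕ, ∃ Bp : Finset ({u // u ∈ I} → Fin (Module.finrank ℚ K) → ZMod p),
      p0 ≤ p → p.Prime →
      Bp.card * p ≤ C * p ^ (Module.finrank ℚ K * Fintype.card {u // u ∈ I}) ∧
      ∀ (β : ℕ) (a : {u // u ∈ I} → Fin (Module.finrank ℚ K) → ℤ),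
        0 < β → p ∣ β → BadU β a → (fun u l => (a u l : ZMod p)) ∈ Bp := by
    intro p
    by_cases h : p0 ≤ p ∧ p.Prime
    · obtain ⟨Bp, h1, h2⟩ := hC p h.1 h.2
      refine ⟨Bp, fun _ _ => ⟨h1, fun β a hβ hpβ hbad => ?_⟩⟩
      obtain ⟨A, B, F, hA, hB, hF, hsupp, hSI, hbad⟩ := hbad
      rcases Nat.eq_zero_or_pos g with hg | hg
      · -- no points: no relations
        subst hg
        exfalso
        obtain ⟨x, s, hon, P, hP, hrel⟩ := hbad
        rcases hrel with ⟨M, hM, -⟩ | ⟨ω, t, n', α, M, N, -, -, -, -, hM, -⟩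
        · have := hM.ne_zero ⟨0, Nat.succ_pos d⟩
          exact this (Subsingleton.elim _ _)
        · have := hM.ne_zero ⟨0, Nat.succ_pos d⟩
          exact this (Subsingleton.elim _ _)
      refine h2 β a hβ hpβ A B _ ⟨?_, ⟨hA, fun i t ht => hsupp i t (by simp [ht])⟩,
        ⟨hB, fun i t ht => hsupp i t (by simp [ht])⟩, fun t => ⟨(hSI t).1, (hSI t).2.1⟩,
        fun u => (hSI _).2.2 u.1⟩ hbad
      intro u hu t ht
      refine hsupp u.1 t ?_
      rw [Finset.mem_union]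
      refine Or.inr ?_
      rw [mem_vars]
      refine ⟨fsM u.2, mem_support_iff.2 hu, ?_⟩
      rw [Finsupp.mem_support_iff]
      exact ht
    · exact ⟨∅, fun h1 h2 => absurd ⟨h1, h2⟩ h⟩
  choose Bp hBp using hex
  let κ := {u // u ∈ I} × Fin (Module.finrank ℚ K)
  have hcard : Fintype.card κ = Module.finrank ℚ K * Fintype.card {u // u ∈ I} := by
    simp only [κ, Fintype.card_prod, Fintype.card_fin]
    ring
  have hcard2 : Fintype.card κ = Module.finrank ℚ K * I.card := by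
    rw [hcard, Fintype.card_coe]
  obtain ⟨C', h1⟩ := hSV3 κ C p0 (fun p => (Bp p).map
      (Equiv.curry {u // u ∈ I} (Fin (Module.finrank ℚ K)) (ZMod p)).symm.toEmbedding)
    (fun β a => BadU β fun u l => a (u, l))
    (fun p hp hpp => by
      rw [Finset.card_map, hcard]
      exact (hBp p hp hpp).1)
    (fun p hp hpp β a h2 h3 h4 => by
      have h5 := (hBp p hp hpp).2 β (fun u l => a (u, l)) h2 h3 h4
      rw [Finset.mem_map]
      refine ⟨_, h5, ?_⟩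
      funext x
      rfl) ε hε
  rw [hcard2] at h1
  refine ⟨C', fun H hH => le_trans (le_of_eq ?_) (h1 H hH)⟩
  congr 1
  refine (Nat.card_congr (Equiv.subtypeEquiv ((Equiv.refl ℕ).prodCongr
    (Equiv.curry {u // u ∈ I} (Fin (Module.finrank ℚ K)) ℤ)) fun x => ?_)).symm
  simp only [Equiv.prodCongr_apply, Prod.map_fst, Prod.map_snd, Equiv.refl_apply, Equiv.curry_apply,
    BadU]
  constructor
  · rintro ⟨a1, a2, a3, A, B, F, b1, b2, b3, b4, b5, b6⟩
    exact ⟨a1, a2, fun u l => a3 (u, l), A, B, F, b1, b2, b3, b4, b5,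
      (bad_iff ρ b A B I F b3 _).1 b6⟩
  · rintro ⟨a1, a2, a3, A, B, F, b1, b2, b3, b4, b5, b6⟩
    exact ⟨a1, a2, fun i => a3 i.1 i.2, A, B, F, b1, b2, b3, b4, b5,
      (bad_iff ρ b A B I F b3 _).2 b6⟩

end PKS
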