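import Pool.Agent.PKS.Targets
import Pool.Agent.PKD.PLCI

set_option autoImplicit false

/-!
# PKS, PLT: parameter and abscissa of one point
-/

namespace PKS

open MvPolynomial RD PKD WeierstrassCurve.Affine

open PKD.PLCI_ in
theorem p_PLT : T_PLT := by
  intro Ω k _ _ _ _ p v r hr hp hp5 hvp w D hwD β ϖ ρ0 f a4 a6 R hβ0 hβ hϖ0 hϖ1 hρ0 hCx hR hG P hP
  have hV0 : 0 < v ϖ := by linarith
  have hvβ : 0 < v β := v.pos hβ0
  have hVD : 0 < v ϖ ^ D := by positivity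
  have hR1 : 1 ≤ R := hCx.one_le
  have hX : v f = v ϖ ^ D / v β := by
    have h1 := hG
    rw [map_div₀, v.map_mul, v.map_pow, div_eq_one_iff_eq hVD.ne'] at h1
    rw [eq_div_iff hvβ.ne']
    linarith
  have hRD : R ≤ v ϖ ^ D := hR.trans (pow_le_pow_right₀ hϖ1 hwD)
  have hRX : R < v f := by
    rw [hX, lt_div_iff₀ hvβ]
    have h2 : 0 < R := by linarith
    calc R * v β < R * 1 := mul_lt_mul_of_pos_left (hβ.trans_lt hvp) h2
      _ ≤ v ϖ ^ D := by rw [mul_one]; exact hRD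
  have hρ00 : ρ0 ≠ 0 := by
    rintro rfl
    rw [zero_pow two_ne_zero, zero_mul] at hρ0
    exact hβ0 hρ0.symm
  have hμ0 : 0 < v ρ0 := v.pos hρ00
  have hμ2 : v ρ0 ^ 2 = v β / v ϖ ^ D := by
    rw [eq_div_iff hVD.ne', ← v.map_pow, ← v.map_pow, ← v.map_mul, hρ0]
  have hstrong : R ^ 2 * v ρ0 ^ 4 < v (p : Ω) := by
    have h2 : v ρ0 ^ 4 = (v β / v ϖ ^ D) ^ 2 := by rw [← hμ2]; ring
    rw [h2, div_pow]
    calc R ^ 2 * (v β ^ 2 / (v ϖ ^ D) ^ 2)
        ≤ (v ϖ ^ D) ^ 2 * (v β ^ 2 / (v ϖ ^ D) ^ 2) := by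
          apply mul_le_mul_of_nonneg_right _ (by positivity)
          exact pow_le_pow_left₀ (by linarith) hRD 2
      _ = v β * v β := by
          field_simp
      _ < 1 * v β := mul_lt_mul_of_pos_right (hβ.trans_lt hvp) hvβ
      _ = v β := one_mul _
      _ ≤ v (p : Ω) := hβ
  obtain ⟨Y, hns, hPi⟩ := hP
  have heq : Y ^ 2 = f ^ 3 + a4 * f + a6 := by
    have := hns.1
    rw [WeierstrassCurve.Affine.equation_iff] at this
    simp only [zero_mul, add_zero] at this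
    exact this
  obtain ⟨h1, h2⟩ := local_fact hr.na R hR1 _ _ _ _ hCx.h4 hCx.h6 hRX heq
  have hX0 : 0 < v f := by linarith
  have hz : zz P = f / Y := by
    rw [hPi]
    rfl
  have hzv : v (zz P) = v ρ0 := by
    rw [hz]
    have h3 : v (f / Y) ^ 2 = v ρ0 ^ 2 := by
      rw [← v.map_pow, div_pow, map_div₀, h1, v.map_pow, hμ2, hX]
      have h4 : v ϖ ^ D ≠ 0 := hVD.ne'
      have h5 : v β ≠ 0 := hvβ.ne'
      field_simp
    exact (pow_left_inj₀ (v.nonneg _) (v.nonneg _) two_ne_zero).1 h3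
  have hkey : (zz P / ρ0) ^ 2 * (β * f / ϖ ^ D) = (f / Y) ^ 2 * f := by
    have h5 : ϖ ^ D ≠ 0 := pow_ne_zero _ hϖ0
    rw [hz, div_pow, ← hρ0]
    field_simp
  have hu : v (zz P / ρ0) ≤ 1 := by
    rw [map_div₀, hzv, div_self hμ0.ne']
  have hu2 : v ((zz P / ρ0) ^ 2) ≤ 1 := by
    rw [v.map_pow]
    exact pow_le_one₀ (v.nonneg _) hu
  refine ⟨?_, ?_, hzv, ?_⟩
  · rw [hPi]
    exact hRX
  · rw [hzv]
    exact hstrong
  · rw [← hr.pow hu, ← hr.mul _ _ hu2 hG.le, ← hr.one]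
    refine (hr.eq_iff ?_ (by rw [v.map_one])).2 ?_
    · rw [v.map_mul]
      exact mul_le_one₀ hu2 (v.nonneg _) hG.le
    · rw [hkey]
      exact h2

end PKS
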