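import Pool.Agent.PKS.Targets
import Pool.Agent.PKD.RedLem
import Pool.Agent.RD.LOCU
import Pool.Agent.RD.LOC
import Pool.Agent.RD.CNJ
import Pool.Agent.RD.ZLI
import Pool.Agent.RD.QFD

/-!
REL2: the relations as a subspace over the field generated by the multiplier (several scales).
-/

set_option autoImplicit false
set_option maxHeartbeats 4000000

namespace PKS

open MvPolynomial RD PKD WeierstrassCurve.Affine

namespace REL2_

/-- the common core -/
theorem core (h1 : T_LEM2) (K : Type) [Field K] [CharZero K] [DecidableEq K] (a4 a6 : K) (g e : ℕ)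
    (P : Fin g → (curve 0 a4 a6).Point) (ω : (curve 0 a4 a6).Point →+ (curve 0 a4 a6).Point)
    (a : K) (t n : ℤ) (ha : a ^ 2 = t * a - n) (hω : ∀ Q, ω (ω Q) = t • ω Q - n • Q)
    (hker : ∀ r s : ℤ, (r : K) + s * a = 0 → ∀ Q, r • Q + s • ω Q = 0)
    (M N : Fin e → Fin g → ℤ)
    (hind : LinearIndependent K (fun (k : Fin e) (i : Fin g) => (M k i : K) + (N k i : K) * a))
    (htor : ∀ k, IsOfFinAddOrder (∑ i, (M k i • P i + N k i • ω (P i))))
    (hest : ∀ (p : ℕ) (v : AbsoluteValue K ℝ) (R : ℝ), Cx p v R a4 a6 →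
      (∃ Q : (curve 0 a4 a6).Point, Q ≠ 0 ∧ InE v R Q ∧ R ^ 2 * v (zz Q) ^ 4 < v (p : K)) →
      ∃ (B C : ℝ), R ≤ B ∧ 0 ≤ C ∧ ∀ Q : (curve 0 a4 a6).Point, Q ≠ 0 → InE v B Q →
        InE v R (ω Q) ∧ v (zz (ω Q) - a * zz Q) ≤ C * v (zz Q) ^ 3) :
    ∃ U : Submodule (IntermediateField.adjoin ℚ {a}) (Fin g → IntermediateField.adjoin ℚ {a}),
    Module.finrank (IntermediateField.adjoin ℚ {a}) U = e ∧
    ∀ (p : ℕ) (v : AbsoluteValue K ℝ) (R : ℝ), Cx p v R a4 a6 →
    ∀ (D : Finset (Fin g)),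
      (∀ i, i ∉ D → InE v R (P i) ∧ R ^ 2 * v (zz (P i)) ^ 4 < v (p : K)) →
      ∀ τ ∈ U, (∀ i ∈ D, τ i = 0) → ∀ Θ : ℝ, 0 < Θ →
        (∀ i, i ∉ D → v (τ i : K) * v (zz (P i)) ≤ Θ) →
        v (∑ i ∈ Dᶜ, (τ i : K) * zz (P i)) < Θ := by
  set F := IntermediateField.adjoin ℚ {a} with hF
  have haF : a ∈ F := IntermediateField.mem_adjoin_simple_self ℚ a
  let aF : F := ⟨a, haF⟩
  let row : Fin e → (Fin g → F) := fun k i => (M k i : F) + (N k i : F) * aF
  have hrow : ∀ k i, ((row k i : F) : K) = (M k i : K) + (N k i : K) * a := by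
    intro k i
    simp [row, aF]
  let f : (Fin g → F) →ₗ[F] (Fin g → K) :=
    LinearMap.pi fun i => (Algebra.linearMap F K).comp (LinearMap.proj i)
  have hindF : LinearIndependent F row := by
    have hK : LinearIndependent F (fun (k : Fin e) (i : Fin g) => (M k i : K) + (N k i : K) * a) :=
      hind.restrict_scalars (by
        intro x y hxy
        have : ((x : F) : K) * 1 = ((y : F) : K) * 1 := by
          simpa [Algebra.smul_def] using hxy
        exact Subtype.ext (by simpa using this))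
    have hcomp : (fun (k : Fin e) (i : Fin g) => (M k i : K) + (N k i : K) * a) = f ∘ row := by
      funext k i
      simp only [Function.comp, f, LinearMap.pi_apply, LinearMap.comp_apply, LinearMap.proj_apply,
        Algebra.linearMap_apply]
      exact (hrow k i).symm
    rw [hcomp] at hK
    exact LinearIndependent.of_comp f hK
  let U : Submodule F (Fin g → F) := Submodule.span F (Set.range row)
  have hU : Module.finrank F U = e := by
    simpa using finrank_span_eq_card hindF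
  refine ⟨U, hU, ?_⟩
  intro p v R hctx D hD τ hτ hτD Θ hΘ hτ1
  by_cases hex : ∃ i, i ∉ D ∧ P i ≠ 0
  · obtain ⟨i0, hi0, hP0⟩ := hex
    have hst : ∃ Q : (curve 0 a4 a6).Point, Q ≠ 0 ∧ InE v R Q ∧
        R ^ 2 * v (zz Q) ^ 4 < v (p : K) := ⟨P i0, hP0, (hD i0 hi0).1, (hD i0 hi0).2⟩
    obtain ⟨B, C, hRB, hC0, hBC⟩ := hest p v R hctx hst
    obtain ⟨φ, hφ⟩ := (Submodule.mem_span_range_iff_exists_fun F).1 hτ
    obtain ⟨q, A, A', hq, hqA⟩ := LOCU_.common p_QFD a t n ha e φ
    obtain ⟨M', hM'⟩ : ∃ M' : Fin g → ℤ, M' = fun i => ∑ k, (A k * M k i - n * (A' k * N k i)) :=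
      ⟨_, rfl⟩
    obtain ⟨N', hN'⟩ : ∃ N' : Fin g → ℤ,
      N' = fun i => ∑ k, (A k * N k i + A' k * M k i + t * (A' k * N k i)) := ⟨_, rfl⟩
    have hqτ : ∀ i, (q : K) * (τ i : K) = M' i + N' i * a := by
      intro i
      have e1 : (τ i : K) = ∑ k, (φ k : K) * ((M k i : K) + (N k i : K) * a) := by
        rw [← hφ]
        simp only [Finset.sum_apply, Pi.smul_apply, smul_eq_mul]
        push_cast
        refine Finset.sum_congr rfl fun k _ => ?_
        rw [hrow]
      rw [e1, Finset.mul_sum, hM', hN']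
      push_cast
      rw [Finset.sum_mul, ← Finset.sum_add_distrib]
      refine Finset.sum_congr rfl fun k _ => ?_
      have e2 := hqA k
      calc (q : K) * ((φ k : K) * ((M k i : K) + (N k i : K) * a))
          = ((q : K) * (φ k : K)) * ((M k i : K) + (N k i : K) * a) := by ring
        _ = ((A k : K) + A' k * a) * ((M k i : K) + (N k i : K) * a) := by rw [e2]
        _ = (A k : K) * M k i + (A k * N k i + A' k * M k i) * a + A' k * N k i * a ^ 2 := by ring
        _ = _ := by rw [ha]; ring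
    have hfin : IsOfFinAddOrder (∑ i, (M' i • P i + N' i • ω (P i))) := by
      rw [hM', hN', LOCU_.combine ω t n hω]
      exact LOCU_.torsion_sum ω e _ htor A A'
    have hvq : 0 < v (q : K) := v.pos (by exact_mod_cast hq)
    have hfin' : IsOfFinAddOrder (∑ i ∈ Dᶜ, (M' i • P i + N' i • ω (P i))) := by
      have e1 : ∑ i, (M' i • P i + N' i • ω (P i)) =
          ∑ i ∈ Dᶜ, (M' i • P i + N' i • ω (P i)) := by
        symm
        refine Finset.sum_subset (Finset.subset_univ _) fun i _ hi => ?_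
        have hiD : i ∈ D := by simpa using hi
        refine hker _ _ ?_ _
        rw [← hqτ i, hτD i hiD]
        simp
      rwa [e1] at hfin
    have hL := h1 K p v R a4 a6 hctx ω a B C hRB hC0 hBC g P Dᶜ M' N' (v (q : K) * Θ)
      (mul_pos hvq hΘ)
      (fun i hi => hD i (by simpa using hi))
      (fun i hi => by
        rw [← hqτ i, map_mul, mul_assoc]
        exact mul_le_mul_of_nonneg_left (hτ1 i (by simpa using hi)) hvq.le) hfin'
    have e2 : ∑ i ∈ Dᶜ, ((M' i : K) + (N' i : K) * a) * zz (P i) =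
        (q : K) * ∑ i ∈ Dᶜ, (τ i : K) * zz (P i) := by
      rw [Finset.mul_sum]
      refine Finset.sum_congr rfl fun i _ => ?_
      rw [← hqτ i]; ring
    rw [e2, map_mul] at hL
    exact lt_of_mul_lt_mul_left hL hvq.le
  · push Not at hex
    have hz : ∑ i ∈ Dᶜ, (τ i : K) * zz (P i) = 0 := by
      refine Finset.sum_eq_zero fun i hi => ?_
      have h0 : P i = 0 := hex i (by simpa using hi)
      have h0' : zz (P i) = 0 := by
        rw [h0]
        rfl
      rw [h0', mul_zero]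
    rw [hz, map_zero]
    exact hΘ

end REL2_

theorem p_REL2 (h1 : T_LEM2) (h2 : PKD.T_END) (h3 : PKD.T_QUA) : T_REL2 := by
  intro K _ _ _ a4 a6 g e P hrel
  rcases hrel with ⟨M, hM, htor⟩ | ⟨ω, t, n, α, M, N, halg, htn, hω, hα, hLI, htor⟩
  · refine ⟨0, 0, 0, by simp, ?_⟩
    refine REL2_.core h1 K a4 a6 g e P 0 0 0 0 (by simp) (fun Q => by simp) ?_ M (fun _ _ => 0)
      ?_ ?_ ?_
    · intro r s hrs Q
      have hr : (r : K) = 0 := by simpa using hrs
      have hr' : r = 0 := by exact_mod_cast hr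
      rw [hr']
      simp
    · have h := p_ZLI K e g M hM
      simpa using h
    · intro k
      have h := htor k
      simpa using h
    · intro p v R _ _
      refine ⟨R, 0, le_rfl, le_rfl, fun Q _ _ => ⟨trivial, ?_⟩⟩
      have hz : zz ((0 : (curve 0 a4 a6).Point →+ (curve 0 a4 a6).Point) Q) = 0 := rfl
      rw [hz]
      simp
  · obtain ⟨a0, ha0⟩ := h2 K a4 a6 ω halg
    by_cases hex : ∃ (p : ℕ) (v : AbsoluteValue K ℝ) (R : ℝ), Cx p v R a4 a6 ∧
        ∃ Q : (curve 0 a4 a6).Point, Q ≠ 0 ∧ InE v R Q ∧ R ^ 2 * v (zz Q) ^ 4 < v (p : K)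
    · obtain ⟨p, v, R, hctx, hst⟩ := hex
      obtain ⟨hne, B, C, hB, hC, hest⟩ := ha0 p v R hctx hst
      have ha := h3 K p v R a4 a6 hctx ω t n hω hst a0 B C hne hB hC hest
      refine ⟨a0, t, n, ha, ?_⟩
      refine REL2_.core h1 K a4 a6 g e P ω a0 t n ha hω ?_ M N
        (p_CNJ p_QFD K t n α a0 htn hα ha e g M N hLI) htor ?_
      · intro r s hrs Q
        obtain ⟨hr, hs⟩ := LOC_.form_zero htn ha hrs
        rw [hr, hs, zero_smul, zero_smul, add_zero]
      · intro p' v' R' hctx' hst'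
        obtain ⟨_, B', C', hB', hC', hest'⟩ := ha0 p' v' R' hctx' hst'
        exact ⟨B', C', hB', hC', fun Q hQ hQB => ⟨(hest' Q hQ hQB).1, (hest' Q hQ hQB).2.2⟩⟩
    · refine ⟨α, t, n, hα, ?_⟩
      refine REL2_.core h1 K a4 a6 g e P ω α t n hα hω ?_ M N hLI htor ?_
      · intro r s hrs Q
        obtain ⟨hr, hs⟩ := LOC_.form_zero htn hα hrs
        rw [hr, hs, zero_smul, zero_smul, add_zero]
      · intro p' v' R' hctx' hst'
        exact (hex ⟨p', v', R', hctx', hst'⟩).elim

end PKS
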