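import Pool.Agent.PKS.Targets
import Pool.Agent.PKD.RES
import Pool.Agent.RD.QFD

set_option autoImplicit false

/-!
# PKS, RS2: residues of elements of a quadratic field times a power of `√p`
-/

namespace PKS

open MvPolynomial RD PKD

namespace RS2_

variable {Ω : Type} [Field Ω] [CharZero Ω] {v : AbsoluteValue Ω ℝ}

lemma int_dec {p : ℕ} (hp : p.Prime) (m : ℤ) (hm : m ≠ 0) :
    ∃ (j : ℕ) (m' : ℤ), m = (p : ℤ) ^ j * m' ∧ IsCoprime m' (p : ℤ) := by
  obtain ⟨j, m', h1, h2⟩ := Nat.exists_eq_pow_mul_and_not_dvd (Int.natAbs_ne_zero.mpr hm) p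
    hp.ne_one
  have hc : Nat.Coprime m' p := ((Nat.Prime.coprime_iff_not_dvd hp).mpr h1).symm
  have hc' : IsCoprime (m' : ℤ) (p : ℤ) := Nat.isCoprime_iff_coprime.mpr hc
  rcases Int.natAbs_eq m with h | h
  · refine ⟨j, m', ?_, hc'⟩
    rw [h, h2]
    push_cast
    ring
  · refine ⟨j, -m', ?_, hc'.neg_left⟩
    rw [h, h2]
    push_cast
    ring

lemma rat_val (na : IsNonarchimedean v) {p : ℕ} (hp : p.Prime) (hvp : v (p : Ω) < 1) (c : Ω)
    (a b : ℤ) (ha : a ≠ 0) (hb : b ≠ 0) (h : (b : Ω) * c = a) :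
    ∃ (i l : ℕ) (a' b' : ℤ), IsCoprime a' (p : ℤ) ∧ IsCoprime b' (p : ℤ) ∧
      (p : Ω) ^ l * ((b' : Ω) * c) = (p : Ω) ^ i * a' ∧ v (p : Ω) ^ l * v c = v (p : Ω) ^ i := by
  obtain ⟨i, a', ha1, ha2⟩ := int_dec hp a ha
  obtain ⟨l, b', hb1, hb2⟩ := int_dec hp b hb
  have h1 : (p : Ω) ^ l * ((b' : Ω) * c) = (p : Ω) ^ i * a' := by
    rw [ha1, hb1] at h
    push_cast at h
    rw [← h]
    ring
  refine ⟨i, l, a', b', ha2, hb2, h1, ?_⟩
  have h2 := congrArg v h1
  rw [v.map_mul, v.map_mul, v.map_mul, v.map_pow, v.map_pow, na_coprime na hvp ha2,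
    na_coprime na hvp hb2, one_mul, mul_one] at h2
  exact h2

/-- the value of a rational number is an even power -/
lemma rat_even (na : IsNonarchimedean v) {p : ℕ} (hp : p.Prime) (hvp : v (p : Ω) < 1) (u : ℝ)
    (hu : u ^ 2 = v (p : Ω)) (c : Ω) (a b : ℤ) (ha : a ≠ 0) (hb : b ≠ 0)
    (h : (b : Ω) * c = a) : ∃ j : ℤ, v c = u ^ (2 * j) := by
  obtain ⟨i, l, _, _, _, _, _, h2⟩ := rat_val na hp hvp c a b ha hb h
  have hp0 : v (p : Ω) ≠ 0 := (v.pos (Nat.cast_ne_zero.2 hp.ne_zero)).ne'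
  refine ⟨(i : ℤ) - l, ?_⟩
  rw [zpow_mul, zpow_ofNat, hu, zpow_sub₀ hp0, zpow_natCast, zpow_natCast, eq_div_iff
    (pow_ne_zero _ hp0), mul_comm]
  exact h2

/-- the residue of a rational number of value one is in the prime field -/
lemma rat_res {k : Type} [Field k] {r : Ω → k} (hr : Red v r) {p : ℕ} (hp : p.Prime)
    (hvp : v (p : Ω) < 1) (c : Ω) (a b : ℤ) (ha : a ≠ 0) (hb : b ≠ 0) (h : (b : Ω) * c = a)
    (hc : v c = 1) : r c ^ p = r c := by
  haveI hF : Fact p.Prime := ⟨hp⟩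
  haveI hC : CharP k p := hr.charP hp hvp
  obtain ⟨i, l, a', b', ha2, hb2, h1, h2⟩ := rat_val hr.na hp hvp c a b ha hb h
  have hp0 : 0 < v (p : Ω) := v.pos (Nat.cast_ne_zero.2 hp.ne_zero)
  rw [hc, mul_one] at h2
  have hil : l = i := by
    exact (pow_right_injective₀ hp0 hvp.ne) h2
  rw [hil] at h1
  have h3 : (b' : Ω) * c = a' :=
    mul_left_cancel₀ (pow_ne_zero _ (Nat.cast_ne_zero.2 hp.ne_zero)) h1
  have h4 := congrArg r h3
  rw [hr.mul _ _ (na_int hr.na b') hc.le, hr.int, hr.int] at h4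
  have hb0 : (b' : k) ≠ 0 := by
    rw [← hr.int]
    intro h0
    have h5 := (hr.ker _ (na_int hr.na b')).1 h0
    rw [na_coprime hr.na hvp hb2] at h5
    exact lt_irrefl _ h5
  have h5 : r c = (a' : k) / b' := by
    rw [eq_div_iff hb0, mul_comm]
    exact h4
  rw [h5, div_pow, RES_.int_pow p a', RES_.int_pow p b']

/-- integral powers of `p` up to a denominator -/
lemma zp {p : ℕ} (hp : p.Prime) (e : ℤ) :
    (p : Ω) ^ ((-e).toNat) * (p : Ω) ^ e = (p : Ω) ^ (e.toNat) := by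
  have hp0 : (p : Ω) ≠ 0 := Nat.cast_ne_zero.2 hp.ne_zero
  rw [← zpow_natCast, ← zpow_natCast, ← zpow_add₀ hp0]
  congr 1
  omega

end RS2_

open RS2_ in
theorem p_RS2 (h : PKD.T_RES) (_h' : T_VAL) : T_RS2 := by
  intro Ω k _ _ _ p v r hr hp hp3 hvp a sp t n ha hsp τ hτ e hy1
  haveI hF : Fact p.Prime := ⟨hp⟩
  have hpΩ : (p : Ω) ≠ 0 := Nat.cast_ne_zero.2 hp.ne_zero
  have hsp0 : sp ≠ 0 := by
    rintro rfl
    rw [zero_pow two_ne_zero] at hsp
    exact hpΩ hsp.symm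
  have hu0 : 0 < v sp := v.pos hsp0
  have hu2 : v sp ^ 2 = v (p : Ω) := by rw [← v.map_pow, hsp]
  have hu1 : v sp < 1 := by
    by_contra hc
    push Not at hc
    have : 1 ≤ v sp ^ 2 := one_le_pow₀ hc
    rw [hu2] at this
    linarith
  rcases hy1.lt_or_eq with hlt | heq
  · have h0 : r (τ * sp ^ e) = 0 := (hr.ker _ hy1).2 hlt
    rw [h0]
    exact zero_pow (pow_ne_zero 2 hp.ne_zero)
  have hτ0 : τ ≠ 0 := by
    rintro rfl
    rw [zero_mul, v.map_zero] at heq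
    exact zero_ne_one heq
  obtain ⟨q, r', s, hq0, hq⟩ := RD.p_QFD Ω a t n ha τ hτ
  have hqΩ : (q : Ω) ≠ 0 := Int.cast_ne_zero.2 hq0
  rcases Int.even_or_odd' e with ⟨e', he | he⟩
  · -- even exponent
    have hy : sp ^ e = (p : Ω) ^ e' := by
      rw [he, zpow_mul, zpow_ofNat, hsp]
    rw [hy] at hy1 ⊢
    refine h Ω k p v r hr hp hvp a (τ * (p : Ω) ^ e') t n (q * (p : ℤ) ^ ((-e').toNat))
      (r' * (p : ℤ) ^ (e'.toNat)) (s * (p : ℤ) ^ (e'.toNat)) ha
      (mul_ne_zero hq0 (pow_ne_zero _ (by exact_mod_cast hp.ne_zero))) ?_ hy1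
    push_cast
    have h1 := zp (Ω := Ω) hp e'
    calc (q : Ω) * (p : Ω) ^ ((-e').toNat) * (τ * (p : Ω) ^ e')
        = ((q : Ω) * τ) * ((p : Ω) ^ ((-e').toNat) * (p : Ω) ^ e') := by ring
      _ = (r' + s * a) * (p : Ω) ^ (e'.toNat) := by rw [hq, h1]
      _ = _ := by ring
  · -- odd exponent
    set T : Ω := ((2 * r' + s * t : ℤ) : Ω) / q with hT
    set M : Ω := ((r' ^ 2 + s * t * r' + s ^ 2 * n : ℤ) : Ω) / (q : Ω) ^ 2 with hM
    have hTq : (q : Ω) * T = ((2 * r' + s * t : ℤ) : Ω) := by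
      rw [hT]
      field_simp
    have hMq : ((q ^ 2 : ℤ) : Ω) * M = ((r' ^ 2 + s * t * r' + s ^ 2 * n : ℤ) : Ω) := by
      rw [hM]
      push_cast
      field_simp
    have hquad : τ ^ 2 = T * τ - M := by
      have e1 : (s : Ω) * a = q * τ - r' := by rw [hq]; ring
      have e2 : ((q : Ω) * τ - r') ^ 2 = s * t * (q * τ - r') - s ^ 2 * n := by
        rw [← e1, mul_pow, ha]
        ring
      have e3 : (q : Ω) ^ 2 * τ ^ 2 = (q : Ω) ^ 2 * (T * τ - M) := by
        have e4 : (q : Ω) ^ 2 * (T * τ - M) = q * (q * T) * τ - ((q ^ 2 : ℤ) : Ω) * M := by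
          push_cast
          ring
        rw [e4, hTq, hMq]
        push_cast
        linear_combination e2
      exact mul_left_cancel₀ (pow_ne_zero 2 hqΩ) e3
    -- sizes
    have hvτ : v τ = v sp ^ (-e) := by
      rw [v.map_mul, map_zpow₀] at heq
      rw [zpow_neg]
      exact eq_inv_of_mul_eq_one_left heq
    have hinj : ∀ i j : ℤ, v sp ^ i = v sp ^ j → i = j := fun i j hij =>
      zpow_right_injective₀ hu0 hu1.ne hij
    have hTodd : T = 0 ∨ ∃ l : ℤ, v T = v sp ^ (2 * l) := by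
      by_cases h0 : (2 * r' + s * t : ℤ) = 0
      · left
        rw [hT, h0, Int.cast_zero, zero_div]
      · right
        exact rat_even hr.na hp hvp (v sp) hu2 T _ q h0 hq0 hTq
    have hM0' : (r' ^ 2 + s * t * r' + s ^ 2 * n : ℤ) ≠ 0 := by
      intro h0
      have hM0 : M = 0 := by rw [hM, h0, Int.cast_zero, zero_div]
      rw [hM0, sub_zero, pow_two] at hquad
      have hτT : τ = T := mul_right_cancel₀ hτ0 hquad
      rcases hTodd with h1 | ⟨l, h1⟩
      · exact hτ0 (hτT.trans h1)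
      · rw [← hτT, hvτ] at h1
        have := hinj _ _ h1
        omega
    have hq2 : (q ^ 2 : ℤ) ≠ 0 := pow_ne_zero 2 hq0
    obtain ⟨m, hm⟩ := rat_even hr.na hp hvp (v sp) hu2 M _ (q ^ 2) hM0' hq2 hMq
    have hTlt : v T < v τ := by
      rcases hTodd with h1 | ⟨l, h1⟩
      · rw [h1, v.map_zero]
        exact v.pos hτ0
      · rcases lt_trichotomy (v T) (v τ) with h2 | h2 | h2
        · exact h2
        · rw [h1, hvτ] at h2
          have := hinj _ _ h2
          omega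
        · exfalso
          have h3 : M = τ * (T + -τ) := by
            linear_combination hquad
          have h4 := congrArg v h3
          rw [v.map_mul, na_eq hr.na (by rw [v.map_neg]; exact h2), hm, hvτ, h1,
            ← zpow_add₀ hu0.ne'] at h4
          have := hinj _ _ h4
          omega
    -- the square
    have hsq : (τ * sp ^ e) ^ 2 = T * τ * (p : Ω) ^ e + -(M * (p : Ω) ^ e) := by
      have h1 : (sp ^ e) ^ 2 = (p : Ω) ^ e := by
        rw [← zpow_natCast, ← zpow_mul, mul_comm, zpow_mul]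
        congr 1
        rw [zpow_natCast]
        exact hsp
      rw [mul_pow, h1, hquad]
      ring
    have hpe : v ((p : Ω) ^ e) = v sp ^ (2 * e) := by
      rw [map_zpow₀, ← hu2, zpow_mul, zpow_ofNat]
    have hτ2 : v τ * v τ * v ((p : Ω) ^ e) = 1 := by
      rw [hvτ, hpe, ← zpow_add₀ hu0.ne', ← zpow_add₀ hu0.ne']
      have : -e + -e + 2 * e = 0 := by ring
      rw [this, zpow_zero]
    have hpe0 : 0 < v ((p : Ω) ^ e) := v.pos (zpow_ne_zero _ hpΩ)
    have hsmall : v (T * τ * (p : Ω) ^ e) < 1 := by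
      rw [v.map_mul, v.map_mul, ← hτ2]
      exact mul_lt_mul_of_pos_right (mul_lt_mul_of_pos_right hTlt (v.pos hτ0)) hpe0
    have hMe : v (M * (p : Ω) ^ e) = 1 := by
      have h1 : v ((τ * sp ^ e) ^ 2) = 1 := by rw [v.map_pow, heq, one_pow]
      have h2 : -(M * (p : Ω) ^ e) = (τ * sp ^ e) ^ 2 + -(T * τ * (p : Ω) ^ e) := by
        rw [hsq]
        ring
      have h3 := congrArg v h2
      rw [v.map_neg, na_eq hr.na (by rw [v.map_neg, h1]; exact hsmall), h1] at h3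
      exact h3
    have hres : r (τ * sp ^ e) ^ 2 = -r (M * (p : Ω) ^ e) := by
      rw [← hr.pow hy1, hsq, hr.add _ _ hsmall.le (by rw [v.map_neg]; exact hMe.le),
        (hr.ker _ hsmall.le).2 hsmall, zero_add, hr.neg hMe.le]
    have hc : r (M * (p : Ω) ^ e) ^ p = r (M * (p : Ω) ^ e) := by
      have hpZ : (p : ℤ) ≠ 0 := by exact_mod_cast hp.ne_zero
      refine rat_res hr hp hvp _ ((r' ^ 2 + s * t * r' + s ^ 2 * n) * (p : ℤ) ^ (e.toNat))
        (q ^ 2 * (p : ℤ) ^ ((-e).toNat)) (mul_ne_zero hM0' (pow_ne_zero _ hpZ))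
        (mul_ne_zero hq2 (pow_ne_zero _ hpZ)) ?_ hMe
      have h1 := zp (Ω := Ω) hp e
      rw [Int.cast_mul, Int.cast_mul, ← hMq]
      push_cast
      calc (q : Ω) ^ 2 * (p : Ω) ^ ((-e).toNat) * (M * (p : Ω) ^ e)
          = (q : Ω) ^ 2 * M * ((p : Ω) ^ ((-e).toNat) * (p : Ω) ^ e) := by ring
        _ = _ := by rw [h1]
    have hodd : Odd p := hp.odd_of_ne_two (by omega)
    set Y : k := r (τ * sp ^ e) with hY
    have hYp : (Y ^ p) ^ 2 = Y ^ 2 := by
      rw [← pow_mul, mul_comm p 2, pow_mul, hres, hodd.neg_pow, hc]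
    have hfac : (Y ^ p - Y) * (Y ^ p + Y) = 0 := by
      linear_combination hYp
    rcases mul_eq_zero.1 hfac with h1 | h1
    · have h2 : Y ^ p = Y := sub_eq_zero.1 h1
      rw [pow_two, pow_mul, h2, h2]
    · have h2 : Y ^ p = -Y := eq_neg_of_add_eq_zero_left h1
      rw [pow_two, pow_mul, h2, hodd.neg_pow, h2, neg_neg]

end PKS
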