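import Pool.Agent.PKS.Targets
import Mathlib

/-!
# SCL: a choice of elements of every size
-/

set_option autoImplicit false

namespace PKS

namespace SCL_

/-- sizes which differ by a power of `q` -/
def st (q : ℝ) (hq : q ≠ 0) : Setoid ℝ where
  r t t' := ∃ e : ℤ, t = t' * q ^ e
  iseqv := by
    refine ⟨fun t => ⟨0, by simp⟩, ?_, ?_⟩
    · rintro t t' ⟨e, he⟩
      refine ⟨-e, ?_⟩
      rw [he, mul_assoc, ← zpow_add₀ hq]
      simp
    · rintro t t' t'' ⟨e, he⟩ ⟨f, hf⟩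
      refine ⟨f + e, ?_⟩
      rw [he, hf, mul_assoc, ← zpow_add₀ hq]

open Classical in
/-- the representative -/
noncomputable def rep (q : ℝ) (hq : q ≠ 0) (t0 t : ℝ) : ℝ :=
  if ∃ e : ℤ, t = t0 * q ^ e then t0 else (Quotient.mk (st q hq) t).out

lemma rep_rel (q : ℝ) (hq : q ≠ 0) (t0 t : ℝ) : ∃ e : ℤ, t = rep q hq t0 t * q ^ e := by
  unfold rep
  split_ifs with h
  · exact h
  · have h1 : (st q hq).r (Quotient.mk (st q hq) t).out t := Quotient.mk_out (s := st q hq) t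
    exact (st q hq).symm' h1

lemma rep_congr (q : ℝ) (hq : q ≠ 0) (t0 t : ℝ) (e : ℤ) :
    rep q hq t0 (t * q ^ e) = rep q hq t0 t := by
  have hiff : (∃ f : ℤ, t * q ^ e = t0 * q ^ f) ↔ ∃ f : ℤ, t = t0 * q ^ f := by
    constructor
    · rintro ⟨f, hf⟩
      refine ⟨f - e, ?_⟩
      rw [zpow_sub₀ hq, ← mul_div_assoc, ← hf, mul_div_cancel_right₀ _ (zpow_ne_zero _ hq)]
    · rintro ⟨f, hf⟩
      refine ⟨f + e, ?_⟩
      rw [hf, mul_assoc, ← zpow_add₀ hq]
  unfold rep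
  by_cases h : ∃ f : ℤ, t = t0 * q ^ f
  · rw [if_pos h, if_pos (hiff.2 h)]
  · rw [if_neg h, if_neg (fun h' => h (hiff.1 h'))]
    have : (Quotient.mk (st q hq) (t * q ^ e)) = Quotient.mk (st q hq) t :=
      Quotient.sound (s := st q hq) ⟨e, rfl⟩
    rw [this]

end SCL_

open SCL_ Classical in
theorem p_SCL : T_SCL := by
  intro Ω _ v sp y0 hsp hsp1 hy0
  have hq0 : 0 < v sp := v.pos hsp
  have hq : v sp ≠ 0 := hq0.ne'
  set q := v sp with hqdef
  have hinj : Function.Injective fun e : ℤ => q ^ e := zpow_right_injective₀ hq0 hsp1.ne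
  have hvpow : ∀ e : ℤ, v (sp ^ e) = q ^ e := fun e => map_zpow₀ v sp e
  let t0 := v y0
  have ht0 : t0 ≠ 0 := (v.pos hy0).ne'
  let Y : ℝ → Ω := fun r => if r = t0 then y0 else
    if h : ∃ y : Ω, y ≠ 0 ∧ v y = r then h.choose else 0
  let ex : ℝ → ℤ := fun t => (rep_rel q hq t0 t).choose
  have hex : ∀ t, t = rep q hq t0 t * q ^ (ex t) := fun t => (rep_rel q hq t0 t).choose_spec
  have hY : ∀ y : Ω, y ≠ 0 → v (Y (v y)) = v y := by
    intro y hy
    simp only [Y]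
    split_ifs with h1 h2
    · exact h1.symm
    · exact h2.choose_spec.2
    · exact absurd ⟨y, hy, rfl⟩ h2
  have hrep : ∀ y : Ω, y ≠ 0 → ∃ y' : Ω, y' ≠ 0 ∧ v y' = rep q hq t0 (v y) := by
    intro y hy
    refine ⟨y * sp ^ (-(ex (v y))), mul_ne_zero hy (zpow_ne_zero _ hsp), ?_⟩
    have h1 := hex (v y)
    rw [map_mul, hvpow, zpow_neg, ← div_eq_mul_inv, div_eq_iff (zpow_ne_zero _ hq)]
    exact h1
  have huniq : ∀ t : ℝ, t ≠ 0 → ∀ e : ℤ, t = rep q hq t0 t * q ^ e → e = ex t := by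
    intro t ht e he
    have h1 := hex t
    have hr : rep q hq t0 t ≠ 0 := by
      intro h0
      rw [h0, zero_mul] at h1
      exact ht h1
    have h2 : rep q hq t0 t * q ^ e = rep q hq t0 t * q ^ (ex t) := by rw [← he, ← h1]
    exact hinj (mul_left_cancel₀ hr h2)
  refine ⟨fun t => Y (rep q hq t0 t) * sp ^ (ex t), ?_, ?_, ?_⟩
  · have h1 : rep q hq t0 t0 = t0 := by
      unfold rep
      rw [if_pos ⟨0, by simp⟩]
    have h2 : ex t0 = 0 := by
      symm
      apply huniq t0 ht0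
      rw [h1]; simp
    show Y (rep q hq t0 t0) * sp ^ (ex t0) = y0
    rw [h1, h2]
    simp [Y]
  · intro y hy
    show v (Y (rep q hq t0 (v y)) * sp ^ (ex (v y))) = v y
    obtain ⟨y', hy', hvy'⟩ := hrep y hy
    rw [map_mul, hvpow, ← hvy', hY y' hy', hvy']
    exact (hex (v y)).symm
  · intro y hy e
    show Y (rep q hq t0 (v y * q ^ e)) * sp ^ (ex (v y * q ^ e)) =
      Y (rep q hq t0 (v y)) * sp ^ (ex (v y)) * sp ^ e
    have hvy : v y ≠ 0 := (v.pos hy).ne'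
    have h1 : ex (v y) + e = ex (v y * q ^ e) := by
      apply huniq _ (mul_ne_zero hvy (zpow_ne_zero _ hq))
      rw [rep_congr, zpow_add₀ hq, ← mul_assoc, ← hex (v y)]
    rw [rep_congr, ← h1, zpow_add₀ hsp, mul_assoc]

end PKS
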