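import Pool.Agent.PKS.Targets
import Pool.Agent.PKD.RedLem

/-!
# SIZ: sizes of the integral coordinates and of polynomials with support `V`
-/

set_option autoImplicit false

namespace PKS

open MvPolynomial RD PKD

namespace SIZ_

variable {Ω : Type} [Field Ω] {v : AbsoluteValue Ω ℝ}

/-- size of the values of a polynomial, the variables which occur are bounded by `M` -/
theorem gen_size (na : IsNonarchimedean v) {σ : Type} (q : MvPolynomial σ Ω)
    (hq : ∀ t, v (q.coeff t) ≤ 1) (e : ℕ) (he : q.totalDegree ≤ e) (M : ℝ) (hM : 1 ≤ M)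
    (y : σ → Ω) (hy : ∀ i ∈ q.vars, v (y i) ≤ M) : v (eval y q) ≤ M ^ e := by
  have hM0 : 0 ≤ M := by linarith
  rw [MvPolynomial.eval_eq]
  refine na_sum na _ _ _ (by positivity) fun t ht => ?_
  rw [v.map_mul]
  have h1 : v (∏ i ∈ t.support, y i ^ t i) ≤ M ^ e := by
    rw [map_prod]
    calc ∏ i ∈ t.support, v (y i ^ t i) ≤ ∏ i ∈ t.support, M ^ t i := by
          refine Finset.prod_le_prod (fun i _ => v.nonneg _) fun i hi => ?_
          rw [v.map_pow]
          exact pow_le_pow_left₀ (v.nonneg _) (hy i (MvPolynomial.mem_vars_iff_mem_support i |>.2 ⟨t, ht, hi⟩)) _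
      _ = M ^ (∑ i ∈ t.support, t i) := by rw [Finset.prod_pow_eq_pow_sum]
      _ ≤ M ^ e := by
          refine pow_le_pow_right₀ hM ((MvPolynomial.le_totalDegree ht).trans he)
  calc v (coeff t q) * v (∏ i ∈ t.support, y i ^ t i) ≤ 1 * M ^ e :=
        mul_le_mul (hq t) h1 (v.nonneg _) zero_le_one
    _ = M ^ e := one_mul _

end SIZ_

open SIZ_

theorem p_SIZ : T_SIZ := by
  intro Ω _ v na d n W ρ b hb x s hbase V M hM
  obtain ⟨hM1, hMV, -⟩ := hM
  have hM0 : 0 < M := by linarith
  have hs : ∀ j, W j ⊆ V → v (s j) ≤ M := by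
    intro j hj
    have hble : ∀ l, l < ρ j → v (eval x (b j l)) ≤ M ^ (ρ j - l) := fun l hl =>
      gen_size na _ (hb j l hl).2.2 _ (hb j l hl).1 M hM1 x
        fun i hi => hMV i (hj ((hb j l hl).2.1 hi))
    by_contra hlt
    push Not at hlt
    have hs0' : 0 < v (s j) := hM0.trans hlt
    have h3 := hbase j
    have h4 : v (∑ l ∈ Finset.range (ρ j), eval x (b j l) * s j ^ l) < v (s j) ^ ρ j := by
      refine na_sum_lt na _ _ _ (by positivity) fun l hl => ?_
      rw [Finset.mem_range] at hl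
      rw [v.map_mul, v.map_pow]
      calc v (eval x (b j l)) * v (s j) ^ l
          ≤ M ^ (ρ j - l) * v (s j) ^ l :=
            mul_le_mul_of_nonneg_right (hble l hl) (by positivity)
        _ < v (s j) ^ (ρ j - l) * v (s j) ^ l :=
            mul_lt_mul_of_pos_right (pow_lt_pow_left₀ hlt hM0.le (by omega)) (by positivity)
        _ = v (s j) ^ ρ j := by rw [← pow_add, Nat.sub_add_cancel hl.le]
    have h6 : s j ^ ρ j = -∑ l ∈ Finset.range (ρ j), eval x (b j l) * s j ^ l :=
      eq_neg_of_add_eq_zero_left h3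
    have h7 := congrArg v h6
    rw [v.map_neg, v.map_pow] at h7
    rw [← h7] at h4
    exact lt_irrefl _ h4
  refine ⟨hs, fun q e he hvars hq => gen_size na q hq e he M hM1 _ ?_⟩
  rintro (m | j) hi
  · exact hMV m (hvars _ hi)
  · exact hs j (hvars _ hi)

end PKS
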