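import Pool.Agent.PKS.Targets

set_option autoImplicit false

/-!
# PKS.UNQ: the echelon basis is determined by the pivots
-/

namespace PKS

theorem UNQ_.surj (F : Type) [Field F] (g : ℕ) (U : Submodule F (Fin g → F))
    (J : Finset (Fin g)) (τ : Fin g → Fin g → F)
    (h : ∀ j ∈ J, τ j ∈ U ∧ τ j j = 1 ∧ ∀ j' ∈ J, j' ≠ j → τ j j' = 0) :
    Function.Surjective ((LinearMap.funLeft F F (Subtype.val : J → Fin g)).comp U.subtype) := by
  intro c
  refine ⟨⟨∑ j : J, c j • τ j, Submodule.sum_mem _ (fun j _ => U.smul_mem _ (h j j.2).1)⟩, ?_⟩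
  funext j'
  simp only [LinearMap.coe_comp, Function.comp_apply, Submodule.subtype_apply,
    LinearMap.funLeft_apply, Finset.sum_apply, Pi.smul_apply, smul_eq_mul]
  rw [Finset.sum_eq_single j']
  · rw [(h j' j'.2).2.1, mul_one]
  · intro j _ hj
    rw [(h j j.2).2.2 j' j'.2 (fun e => hj (Subtype.ext e.symm)), mul_zero]
  · intro hj
    exact absurd (Finset.mem_univ _) hj

theorem p_UNQ : T_UNQ := by
  intro F _ g U J hJ τ τ' h h' j hj
  have hs := UNQ_.surj F g U J τ h
  have hf : Module.finrank F U = Module.finrank F (J → F) := by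
    rw [Module.finrank_fintype_fun_eq_card, Fintype.card_coe, hJ]
  have hi := (LinearMap.injective_iff_surjective_of_finrank_eq_finrank hf).2 hs
  have key : (⟨τ j, (h j hj).1⟩ : U) = ⟨τ' j, (h' j hj).1⟩ := by
    apply hi
    funext j'
    simp only [LinearMap.coe_comp, Function.comp_apply, Submodule.subtype_apply,
      LinearMap.funLeft_apply]
    by_cases e : (j' : Fin g) = j
    · rw [e, (h j hj).2.1, (h' j hj).2.1]
    · rw [(h j hj).2.2 j' j'.2 e, (h' j hj).2.2 j' j'.2 e]
  exact congrArg Subtype.val key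

end PKS
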