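import Mathlib
import Pool.Agent.PKS.Targets
import Pool.Agent.PKD.RedLem
import Pool.Agent.RD.QFD

/-!
# PKS-VAL: values of the elements of a quadratic field are powers of the root of `p`
-/

set_option autoImplicit false

namespace PKS

open RD PKD

namespace VAL_

variable {Ω : Type} [Field Ω] {v : AbsoluteValue Ω ℝ}

/-- the value of a nonzero integer -/
theorem int_val (na : IsNonarchimedean v) {p : ℕ} (hp : p.Prime) (hvp : v (p : Ω) < 1)
    {n : ℤ} (hn : n ≠ 0) : ∃ e : ℤ, v (n : Ω) = v (p : Ω) ^ e := by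
  obtain ⟨e, m, hm, he⟩ := Nat.exists_eq_pow_mul_and_not_dvd (Int.natAbs_ne_zero.2 hn) p
    hp.one_lt.ne'
  have hcop : IsCoprime (m : ℤ) (p : ℤ) := by
    rw [Nat.isCoprime_iff_coprime]
    exact ((Nat.Prime.coprime_iff_not_dvd hp).2 hm).symm
  have h1 : v ((m : ℤ) : Ω) = 1 := na_coprime na hvp hcop
  have h2 : v (n : Ω) = v ((n.natAbs : ℕ) : Ω) := by
    rcases Int.natAbs_eq n with h | h
    · rw [h]
      simp
    · rw [h]
      simp
  refine ⟨e, ?_⟩
  rw [h2, he]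
  push_cast
  rw [v.map_mul, v.map_pow, zpow_natCast]
  have h3 : v (m : Ω) = 1 := by simpa using h1
  rw [h3, mul_one]

/-- the value of a nonzero quotient of integers -/
theorem quo_val [CharZero Ω] (na : IsNonarchimedean v) {p : ℕ} (hp : p.Prime)
    (hvp : v (p : Ω) < 1) {n q : ℤ} (hn : n ≠ 0) (hq : q ≠ 0) :
    ∃ e : ℤ, v ((n : Ω) / (q : Ω)) = v (p : Ω) ^ e := by
  obtain ⟨e, he⟩ := int_val na hp hvp hn
  obtain ⟨f, hf⟩ := int_val na hp hvp hq
  have hp0 : v (p : Ω) ≠ 0 := by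
    rw [v.ne_zero_iff]
    exact_mod_cast hp.ne_zero
  refine ⟨e - f, ?_⟩
  rw [map_div₀, he, hf, zpow_sub₀ hp0]

end VAL_

open VAL_ in
/-- **PKS-VAL** -/
theorem p_VAL : T_VAL := by
  intro Ω _ _ p v na hp hvp a sp t n ha hsp τ hτ hτ0
  have hpΩ : (p : Ω) ≠ 0 := by exact_mod_cast hp.ne_zero
  have hp0 : v (p : Ω) ≠ 0 := v.ne_zero_iff.2 hpΩ
  have hsp0 : sp ≠ 0 := by
    intro h
    rw [h] at hsp
    exact hpΩ (by rw [← hsp]; ring)
  have hvsp : 0 < v sp := v.pos hsp0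
  have hps : v (p : Ω) = v sp ^ 2 := by rw [← hsp, v.map_pow]
  -- powers of `v p` are powers of `v sp`
  have hpow : ∀ e : ℤ, v (p : Ω) ^ e = v sp ^ (2 * e) := by
    intro e
    rw [hps, zpow_mul]
    norm_cast
  obtain ⟨q, r, s, hq, h⟩ := p_QFD Ω a t n ha τ hτ
  have hqΩ : (q : Ω) ≠ 0 := by exact_mod_cast hq
  have hN : ((r : Ω) + s * a) * (r + s * t - s * a) = r ^ 2 + r * s * t + s ^ 2 * n := by
    linear_combination (-(s : Ω) ^ 2) * ha
  set τ' : Ω := ((r : Ω) + s * t - s * a) / q with hτ'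
  have hτe : τ = ((r : Ω) + s * a) / q := by
    rw [eq_div_iff hqΩ, ← h]; ring
  have hT : τ + τ' = ((2 * r + s * t : ℤ) : Ω) / (q : Ω) := by
    rw [hτe, hτ']
    push_cast
    field_simp
    ring
  have hM : τ * τ' = ((r ^ 2 + r * s * t + s ^ 2 * n : ℤ) : Ω) / ((q ^ 2 : ℤ) : Ω) := by
    rw [hτe, hτ', div_mul_div_comm, hN]
    push_cast
    ring
  by_cases hm : r ^ 2 + r * s * t + s ^ 2 * n = 0
  · -- `τ' = 0`, `τ` is rational
    rw [hm, Int.cast_zero, zero_div] at hM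
    have h0 : τ' = 0 := (mul_eq_zero.1 hM).resolve_left hτ0
    rw [h0, add_zero] at hT
    have h1 : (2 * r + s * t : ℤ) ≠ 0 := by
      intro h2
      rw [h2, Int.cast_zero, zero_div] at hT
      exact hτ0 hT
    obtain ⟨e, he⟩ := quo_val (v := v) na hp hvp h1 hq
    exact ⟨2 * e, by rw [hT, he, hpow]⟩
  · obtain ⟨e, he⟩ := quo_val (v := v) na hp hvp hm (pow_ne_zero 2 hq)
    have hMv : v τ * v τ' = v sp ^ (2 * e) := by
      rw [← v.map_mul, hM, he, hpow]
    have hτ'0 : τ' ≠ 0 := by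
      intro h0
      rw [h0, v.map_zero, mul_zero] at hMv
      exact (zpow_ne_zero _ hvsp.ne') hMv.symm
    have hvτ : 0 < v τ := v.pos hτ0
    have hvτ' : 0 < v τ' := v.pos hτ'0
    rcases lt_trichotomy (v τ) (v τ') with hlt | heq | hgt
    · have hTv : v (τ + τ') = v τ' := by rw [add_comm]; exact na_eq na hlt
      have h1 : (2 * r + s * t : ℤ) ≠ 0 := by
        intro h2
        rw [h2, Int.cast_zero, zero_div] at hT
        rw [hT, v.map_zero] at hTv
        exact hvτ'.ne hTv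
      obtain ⟨f, hf⟩ := quo_val (v := v) na hp hvp h1 hq
      rw [hT, hf, hpow] at hTv
      refine ⟨2 * e - 2 * f, ?_⟩
      rw [zpow_sub₀ hvsp.ne', hTv, ← hMv]
      field_simp
    · refine ⟨e, ?_⟩
      rw [← heq] at hMv
      have h1 : (v τ) ^ 2 = (v sp ^ e) ^ 2 := by
        rw [sq, hMv, two_mul, zpow_add₀ hvsp.ne', sq]
      exact (pow_left_inj₀ hvτ.le (zpow_pos hvsp e).le (by norm_num)).1 h1
    · have hTv : v (τ + τ') = v τ := na_eq na hgt
      have h1 : (2 * r + s * t : ℤ) ≠ 0 := by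
        intro h2
        rw [h2, Int.cast_zero, zero_div] at hT
        rw [hT, v.map_zero] at hTv
        exact hvτ.ne hTv
      obtain ⟨f, hf⟩ := quo_val (v := v) na hp hvp h1 hq
      rw [hT, hf, hpow] at hTv
      exact ⟨2 * f, hTv.symm⟩

end PKS
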