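import Pool.Agent.PKD.All
import Pool.Agent.PKE.All
import Pool.Agent.PKS.LEM2
import Pool.Agent.PKS.REL2
import Pool.Agent.PKS.WPV
import Pool.Agent.PKS.UNQ
import Pool.Agent.PKS.VAL
import Pool.Agent.PKS.RS2
import Pool.Agent.PKS.SCL
import Pool.Agent.PKS.SIZ
import Pool.Agent.PKS.PLT
import Pool.Agent.PKS.BSE
import Pool.Agent.PKS.ELI2
import Pool.Agent.PKS.DEG
import Pool.Agent.PKS.CRE2
import Pool.Agent.PKS.FIN

/-! Assembly of project PKS. -/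

set_option autoImplicit false

namespace PKS

theorem all_REL2 : T_REL2 :=
  p_REL2 (p_LEM2 PKD.all_NSM PKD.all_SUM) (PKD.p_END PKD.all_NSM) (PKD.p_QUA PKD.all_NSM PKD.all_ADD)
theorem all_RS2 : T_RS2 := p_RS2 PKD.p_RES p_VAL
theorem all_CRS : T_CRS :=
  p_CRS all_REL2 p_WPV p_UNQ p_VAL all_RS2 (p_BSE p_SIZ) p_PLT p_SCL p_SIZ (p_ELI2 PKD.p_NFB) p_DEG
    PKD.p_CNT PKD.p_EXP PKD.p_ALM PKD.p_EMB
theorem all_FIN : T_FIN := p_FIN all_CRS PKE.all_SV3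

end PKS
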