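import Pool.Agent.PKS.PLS
import Pool.Agent.PKD.GRP
import Pool.Agent.RD.DIM

/-! From a bad multisection to the residue fields of all the embeddings. -/

set_option autoImplicit false
set_option maxHeartbeats 4000000

namespace PKS

open MvPolynomial RD PKD PKD.GRP_

theorem stp (hREL : T_REL2) (hWPV : T_WPV) (hUNQ : T_UNQ) (hVAL : T_VAL) (hRS : T_RS2)
    (hBSE : T_BSE) (hPLT : T_PLT) (hSCL : T_SCL) (hSIZ : T_SIZ) {Ω kk : Type} [Field Ω]
    [CharZero Ω] [IsAlgClosed Ω] [DecidableEq Ω] [Field kk] {p : ℕ} {v : AbsoluteValue Ω ℝ}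
    {r : Ω → kk} (hr : Red v r) (hp : p.Prime) (hp5 : 5 ≤ p) (hvp : v (p : Ω) < 1) {sp : Ω}
    (hsp : sp ^ 2 = (p : Ω)) {d n w D g N : ℕ} (hwD : w ≤ D) (hD : 1 ≤ D)
    (σ : Fin N → Ω →+* Ω)
    (V : Fin g → Finset (Fin d)) (W : Fin n → Finset (Fin d)) (ρ : Fin n → ℕ)
    (b : Fin n → ℕ → MvPolynomial (Fin d) Ω) (A B : MvPolynomial (Fin d ⊕ Fin n) Ω)
    (hb : ∀ j l, l < ρ j → (b j l).totalDegree ≤ ρ j - l ∧ (b j l).vars ⊆ W j)
    (hbi : ∀ i j l, l < ρ j → ∀ t, v (σ i ((b j l).coeff t)) ≤ 1)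
    (hA : A.totalDegree ≤ 2 * w ∧ ∀ i, ∀ t ∈ A.vars, Al W (V i) t)
    (hB : B.totalDegree ≤ 3 * w ∧ ∀ i, ∀ t ∈ B.vars, Al W (V i) t)
    (hAB : ∀ i t, v (σ i (A.coeff t)) ≤ 1 ∧ v (σ i (B.coeff t)) ≤ 1)
    (β : Ω) (c : Fin g × MonS d n D → Ω) (hβ0 : β ≠ 0)
    (hβ : ∀ i, v (σ i β) ≤ v (p : Ω)) (hc : ∀ i u, v (σ i (β * c u)) ≤ 1)
    (hcs : ∀ i α t, c (i, α) ≠ 0 → (α.1 t : ℕ) ≠ 0 → Al W (V i) t)
    (hbad : Bad D ρ b A B c) :
    ∃ dat : Ty g → Fin g → Fin g → kk, (∀ t i i', dat t i i' ^ (p ^ 2) = dat t i i') ∧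
      ∀ j : Fin N, ∃ t : Ty g, Disjoint t.2.2.1 t.2.2.2.1 ∧
        d + 1 ≤ t.2.2.1.card + t.2.2.2.1.card ∧
        ∃ (T : Typ d) (x' : Fin d → kk) (s' : Fin n → kk) (h : Fin g → kk), Tok T ∧
          OnBase ρ (bt (fun x => r (σ j x)) ρ b W T) x' s' ∧
          (∀ V Y m, T V = some Y → m ∈ Y → x' m ≠ 0) ∧
          (∀ i ∈ t.2.2.1, ∑ α : MonS d n D, r (σ j (β * c (i, α))) *
            eval (Sum.elim x' s') (ut kk W T (V i) α) = 0) ∧
          (∀ i, i ∉ t.2.2.1 → h i ^ 2 * ∑ α : MonS d n D, r (σ j (β * c (i, α))) *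
            eval (Sum.elim x' s') (ut kk W T (V i) α) = 1) ∧
          ∀ i ∈ t.2.2.2.1, h i = ∑ i' ∈ (t.2.2.1 ∪ t.2.2.2.1)ᶜ, dat t i i' * h i' := by
  classical
  obtain ⟨x, s, hon, P, hP, hrel⟩ := hbad
  obtain ⟨a, t, n', ha, U, hU, hR⟩ := hREL Ω _ _ g (d + 1) P hrel
  have hvp0 : 0 < v (p : Ω) := v.pos (Nat.cast_ne_zero.2 hp.ne_zero)
  have hsp0 : sp ≠ 0 := by
    rintro rfl
    rw [zero_pow two_ne_zero] at hsp
    exact (Nat.cast_ne_zero.2 hp.ne_zero) hsp.symm
  have hσsp : ∀ j, (σ j sp) ^ 2 = (p : Ω) := fun j => by rw [← map_pow, hsp, map_natCast]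
  have hvsp : ∀ j, v (σ j sp) ^ 2 = v (p : Ω) := fun j => by rw [← v.map_pow, hσsp]
  have hvsp1 : ∀ j, v (σ j sp) < 1 := by
    intro j
    by_contra hcon
    push Not at hcon
    have : 1 ≤ v (σ j sp) ^ 2 := one_le_pow₀ hcon
    rw [hvsp] at this
    linarith
  have hvspe : ∀ j j', v (σ j sp) = v (σ j' sp) := by
    intro j j'
    have : v (σ j sp) ^ 2 = v (σ j' sp) ^ 2 := by rw [hvsp, hvsp]
    exact (pow_left_inj₀ (v.nonneg _) (v.nonneg _) two_ne_zero).1 this
  have hvsp0 : ∀ j, 0 < v (σ j sp) := fun j => v.pos (by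
    intro h0
    have h1 := hσsp j
    rw [h0, zero_pow two_ne_zero] at h1
    exact (Nat.cast_ne_zero.2 hp.ne_zero) h1.symm)
  -- everything at one place
  have hplace := fun j : Fin N => place hBSE hPLT hSCL hSIZ (v := v.comp (σ j).injective)
    (r := fun x => r (σ j x)) (hr.comp (σ j)) hp hp5
    (by change v (σ j (p : Ω)) < 1; rw [map_natCast]; exact hvp) hsp hwD hD V W ρ b A B
    (fun i l hl => ⟨(hb i l hl).1, (hb i l hl).2, fun t => hbi j i l hl t⟩)
    ⟨hA.1, hA.2, fun t => (hAB j t).1⟩ ⟨hB.1, hB.2, fun t => (hAB j t).2⟩ β c hβ0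
    (by change v (σ j β) ≤ v (σ j (p : Ω)); rw [map_natCast]; exact hβ j)
    (fun u => hc j u) hcs x s hon P hP
  choose R S π T x' s' h hCx hπ hsc hE hTok hbase hx' hSeq hWeq using hplace
  have hvπ : ∀ j i, 0 < v (σ j (π j i)) := fun j i => v.pos (by
    rw [Ne, map_eq_zero]
    exact hπ j i)
  -- the pivots
  have hpiv := fun j : Fin N => hWPV (IntermediateField.adjoin ℚ {a})
    (fun x : (IntermediateField.adjoin ℚ {a}) => v (σ j (x : Ω))) (by simp)
    (fun x hx => v.pos (by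
      rw [Ne, map_eq_zero]
      intro h
      exact hx (Subtype.ext h)))
    (fun x y => by simp) (fun x y => by
      have := hr.na (σ j (x : Ω)) (σ j (y : Ω))
      rw [← map_add] at this
      exact this) g (fun i => v (σ j (π j i))) (hvπ j)
    (U ⊓ (⨅ i ∈ S j, LinearMap.ker (LinearMap.proj i : (Fin g → (IntermediateField.adjoin ℚ {a})) →ₗ[(IntermediateField.adjoin ℚ {a})] (IntermediateField.adjoin ℚ {a}))) :
        Submodule (IntermediateField.adjoin ℚ {a}) (Fin g → (IntermediateField.adjoin ℚ {a})))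
  choose J τ hJ hτ using hpiv
  have hmem : ∀ j, ∀ i ∈ J j, τ j i ∈ U ∧ ∀ i' ∈ S j, τ j i i' = 0 := by
    intro j i hi
    have h1 := (hτ j i hi).1
    rw [Submodule.mem_inf] at h1
    refine ⟨h1.1, ?_⟩
    intro i' hi'
    have h2 := h1.2
    simp only [Submodule.mem_iInf] at h2
    exact h2 i' hi'
  have hdis : ∀ j, Disjoint (S j) (J j) := by
    intro j
    rw [Finset.disjoint_left]
    intro i hi hi'
    have h1 := (hτ j i hi').2.1
    rw [(hmem j i hi').2 i hi] at h1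
    exact zero_ne_one h1
  have hdim : ∀ j, d + 1 ≤ (S j).card + (J j).card := by
    intro j
    have h1 := RD.p_DIM (IntermediateField.adjoin ℚ {a}) g U (S j)
    rw [hU, ← hJ j] at h1
    omega
  -- the comparable entries
  set Z : Fin N → Finset (Fin g × Fin g) := fun j => Finset.univ.filter fun q =>
    v (σ j (τ j q.1 q.2 : Ω)) * v (σ j (π j q.2)) = v (σ j (π j q.1)) with hZ
  have hZm : ∀ j i i', (i, i') ∈ Z j ↔
      v (σ j (τ j i i' : Ω)) * v (σ j (π j i')) = v (σ j (π j i)) := by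
    intro j i i'
    rw [hZ]
    simp
  set M : Fin N → Fin g → Fin g → kk := fun j i i' =>
    if i ∈ J j ∧ (i, i') ∈ Z j then -r (σ j ((τ j i i' : Ω) * (π j i' / π j i))) else 0 with hM
  set ty : Fin N → Ty g := fun j =>
    (decide (σ j a = a), decide (σ j sp = sp), S j, J j, Z j) with hty
  have key1 : ∀ j i i', (i, i') ∈ Z j → ∃ e : ℤ, π j i' / π j i = sp ^ (-e) ∧
      v (σ j (τ j i i' : Ω)) = v (σ j sp) ^ e := by
    intro j i i' hZ'
    rw [hZm] at hZ'
    have hne : (τ j i i' : Ω) ≠ 0 := by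
      intro h0
      rw [h0, map_zero, v.map_zero, zero_mul] at hZ'
      exact (hvπ j i).ne hZ'
    obtain ⟨e, he⟩ := hVAL Ω p (v.comp (σ j).injective) (hr.comp (σ j)).na hp
      (by change v (σ j (p : Ω)) < 1; rw [map_natCast]; exact hvp) a sp t n' ha hsp
      (τ j i i' : Ω) (τ j i i').2 hne
    change v (σ j (τ j i i' : Ω)) = v (σ j sp) ^ e at he
    refine ⟨e, ?_, he⟩
    have h1 : v.comp (σ j).injective (π j i) = v.comp (σ j).injective (π j i') *
        v.comp (σ j).injective sp ^ e := by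
      change v (σ j (π j i)) = v (σ j (π j i')) * v (σ j sp) ^ e
      rw [← he, ← hZ', mul_comm]
    have h2 := hsc j i i' e h1
    rw [h2, zpow_neg]
    have h3 := hπ j i'
    have h4 : sp ^ e ≠ 0 := zpow_ne_zero _ hsp0
    field_simp
  have key2 : ∀ j j', ty j = ty j' → M j = M j' := by
    intro j j' hjj
    simp only [hty, Prod.mk.injEq] at hjj
    obtain ⟨h1, h2, h3, h4, h5⟩ := hjj
    have h1' : (σ j a = a) ↔ (σ j' a = a) := decide_eq_decide.mp h1
    have h2' : (σ j sp = sp) ↔ (σ j' sp = sp) := decide_eq_decide.mp h2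
    have hσa : σ j a = σ j' a := by
      by_cases h6 : σ j' a = a
      · rw [h6, h1'.mpr h6]
      · have h7 : σ j a ≠ a := fun h => h6 (h1'.mp h)
        rcases root_cases a (σ j a) t n' ha (sigma_root (σ j) a t n' ha) with h8 | h8
        · exact absurd h8 h7
        · rcases root_cases a (σ j' a) t n' ha (sigma_root (σ j') a t n' ha) with h9 | h9
          · exact absurd h9 h6
          · rw [h8, h9]
    have hσF := sigma_eq (σ j) (σ j') a t n' ha hσa
    have hσsp' : σ j sp = σ j' sp := by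
      have hc1 : ∀ j, σ j sp = sp ∨ σ j sp = -sp := by
        intro j
        have h6 : (σ j sp - sp) * (σ j sp + sp) = 0 := by
          linear_combination hσsp j - hsp
        rcases mul_eq_zero.1 h6 with h | h
        · exact Or.inl (sub_eq_zero.1 h)
        · exact Or.inr (by linear_combination h)
      by_cases h6 : σ j' sp = sp
      · rw [h6, h2'.mpr h6]
      · have h7 : σ j sp ≠ sp := fun h => h6 (h2'.mp h)
        rw [(hc1 j).resolve_left h7, (hc1 j').resolve_left h6]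
    have hττ : ∀ i ∈ J j, τ j i = τ j' i := by
      refine hUNQ (IntermediateField.adjoin ℚ {a}) g
        (U ⊓ (⨅ i ∈ S j, LinearMap.ker (LinearMap.proj i : (Fin g → (IntermediateField.adjoin ℚ {a})) →ₗ[(IntermediateField.adjoin ℚ {a})] (IntermediateField.adjoin ℚ {a}))) :
        Submodule (IntermediateField.adjoin ℚ {a}) (Fin g → (IntermediateField.adjoin ℚ {a})))
        (J j) (hJ j) (τ j) (τ j') ?_ ?_
      · intro i hi
        exact ⟨(hτ j i hi).1, (hτ j i hi).2.1, (hτ j i hi).2.2.1⟩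
      · intro i hi
        have hi' : i ∈ J j' := by rw [← h4]; exact hi
        have h6 := hτ j' i hi'
        refine ⟨?_, h6.2.1, ?_⟩
        · rw [h3]; exact h6.1
        · rw [h4]; exact h6.2.2.1
    funext i i'
    simp only [hM]
    by_cases hi : i ∈ J j ∧ (i, i') ∈ Z j
    · have hi2 : i ∈ J j' ∧ (i, i') ∈ Z j' := by rw [← h4, ← h5]; exact hi
      rw [if_pos hi, if_pos hi2]
      obtain ⟨e, he1, he2⟩ := key1 j i i' hi.2
      obtain ⟨e', he1', he2'⟩ := key1 j' i i' hi2.2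
      have hτe : (τ j i i' : Ω) = (τ j' i i' : Ω) := by rw [hττ i hi.1]
      have hee : e = e' := by
        have h6 : v (σ j sp) ^ e = v (σ j sp) ^ e' := by
          rw [← he2, hvspe j j', ← he2', hσF _ (τ j i i').2, hτe]
        exact zpow_right_injective₀ (hvsp0 j) (hvsp1 j).ne h6
      rw [he1, he1', ← hee, ← hτe, map_mul, map_mul, map_zpow₀, map_zpow₀, hσF _ (τ j i i').2,
        hσsp']
    · have hi2 : ¬ (i ∈ J j' ∧ (i, i') ∈ Z j') := by rw [← h4, ← h5]; exact hi
      rw [if_neg hi, if_neg hi2]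
  have hppos : p ^ 2 ≠ 0 := pow_ne_zero 2 hp.ne_zero
  have hodd : Odd (p ^ 2) := (hp.odd_of_ne_two (by omega)).pow
  have key3 : ∀ j i i', M j i i' ^ (p ^ 2) = M j i i' := by
    intro j i i'
    simp only [hM]
    split_ifs with hi
    · obtain ⟨e, he1, he2⟩ := key1 j i i' hi.2
      have h1 := hRS Ω kk p (v.comp (σ j).injective) (fun x => r (σ j x)) (hr.comp (σ j)) hp
        (by omega) (by change v (σ j (p : Ω)) < 1; rw [map_natCast]; exact hvp) a sp t n' ha hsp
        (τ j i i' : Ω) (τ j i i').2 (-e) (by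
          change v (σ j ((τ j i i' : Ω) * sp ^ (-e))) ≤ 1
          rw [map_mul, map_zpow₀, v.map_mul, map_zpow₀, he2, zpow_neg, mul_inv_cancel₀]
          exact zpow_ne_zero _ (hvsp0 j).ne')
      rw [he1, hodd.neg_pow]
      congr 1
    · exact zero_pow hppos
  have key4 : ∀ j, ∀ i ∈ J j, h j i = ∑ i' ∈ (S j ∪ J j)ᶜ, M j i i' * h j i' := by
    intro j i hi
    set vj : AbsoluteValue Ω ℝ := v.comp (σ j).injective with hvj
    have hrj : Red vj (fun x => r (σ j x)) := hr.comp (σ j)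
    have hvje : ∀ y, vj y = v (σ j y) := fun y => rfl
    have hτb : ∀ i', vj (τ j i i' : Ω) * vj (π j i') ≤ vj (π j i) := fun i' => (hτ j i hi).2.2.2 i'
    have hvπ' : ∀ i', 0 < vj (π j i') := fun i' => hvπ j i'
    have hEz : ∀ i', i' ∉ S j → vj (zz (P i')) = vj (π j i') := fun i' hi' => (hE j i' hi').2.2.1
    have h1 := hR p vj (R j) (hCx j) (S j)
      (fun i' hi' => ⟨(hE j i' hi').1, (hE j i' hi').2.1⟩) (τ j i) (hmem j i hi).1
      (hmem j i hi).2 (vj (π j i)) (hvπ j i) (fun i' hi' => by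
        rw [(hE j i' hi').2.2.1]
        exact hτb i')
    -- divide by π
    have hπi := hπ j i
    have h2 : ∑ i' ∈ (S j)ᶜ, ((τ j i i' : Ω) * (π j i' / π j i)) * (zz (P i') / π j i') =
        (∑ i' ∈ (S j)ᶜ, (τ j i i' : Ω) * zz (P i')) / π j i := by
      rw [Finset.sum_div]
      refine Finset.sum_congr rfl fun i' _ => ?_
      have := hπ j i'
      field_simp
    have h3 : vj (∑ i' ∈ (S j)ᶜ, ((τ j i i' : Ω) * (π j i' / π j i)) * (zz (P i') / π j i')) < 1 := by
      rw [h2, map_div₀]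
      rw [div_lt_one (hvπ' i)]
      exact h1
    have hA1 : ∀ i', vj ((τ j i i' : Ω) * (π j i' / π j i)) ≤ 1 := by
      intro i'
      rw [vj.map_mul, map_div₀, ← mul_div_assoc, div_le_one (hvπ' i)]
      exact hτb i'
    have hB1 : ∀ i', i' ∉ S j → vj (zz (P i') / π j i') ≤ 1 := by
      intro i' hi'
      rw [map_div₀, hEz i' hi', div_self (hvπ' i').ne']
    have hAB1 : ∀ i' ∈ (S j)ᶜ, vj (((τ j i i' : Ω) * (π j i' / π j i)) *
        (zz (P i') / π j i')) ≤ 1 := by
      intro i' hi'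
      rw [vj.map_mul]
      exact mul_le_one₀ (hA1 i') (vj.nonneg _) (hB1 i' (Finset.mem_compl.1 hi'))
    have h4 := (hrj.ker _ (na_sum hrj.na _ _ _ zero_le_one hAB1)).2 h3
    rw [hrj.sum _ _ hAB1] at h4
    have h5 : ∀ i' ∈ (S j)ᶜ, r (σ j (((τ j i i' : Ω) * (π j i' / π j i)) *
        (zz (P i') / π j i'))) = r (σ j ((τ j i i' : Ω) * (π j i' / π j i))) * h j i' := by
      intro i' hi'
      have h6 := Finset.mem_compl.1 hi'
      rw [(hE j i' h6).2.2.2]
      exact hrj.mul _ _ (hA1 i') (hB1 i' h6)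
    rw [Finset.sum_congr rfl h5] at h4
    have hJS : J j ⊆ (S j)ᶜ := by
      intro i' hi'
      rw [Finset.mem_compl]
      exact fun h' => (Finset.disjoint_left.1 (hdis j)) h' hi'
    have hcompl : (S j)ᶜ \ J j = (S j ∪ J j)ᶜ := by
      ext i'
      simp only [Finset.mem_sdiff, Finset.mem_compl, Finset.mem_union]
      tauto
    rw [← Finset.sum_sdiff hJS, hcompl] at h4
    have h7 : ∑ i' ∈ J j, r (σ j ((τ j i i' : Ω) * (π j i' / π j i))) * h j i' = h j i := by
      rw [Finset.sum_eq_single_of_mem i hi]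
      · rw [(hτ j i hi).2.1, div_self hπi]
        have : (((1 : IntermediateField.adjoin ℚ {a}) : Ω)) = 1 := rfl
        rw [this, mul_one, map_one, hr.one, one_mul]
      · intro i' hi' hne
        rw [(hτ j i hi).2.2.1 i' hi' hne]
        have : (((0 : IntermediateField.adjoin ℚ {a}) : Ω)) = 0 := rfl
        rw [this, zero_mul, map_zero, hr.zero, zero_mul]
    have h8 : ∀ i' ∈ (S j ∪ J j)ᶜ, M j i i' * h j i' =
        -(r (σ j ((τ j i i' : Ω) * (π j i' / π j i))) * h j i') := by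
      intro i' _
      by_cases hZ' : (i, i') ∈ Z j
      · simp only [hM]
        rw [if_pos ⟨hi, hZ'⟩]
        ring
      · have h9 : vj ((τ j i i' : Ω) * (π j i' / π j i)) < 1 := by
          rw [vj.map_mul, map_div₀, ← mul_div_assoc, div_lt_one (hvπ' i)]
          refine lt_of_le_of_ne (hτb i') ?_
          intro h0
          exact hZ' ((hZm j i i').2 h0)
        have h10 : r (σ j ((τ j i i' : Ω) * (π j i' / π j i))) = 0 := (hrj.ker _ h9.le).2 h9
        simp only [hM]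
        rw [if_neg (fun h' => hZ' h'.2), h10]
        ring
    rw [Finset.sum_congr rfl h8, Finset.sum_neg_distrib]
    rw [h7] at h4
    linear_combination h4
  refine ⟨fun t => if ht : ∃ j, ty j = t then M ht.choose else fun _ _ => 0, ?_, ?_⟩
  · intro t i i'
    by_cases ht : ∃ j, ty j = t
    · simp only [dif_pos ht]
      exact key3 _ _ _
    · simp only [dif_neg ht]
      exact zero_pow hppos
  · intro j
    have hex : ∃ j', ty j' = ty j := ⟨j, rfl⟩
    have hdat : (if ht : ∃ j', ty j' = ty j then M ht.choose else fun _ _ => 0) = M j := by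
      rw [dif_pos hex]
      exact key2 _ _ hex.choose_spec
    refine ⟨ty j, hdis j, hdim j, T j, x' j, s' j, h j, hTok j, hbase j, hx' j, hSeq j, hWeq j, ?_⟩
    intro i hi
    simp only [hdat]
    exact key4 j i hi

end PKS
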